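import Mathlib

/-!
# Length function of an amalgamated product

For `PushoutI φ` (all `φ i` injective) we define the number `len g` of letters of the normal form
and prove the four point condition.
-/

set_option autoImplicit false

namespace Pool.Agent.Lib.MP_944c19_al

open Monoid Monoid.PushoutI Function

/-! ## longest common prefix -/

section lcp

variable {α : Type*} [DecidableEq α]

/-- length of the longest common prefix -/
def lcp : List α → List α → ℕ
  | a :: l, b :: m => if a = b then lcp l m + 1 else 0
  | [], _ => 0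
  | _ :: _, [] => 0

@[simp] theorem lcp_nil_left (l : List α) : lcp [] l = 0 := by
  cases l <;> rfl

@[simp] theorem lcp_nil_right (l : List α) : lcp l [] = 0 := by
  cases l <;> rfl

theorem lcp_cons (a b : α) (l m : List α) :
    lcp (a :: l) (b :: m) = if a = b then lcp l m + 1 else 0 := rfl

theorem lcp_ultra (l m k : List α) : min (lcp l m) (lcp m k) ≤ lcp l k := by
  induction l generalizing m k with
  | nil => simp
  | cons a l ih =>
    cases m with
    | nil => simp
    | cons b m =>
      cases k with
      | nil => simp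
      | cons c k =>
        simp only [lcp_cons]
        have := ih m k
        split_ifs with h1 h2 h3 h3 <;> first | omega | (exfalso; simp_all)

theorem lcp_comm (l m : List α) : lcp l m = lcp m l := by
  induction l generalizing m with
  | nil => simp
  | cons a l ih =>
    cases m with
    | nil => simp
    | cons b m =>
      simp only [lcp_cons, ih m, eq_comm (a := a)]

theorem lcp_append (l m k : List α) : lcp (l ++ m) (l ++ k) = l.length + lcp m k := by
  induction l with
  | nil => simp
  | cons a l ih => simp [lcp_cons, ih]; omega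

end lcp

variable {ι : Type*} {G : ι → Type*} {H : Type*} [∀ i, Group (G i)] [Group H]
  {φ : ∀ i, H →* G i}

/-- reduced list of letters -/
def IsRed (φ : ∀ i, H →* G i) (l : List (Σ i, G i)) : Prop :=
  l.IsChain (fun a b => a.1 ≠ b.1) ∧ ∀ a ∈ l, a.2 ∉ (φ a.1).range

/-- product of a list of letters -/
def lprod (φ : ∀ i, H →* G i) (l : List (Σ i, G i)) : PushoutI φ :=
  (l.map (fun a => (of a.1 a.2 : PushoutI φ))).prod

@[simp] theorem lprod_nil : lprod φ [] = 1 := rfl
@[simp] theorem lprod_cons (a : Σ i, G i) (l : List (Σ i, G i)) :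
    lprod φ (a :: l) = of a.1 a.2 * lprod φ l := by simp [lprod]
@[simp] theorem lprod_append (l m : List (Σ i, G i)) :
    lprod φ (l ++ m) = lprod φ l * lprod φ m := by simp [lprod]

/-- the inverse list -/
def linv (l : List (Σ i, G i)) : List (Σ i, G i) :=
  (l.map (fun a => (⟨a.1, a.2⁻¹⟩ : Σ i, G i))).reverse

@[simp] theorem linv_nil : linv ([] : List (Σ i, G i)) = [] := rfl
@[simp] theorem length_linv (l : List (Σ i, G i)) : (linv l).length = l.length := by simp [linv]

theorem linv_append (l m : List (Σ i, G i)) : linv (l ++ m) = linv m ++ linv l := by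
  simp [linv]

theorem lprod_linv (l : List (Σ i, G i)) : lprod φ (linv l) = (lprod φ l)⁻¹ := by
  induction l with
  | nil => simp
  | cons a l ih =>
    have : linv (a :: l) = linv l ++ [⟨a.1, a.2⁻¹⟩] := by simp [linv]
    rw [this, lprod_append, ih]
    simp

theorem IsRed.linv {l : List (Σ i, G i)} (h : IsRed φ l) : IsRed φ (linv l) := by
  refine ⟨?_, ?_⟩
  · unfold MP_944c19_al.linv
    rw [List.isChain_reverse, List.isChain_map]
    exact h.1.imp (fun a b hab => Ne.symm hab)
  · intro a ha
    simp only [MP_944c19_al.linv, List.mem_reverse, List.mem_map] at ha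
    obtain ⟨b, hb, rfl⟩ := ha
    have := h.2 b hb
    simpa using this

theorem IsRed.left {l m : List (Σ i, G i)} (h : IsRed φ (l ++ m)) : IsRed φ l :=
  ⟨h.1.left_of_append, fun a ha => h.2 a (List.mem_append_left _ ha)⟩

theorem IsRed.right {l m : List (Σ i, G i)} (h : IsRed φ (l ++ m)) : IsRed φ m :=
  ⟨h.1.right_of_append, fun a ha => h.2 a (List.mem_append_right _ ha)⟩

theorem isRed_nil : IsRed φ ([] : List (Σ i, G i)) := ⟨List.isChain_nil, by simp⟩

theorem isRed_singleton {a : Σ i, G i} (h : a.2 ∉ (φ a.1).range) : IsRed φ [a] :=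
  ⟨List.isChain_singleton _, by simpa using h⟩

/-- concatenation of reduced lists -/
theorem isRed_append {l m : List (Σ i, G i)} {a b : Σ i, G i} (h1 : IsRed φ (l ++ [a]))
    (h2 : IsRed φ (b :: m)) (hab : a.1 ≠ b.1) : IsRed φ (l ++ [a] ++ b :: m) := by
  refine ⟨?_, ?_⟩
  · rw [List.isChain_append]
    refine ⟨h1.1, h2.1, ?_⟩
    intro x hx y hy
    simp only [List.getLast?_append, List.getLast?_singleton, Option.some_or, Option.mem_def,
      Option.some.injEq] at hx
    simp only [List.head?_cons, Option.mem_def, Option.some.injEq] at hy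
    rw [← hx, ← hy]
    exact hab
  · intro x hx
    rcases List.mem_append.mp hx with h | h
    · exact h1.2 x h
    · exact h2.2 x h

/-- replacing the last letter by one of the same index -/
theorem isRed_replace_last {l : List (Σ i, G i)} {i : ι} {a b : G i} (h1 : IsRed φ (l ++ [⟨i, a⟩]))
    (hb : b ∉ (φ i).range) : IsRed φ (l ++ [⟨i, b⟩]) := by
  refine ⟨?_, ?_⟩
  · have := h1.1
    rw [List.isChain_append] at this ⊢
    refine ⟨this.1, List.isChain_singleton _, ?_⟩
    intro x hx y hy
    simp only [List.head?_cons, Option.mem_def, Option.some.injEq] at hy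
    subst hy
    exact this.2.2 x hx ⟨i, a⟩ (by simp)
  · intro x hx
    rcases List.mem_append.mp hx with h | h
    · exact h1.2 x (List.mem_append_left _ h)
    · simp only [List.mem_singleton] at h
      subst h
      exact hb

theorem lprod_mul_base {l : List (Σ i, G i)} (hl : IsRed φ l) (hne : l ≠ []) (h : H) :
    ∃ m : List (Σ i, G i), IsRed φ m ∧ m.map Sigma.fst = l.map Sigma.fst ∧
      lprod φ m = lprod φ l * base φ h := by
  obtain ⟨l', a, rfl⟩ : ∃ l' a, l = l' ++ [a] :=
    ⟨l.dropLast, l.getLast hne, (List.dropLast_append_getLast hne).symm⟩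
  obtain ⟨i, a⟩ := a
  refine ⟨l' ++ [⟨i, a * φ i h⟩], isRed_replace_last hl ?_, by simp, ?_⟩
  · have ha := hl.2 ⟨i, a⟩ (by simp)
    intro hcon
    apply ha
    simpa using (φ i).range.mul_mem hcon ((φ i).range.inv_mem ⟨h, rfl⟩)
  · simp [of_apply_eq_base, mul_assoc]

theorem lprod_mul_base' {l : List (Σ i, G i)} (hl : IsRed φ l) (h : H) :
    ∃ (m : List (Σ i, G i)) (h' : H), IsRed φ m ∧ m.map Sigma.fst = l.map Sigma.fst ∧
      base φ h' * lprod φ m = lprod φ l * base φ h := by
  by_cases hne : l = []
  · subst hne
    exact ⟨[], h, isRed_nil, rfl, by simp⟩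
  · obtain ⟨m, h1, h2, h3⟩ := lprod_mul_base hl hne h
    exact ⟨m, 1, h1, h2, by simpa using h3⟩

/-- every element has a reduced expression -/
theorem exists_red (d : NormalWord.Transversal φ) (g : PushoutI φ) :
    ∃ w : NormalWord d, w.prod = g := by
  classical
  exact ⟨NormalWord.equiv g, NormalWord.equiv.symm_apply_apply g⟩

/-- the list of indices is determined by the product -/
theorem red_unique (hφ : ∀ i, Injective (φ i)) {l m : List (Σ i, G i)} (hl : IsRed φ l)
    (hm : IsRed φ m) (h h' k k' : H)
    (heq : base φ h * lprod φ l * base φ h' = base φ k * lprod φ m * base φ k') :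
    l.map Sigma.fst = m.map Sigma.fst := by
  obtain ⟨d⟩ := NormalWord.transversal_nonempty φ hφ
  have key : ∀ {l : List (Σ i, G i)} (hl : IsRed φ l) (h h' : H),
      ∃ w : NormalWord d, w.prod = base φ h * lprod φ l * base φ h' ∧
        w.toList.map Sigma.fst = l.map Sigma.fst := by
    intro l hl h h'
    obtain ⟨m, h'', h1, h2, h3⟩ := lprod_mul_base' hl h'
    let w : CoprodI.Word G := ⟨m, fun a ha h1' => h1.2 a ha (by rw [h1']; exact one_mem _), h1.1⟩
    have hw : Reduced φ w := fun a ha => h1.2 a ha
    obtain ⟨w', h4, h5⟩ := hw.exists_normalWord_prod_eq d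
    refine ⟨(h * h'') • w', ?_, ?_⟩
    · rw [NormalWord.prod_base_smul, h4, mul_assoc, ← h3, map_mul, mul_assoc]
      congr 2
      simp only [CoprodI.Word.prod, w, map_list_prod, List.map_map, lprod]
      congr 1
    · have : ((h * h'') • w').toList = w'.toList := rfl
      rw [this, h5]
      exact h2
  obtain ⟨w1, h1, h2⟩ := key hl h h'
  obtain ⟨w2, h3, h4⟩ := key hm k k'
  have : w1 = w2 := NormalWord.prod_injective (by rw [h1, h3, heq])
  rw [← h2, ← h4, this]


theorem isRed_merge {l m : List (Σ i, G i)} {i : ι} {a b c : G i} (h1 : IsRed φ (l ++ [⟨i, a⟩]))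
    (h2 : IsRed φ (⟨i, b⟩ :: m)) (hc : c ∉ (φ i).range) : IsRed φ (l ++ ⟨i, c⟩ :: m) := by
  refine ⟨?_, ?_⟩
  · have h3 := h1.1
    have h4 := h2.1
    rw [List.isChain_append] at h3 ⊢
    rw [List.isChain_cons] at h4 ⊢
    refine ⟨h3.1, ⟨fun y hy => h4.1 y hy, h4.2⟩, ?_⟩
    intro x hx y hy
    simp only [List.head?_cons, Option.mem_def, Option.some.injEq] at hy
    subst hy
    exact h3.2.2 x hx ⟨i, a⟩ (by simp)
  · intro x hx
    rcases List.mem_append.mp hx with h | h
    · exact h1.2 x (List.mem_append_left _ h)
    · rcases List.mem_cons.mp h with h | h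
      · subst h; exact hc
      · exact h2.2 x (List.mem_cons_of_mem _ h)

open Classical in
/-- the list of letters of the normal form -/
noncomputable def nf (d : NormalWord.Transversal φ) (g : PushoutI φ) : List (Σ i, G i) :=
  (Classical.choose (exists_red d g)).toList

theorem nf_spec (d : NormalWord.Transversal φ) (g : PushoutI φ) :
    IsRed φ (nf d g) ∧ (∀ a ∈ nf d g, a.2 ∈ d.set a.1) ∧ ∃ h : H, g = base φ h * lprod φ (nf d g) := by
  have hw := Classical.choose_spec (exists_red d g)
  set w := Classical.choose (exists_red d g) with hwdef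
  have hnf : nf d g = w.toList := rfl
  rw [hnf]
  refine ⟨⟨w.chain_ne, ?_⟩, fun a ha => w.normalized a.1 a.2 ha, w.head, ?_⟩
  · intro a ha hcon
    have h1 : a.2 ∈ d.set a.1 := w.normalized a.1 a.2 ha
    have h2 := w.ne_one a ha
    apply h2
    have := (d.compl a.1).1 (a₁ := (⟨⟨a.2, hcon⟩, ⟨1, d.one_mem a.1⟩⟩ : (φ a.1).range × d.set a.1))
      (a₂ := (⟨1, ⟨a.2, h1⟩⟩ : (φ a.1).range × d.set a.1)) (by simp)
    have h3 := congrArg (fun z => (z.2 : G a.1)) this
    simpa using h3.symm
  · rw [← hw]
    simp only [NormalWord.prod, CoprodI.Word.prod, map_list_prod, List.map_map, lprod]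
    congr 2

/-- number of letters of the normal form -/
noncomputable def len (d : NormalWord.Transversal φ) (g : PushoutI φ) : ℕ := (nf d g).length

theorem len_red (d : NormalWord.Transversal φ) {l : List (Σ i, G i)} (hl : IsRed φ l) (h h' : H) :
    len d (base φ h * lprod φ l * base φ h') = l.length := by
  obtain ⟨h1, _, k, h3⟩ := nf_spec d (base φ h * lprod φ l * base φ h')
  have := red_unique d.injective hl h1 h h' k 1 (by rw [map_one, mul_one, ← h3])
  have h4 := congrArg List.length this
  simp only [List.length_map] at h4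
  exact h4.symm

theorem len_lprod (d : NormalWord.Transversal φ) {l : List (Σ i, G i)} (hl : IsRed φ l) :
    len d (lprod φ l) = l.length := by
  simpa using len_red d hl 1 1

theorem len_one (d : NormalWord.Transversal φ) : len d (1 : PushoutI φ) = 0 := by
  simpa using len_lprod d (isRed_nil (φ := φ))

theorem len_inv (d : NormalWord.Transversal φ) (g : PushoutI φ) : len d g⁻¹ = len d g := by
  obtain ⟨h1, _, k, h3⟩ := nf_spec d g
  have h4 : g⁻¹ = base φ 1 * lprod φ (linv (nf d g)) * base φ k⁻¹ := by
    rw [lprod_linv, map_one, one_mul, map_inv, ← mul_inv_rev, ← h3]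
  rw [h4, len_red d h1.linv]
  simp [len]

theorem len_base_mul_mul (d : NormalWord.Transversal φ) (g : PushoutI φ) (h h' : H) :
    len d (base φ h * g * base φ h') = len d g := by
  obtain ⟨h1, _, k, h3⟩ := nf_spec d g
  have h4 : base φ h * g * base φ h' = base φ (h * k) * lprod φ (nf d g) * base φ h' := by
    conv_lhs => rw [h3]
    simp [mul_assoc]
  rw [h4, len_red d h1]
  rfl

theorem len_eq_zero (d : NormalWord.Transversal φ) (g : PushoutI φ) :
    len d g = 0 ↔ g ∈ (base φ).range := by
  constructor
  · intro h
    obtain ⟨h1, _, k, h3⟩ := nf_spec d g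
    have : nf d g = [] := List.length_eq_zero_iff.mp h
    rw [this] at h3
    exact ⟨k, by simpa using h3.symm⟩
  · rintro ⟨k, rfl⟩
    simpa using len_base_mul_mul d (1 : PushoutI φ) k 1 |>.trans (len_one d)

theorem len_of_le (d : NormalWord.Transversal φ) (i : ι) (a : G i) :
    len d (of i a : PushoutI φ) ≤ 1 := by
  by_cases h : a ∈ (φ i).range
  · obtain ⟨k, rfl⟩ := h
    rw [of_apply_eq_base]
    rw [(len_eq_zero d _).mpr ⟨k, rfl⟩]
    exact Nat.zero_le _
  · have := len_lprod d (isRed_singleton (φ := φ) (a := ⟨i, a⟩) h)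
    simp at this
    exact this.le

theorem len_le_one [Nonempty ι] (d : NormalWord.Transversal φ) (g : PushoutI φ) :
    len d g ≤ 1 ↔ ∃ i, g ∈ (of (φ := φ) i).range := by
  constructor
  · intro h
    obtain ⟨h1, _, k, h3⟩ := nf_spec d g
    rcases Nat.lt_or_ge (len d g) 1 with h0 | h0
    · obtain ⟨k, rfl⟩ := (len_eq_zero d g).mp (by omega)
      obtain ⟨i⟩ := ‹Nonempty ι›
      exact ⟨i, φ i k, of_apply_eq_base φ i k⟩
    · obtain ⟨a, ha⟩ := List.length_eq_one_iff.mp (le_antisymm h h0 : (nf d g).length = 1)
      rw [ha] at h3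
      refine ⟨a.1, φ a.1 k * a.2, ?_⟩
      rw [h3]
      simp [of_apply_eq_base]
  · rintro ⟨i, a, rfl⟩
    exact len_of_le d i a

/-- interleaved list of indices and letters -/
def il (l : List (Σ i, G i)) : List (ι ⊕ Σ i, G i) :=
  l.flatMap (fun a => [Sum.inl a.1, Sum.inr a])

@[simp] theorem il_nil : il ([] : List (Σ i, G i)) = [] := rfl
@[simp] theorem il_cons (a : Σ i, G i) (l : List (Σ i, G i)) :
    il (a :: l) = Sum.inl a.1 :: Sum.inr a :: il l := rfl

open Classical in
theorem len_aux (d : NormalWord.Transversal φ) (R S : List (Σ i, G i))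
    (hR : IsRed φ R.reverse) (hS : IsRed φ S.reverse) (hR' : ∀ a ∈ R, a.2 ∈ d.set a.1)
    (hS' : ∀ a ∈ S, a.2 ∈ d.set a.1) :
    len d (lprod φ R.reverse * (lprod φ S.reverse)⁻¹) + lcp (il R) (il S)
      = R.length + S.length := by
  induction R generalizing S with
  | nil =>
    simp only [List.reverse_nil, lprod_nil, one_mul, il_nil, lcp_nil_left, add_zero,
      List.length_nil, zero_add]
    rw [len_inv, len_lprod d hS, List.length_reverse]
  | cons a R ih =>
    cases S with
    | nil =>
      simp only [List.reverse_nil, lprod_nil, inv_one, mul_one, il_nil, lcp_nil_right, add_zero,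
        List.length_nil]
      rw [len_lprod d hR, List.length_reverse]
    | cons b S =>
      by_cases hab : a = b
      · subst hab
        have hR1 : IsRed φ R.reverse := by
          rw [List.reverse_cons] at hR; exact hR.left
        have hS1 : IsRed φ S.reverse := by
          rw [List.reverse_cons] at hS; exact hS.left
        have := ih S hR1 hS1 (fun x hx => hR' x (List.mem_cons_of_mem _ hx))
          (fun x hx => hS' x (List.mem_cons_of_mem _ hx))
        have h1 : lprod φ (a :: R).reverse * (lprod φ (a :: S).reverse)⁻¹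
            = lprod φ R.reverse * (lprod φ S.reverse)⁻¹ := by
          simp only [List.reverse_cons, lprod_append, lprod_cons, lprod_nil, mul_one]
          group
        rw [h1]
        simp only [il_cons, lcp_cons, if_true, List.length_cons]
        omega
      · by_cases hi : a.1 = b.1
        · obtain ⟨i, a⟩ := a
          obtain ⟨j, b⟩ := b
          dsimp only at hi
          subst hi
          have hne : a ≠ b := fun h => hab (by rw [h])
          have hc : a * b⁻¹ ∉ (φ i).range := by
            intro hcon
            apply hne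
            have h1 := hR' ⟨i, a⟩ List.mem_cons_self
            have h2 := hS' ⟨i, b⟩ List.mem_cons_self
            have := (d.compl i).1
              (a₁ := (⟨⟨a * b⁻¹, hcon⟩, ⟨b, h2⟩⟩ : (φ i).range × d.set i))
              (a₂ := (⟨1, ⟨a, h1⟩⟩ : (φ i).range × d.set i)) (by simp)
            have h3 := congrArg (fun z => (z.2 : G i)) this
            simpa using h3.symm
          have h3 : IsRed φ (R.reverse ++ ⟨i, a * b⁻¹⟩ :: linv S.reverse) := by
            rw [List.reverse_cons] at hR hS
            have h4 := hS.linv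
            rw [linv_append] at h4
            exact isRed_merge hR (b := b⁻¹) (by simpa [linv] using h4) hc
          have h1 : lprod φ (⟨i, a⟩ :: R).reverse * (lprod φ (⟨i, b⟩ :: S).reverse)⁻¹
              = lprod φ (R.reverse ++ ⟨i, a * b⁻¹⟩ :: linv S.reverse) := by
            simp only [List.reverse_cons, lprod_append, lprod_cons, lprod_nil, mul_one, lprod_linv,
              map_mul, map_inv]
            group
          rw [h1, len_lprod d h3]
          have hne' : (Sum.inr (⟨i, a⟩ : Σ i, G i) : ι ⊕ Σ i, G i) ≠ Sum.inr ⟨i, b⟩ :=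
            fun h => hab (Sum.inr_injective h)
          simp only [il_cons, lcp_cons, if_true, hne', if_false, List.length_append,
            List.length_reverse, List.length_cons, length_linv]
          omega
        · have h3 : IsRed φ (R.reverse ++ [a] ++ ⟨b.1, b.2⁻¹⟩ :: linv S.reverse) := by
            rw [List.reverse_cons] at hR hS
            have h4 := hS.linv
            rw [linv_append] at h4
            exact isRed_append hR (by simpa [linv] using h4) hi
          have h1 : lprod φ (a :: R).reverse * (lprod φ (b :: S).reverse)⁻¹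
              = lprod φ (R.reverse ++ [a] ++ ⟨b.1, b.2⁻¹⟩ :: linv S.reverse) := by
            simp only [List.reverse_cons, lprod_append, lprod_cons, lprod_nil, mul_one, lprod_linv,
              map_inv]
            group
          rw [h1, len_lprod d h3]
          have hne' : (Sum.inl a.1 : ι ⊕ Σ i, G i) ≠ Sum.inl b.1 :=
            fun h => hi (Sum.inl_injective h)
          simp only [il_cons, lcp_cons, hne', if_false, List.length_append,
            List.length_reverse, List.length_cons, length_linv, List.length_nil]
          omega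

open Classical in
theorem len_mul_inv (d : NormalWord.Transversal φ) (g h : PushoutI φ) :
    len d (g * h⁻¹) + lcp (il (nf d g).reverse) (il (nf d h).reverse) = len d g + len d h := by
  obtain ⟨h1, h2, k, h3⟩ := nf_spec d g
  obtain ⟨h4, h5, k', h6⟩ := nf_spec d h
  have := len_aux d (nf d g).reverse (nf d h).reverse (by simpa using h1) (by simpa using h4)
    (fun a ha => h2 a (by simpa using ha)) (fun a ha => h5 a (by simpa using ha))
  simp only [List.reverse_reverse, List.length_reverse] at this
  have h7 : g * h⁻¹ = base φ k * (lprod φ (nf d g) * (lprod φ (nf d h))⁻¹) * base φ k'⁻¹ := by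
    conv_lhs => rw [h3, h6]
    rw [mul_inv_rev, map_inv]
    group
  rw [h7, len_base_mul_mul]
  exact this

/-- the four point condition for the right invariant distance `len (g * h⁻¹)` -/
theorem four_point (d : NormalWord.Transversal φ) (x y u w : PushoutI φ) :
    len d (x * y⁻¹) + len d (u * w⁻¹) ≤
      max (len d (x * u⁻¹) + len d (y * w⁻¹)) (len d (x * w⁻¹) + len d (y * u⁻¹)) := by
  classical
  -- move `w` to the identity
  have key : ∀ a b c : PushoutI φ, len d (a * b⁻¹) + len d c ≤
      max (len d (a * c⁻¹) + len d b) (len d a + len d (b * c⁻¹)) := by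
    intro a b c
    have h1 := len_mul_inv d a b
    have h2 := len_mul_inv d a c
    have h3 := len_mul_inv d b c
    have h4 := lcp_ultra (il (nf d a).reverse) (il (nf d c).reverse) (il (nf d b).reverse)
    rw [lcp_comm (il (nf d c).reverse)] at h4
    omega
  have := key (x * w⁻¹) (y * w⁻¹) (u * w⁻¹)
  simpa [mul_assoc] using this

end Pool.Agent.Lib.MP_944c19_al
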