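import Pool.Agent.Lib.MP_944c19_al.GP

/-!
# The group `(A ⋊ ℤ) × ℤ`

`A` is the right-angled Artin group of the graph with vertex set `ℤ`, divided into consecutive
blocks of sizes `1, 2, 3, 1, 2, 3, …`, in which two vertices are adjacent when they are in the same
block or in consecutive blocks. `ℤ` acts by the translations by multiples of `6`.
-/

set_option autoImplicit false

namespace Pool.Agent.Lib.MP_944c19_al

open Monoid Function GraphProduct

/-- the block of a vertex: `6 q` is in the block `3 q`, `6 q + 1, 6 q + 2` in the block `3 q + 1`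
and `6 q + 3, 6 q + 4, 6 q + 5` in the block `3 q + 2` -/
def blk (x : ℤ) : ℤ := 3 * (x / 6) + if x % 6 = 0 then 0 else if x % 6 ≤ 2 then 1 else 2

theorem blk_add (x k : ℤ) : blk (x + 6 * k) = blk x + 3 * k := by
  unfold blk
  have h1 : (x + 6 * k) / 6 = x / 6 + k := by omega
  have h2 : (x + 6 * k) % 6 = x % 6 := by omega
  rw [h1, h2]
  ring

/-- the graph on `ℤ` -/
def hub : SimpleGraph ℤ where
  Adj x y := x ≠ y ∧ |blk x - blk y| ≤ 1
  symm := ⟨fun x y h => ⟨h.1.symm, by rw [abs_sub_comm]; exact h.2⟩⟩
  loopless := ⟨fun x h => h.1 rfl⟩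

theorem hub_adj {x y : ℤ} : hub.Adj x y ↔ x ≠ y ∧ |blk x - blk y| ≤ 1 := Iff.rfl

/-- the right-angled Artin group of `hub` -/
abbrev RA : Type := GraphProduct hub fun _ => Multiplicative ℤ

/-- the vertex groups -/
def vx (x : ℤ) : Multiplicative ℤ →* RA := ι (Γ := hub) (G := fun _ => Multiplicative ℤ) x

theorem vx_comm {x y : ℤ} (h : |blk x - blk y| ≤ 1) (a b : Multiplicative ℤ) :
    vx x a * vx y b = vx y b * vx x a := by
  by_cases hxy : x = y
  · subst hxy
    rw [← map_mul, ← map_mul, mul_comm]
  · exact ι_comm (Γ := hub) (G := fun _ => Multiplicative ℤ) ⟨hxy, h⟩ a b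

/-- the endomorphism of `RA` induced by the translation by `6 k` -/
def shiftHom (k : ℤ) : RA →* RA :=
  lift (G := fun _ => Multiplicative ℤ) (fun x => vx (x + 6 * k)) (by
    intro x y h a b
    apply vx_comm
    rw [blk_add, blk_add]
    have : blk x + 3 * k - (blk y + 3 * k) = blk x - blk y := by ring
    rw [this]
    exact h.2)

theorem shiftHom_vx (k x : ℤ) (a : Multiplicative ℤ) : shiftHom k (vx x a) = vx (x + 6 * k) a :=
  lift_ι (Γ := hub) (G := fun _ => Multiplicative ℤ) _ _ _ _

theorem RA_hom_ext {K : Type*} [Group K] {f g : RA →* K}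
    (h : ∀ x (a : Multiplicative ℤ), f (vx x a) = g (vx x a)) : f = g :=
  hom_ext (Γ := hub) (G := fun _ => Multiplicative ℤ) h

theorem shiftHom_comp (k l : ℤ) : (shiftHom k).comp (shiftHom l) = shiftHom (k + l) := by
  apply RA_hom_ext
  intro x a
  rw [MonoidHom.comp_apply, shiftHom_vx, shiftHom_vx, shiftHom_vx]
  have : x + 6 * l + 6 * k = x + 6 * (k + l) := by ring
  rw [this]

theorem shiftHom_zero : shiftHom 0 = MonoidHom.id RA := by
  apply RA_hom_ext
  intro x a
  rw [shiftHom_vx, MonoidHom.id_apply, mul_zero, add_zero]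

/-- `ℤ` acts on `RA` by translations by multiples of `6` -/
def shift : Multiplicative ℤ →* MulAut RA where
  toFun k :=
    { toFun := shiftHom k.toAdd
      invFun := shiftHom (-k.toAdd)
      left_inv := fun g => by
        have := DFunLike.congr_fun (shiftHom_comp (-k.toAdd) k.toAdd) g
        rw [neg_add_cancel, shiftHom_zero] at this
        exact this
      right_inv := fun g => by
        have := DFunLike.congr_fun (shiftHom_comp k.toAdd (-k.toAdd)) g
        rw [add_neg_cancel, shiftHom_zero] at this
        exact this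
      map_mul' := map_mul _ }
  map_one' := by
    ext g
    exact DFunLike.congr_fun shiftHom_zero g
  map_mul' k l := by
    ext g
    exact (DFunLike.congr_fun (shiftHom_comp k.toAdd l.toAdd) g).symm

theorem shift_apply (k : Multiplicative ℤ) (g : RA) : shift k g = shiftHom k.toAdd g := rfl

/-- the mapping torus `A ⋊ ℤ` -/
abbrev KK : Type := RA ⋊[shift] Multiplicative ℤ

/-- the group `(A ⋊ ℤ) × ℤ` -/
abbrev Big : Type := KK × Multiplicative ℤ

end Pool.Agent.Lib.MP_944c19_al
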