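import Mathlib

/-!
# Cube complexes, special cube complexes, edge path groups

A cube complex is given combinatorially, as a precubical set. These are the cube complexes whose
edges can be oriented and whose cubes have ordered directions, both compatibly with the gluing. Every
special cube complex is of this form: its hyperplanes are two-sided, which gives the orientation of
the edges, and they do not intersect themselves, so that a total order of the hyperplanes orders the
directions of every cube.
-/

set_option autoImplicit false

namespace Pool.Agent.Lib.MP_944c19_al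

/-- A cube complex (given combinatorially): `cell n` is the set of `n`-cubes; the cube `c` of
dimension `n + 1` is a copy of `[0,1]^(n+1)` and `face i ε c` is the `n`-cube to which its face
`x_i = ε` (`false` is `0`, `true` is `1`) is glued, the remaining coordinates being kept in
order. `face_face` says that the two ways to obtain a codimension two face agree. The underlying
space is obtained by gluing one copy of `[0,1]^n` for every `n`-cube along these face maps. -/
structure CubeComplex where
  cell : ℕ → Type
  face : ∀ {n : ℕ}, Fin (n + 1) → Bool → cell (n + 1) → cell n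
  face_face : ∀ {n : ℕ} (i j : Fin (n + 1)) (ε η : Bool) (c : cell (n + 2)), i ≤ j →
    face i ε (face j.succ η c) = face j η (face i.castSucc ε c)

namespace CubeComplex

variable (X : CubeComplex)

/-- The vertex of the cube `c` with coordinates `ε`. -/
def corner : ∀ {n : ℕ}, X.cell n → (Fin n → Bool) → X.cell 0
  | 0, c, _ => c
  | _ + 1, c, ε => corner (X.face 0 (ε 0) c) fun i => ε i.succ

/-- The edge of the cube `c` in direction `i` which contains the vertex with coordinates `ε`. -/
def edge : ∀ {n : ℕ}, X.cell n → (Fin n → Bool) → Fin n → X.cell 1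
  | 0, _, _, i => i.elim0
  | 1, c, _, _ => c
  | _ + 2, c, ε, i =>
    if h : i = 0 then edge (X.face 1 (ε 1) c) (fun j => ε (Fin.succAbove 1 j)) 0
    else edge (X.face 0 (ε 0) c) (fun j => ε j.succ) (i.pred h)

/-- The half edges which issue from the vertex of `c` with coordinates `ε` along the edges of
`c`. A half edge is an edge together with one of its two ends (the half edge `(e, ε)` issues from
the vertex `face 0 ε e`); half edges at a vertex are the vertices of its link, and the
`n`-cubes `c` with a corner `ε` at the vertex are the `(n-1)`-simplices of the link, with vertices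
`halfEdges c ε 0, …, halfEdges c ε (n-1)`. -/
def halfEdges {n : ℕ} (c : X.cell n) (ε : Fin n → Bool) (i : Fin n) : X.cell 1 × Bool :=
  (X.edge c ε i, ε i)

/-- Two half edges at a vertex `v` which are the two sides of a corner of a square
(that is, they are joined by an edge in the link of `v`). -/
def Square (v : X.cell 0) (h h' : X.cell 1 × Bool) : Prop :=
  ∃ (q : X.cell 2) (ε : Fin 2 → Bool), X.corner q ε = v ∧ Set.range (X.halfEdges q ε) = {h, h'}

/-- `X` has finitely many cubes. -/
def IsCompact : Prop := Finite (Σ n, X.cell n)

/-- Nonpositive curvature (Gromov's link condition): every link is a flag simplicial complex. The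
first condition says that the vertices of a simplex of the link are distinct, the second that a
simplex is determined by its vertices, the third that any finite set of pairwise joined vertices
spans a simplex. -/
def IsNPC : Prop :=
  (∀ (n : ℕ) (c : X.cell n) (ε : Fin n → Bool), Function.Injective (X.halfEdges c ε)) ∧
  (∀ (n : ℕ) (c c' : X.cell n) (ε ε' : Fin n → Bool), X.corner c ε = X.corner c' ε' →
    Set.range (X.halfEdges c ε) = Set.range (X.halfEdges c' ε') → c = c' ∧ ε = ε') ∧
  (∀ (v : X.cell 0) (T : Finset (X.cell 1 × Bool)), (∀ h ∈ T, X.face 0 h.2 h.1 = v) →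
    (∀ h ∈ T, ∀ h' ∈ T, h ≠ h' → X.Square v h h') →
    ∃ (n : ℕ) (c : X.cell n) (ε : Fin n → Bool),
      X.corner c ε = v ∧ Set.range (X.halfEdges c ε) = T)

/-- Two edges are dual to the same hyperplane: the equivalence relation generated by the pairs of
opposite edges of squares. As opposite edges of a square are always oriented in the same way
(from the face `x_i = 0` to the face `x_i = 1`) the edges dual to a hyperplane are consistently
oriented, so that all hyperplanes are two-sided. -/
def Parallel : X.cell 1 → X.cell 1 → Prop :=
  Relation.EqvGen fun e e' => ∃ (q : X.cell 2) (i : Fin 2), e = X.face i false q ∧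
    e' = X.face i true q

/-- The conditions of Haglund and Wise (besides two-sidedness of the hyperplanes, which is
automatic here): no hyperplane intersects itself, no hyperplane directly self-osculates, no two
hyperplanes inter-osculate (if two hyperplanes intersect, then any two edges dual to the first and
to the second hyperplane with a common vertex form a corner of a square there). -/
def HyperplanesSpecial : Prop :=
  (∀ q : X.cell 2, ¬ X.Parallel (X.face 0 false q) (X.face 1 false q)) ∧
  (∀ e e' : X.cell 1, X.Parallel e e' → ∀ ε, X.face 0 ε e = X.face 0 ε e' → e = e') ∧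
  (∀ (q : X.cell 2) (h h' : X.cell 1 × Bool), X.Parallel (X.face 0 false q) h.1 →
    X.Parallel (X.face 1 false q) h'.1 → X.face 0 h.2 h.1 = X.face 0 h'.2 h'.1 →
    X.Square (X.face 0 h.2 h.1) h h')

/-- A list of oriented edges (`(e, false)` is `e` traversed from its start `face 0 false e` to its
end `face 0 true e`, and `(e, true)` is `e` traversed backwards) is a path from `p` to `q`. -/
def IsPath : X.cell 0 → List (X.cell 1 × Bool) → X.cell 0 → Prop
  | p, [], q => p = q
  | p, x :: l, q => X.face 0 x.2 x.1 = p ∧ IsPath (X.face 0 (!x.2) x.1) l q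

/-- Elementary homotopies of edge paths: removal of a backtrack, and replacement of two
consecutive edges of a square by the other two. -/
inductive Step : List (X.cell 1 × Bool) → List (X.cell 1 × Bool) → Prop
  | backtrack (l₁ l₂ : List (X.cell 1 × Bool)) (x : X.cell 1 × Bool) :
      Step (l₁ ++ x :: (x.1, !x.2) :: l₂) (l₁ ++ l₂)
  | square (l₁ l₂ : List (X.cell 1 × Bool)) (q : X.cell 2) :
      Step (l₁ ++ (X.face 1 false q, false) :: (X.face 0 true q, false) :: l₂)
        (l₁ ++ (X.face 0 false q, false) :: (X.face 1 true q, false) :: l₂)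

/-- Any two vertices are joined by a path. -/
def IsConnected : Prop := Nonempty (X.cell 0) ∧ ∀ p q : X.cell 0, ∃ l, X.IsPath p l q

/-- The fundamental group (edge path group): closed edge paths at `p` modulo the equivalence
relation generated by elementary homotopies (through closed edge paths at `p`), with
concatenation. -/
def π₁ (p : X.cell 0) : Type :=
  Quot fun a b : {l : List (X.cell 1 × Bool) // X.IsPath p l p} => X.Step a.1 b.1

variable {X}

theorem isPath_append {p q : X.cell 0} {l l' : List (X.cell 1 × Bool)} :
    X.IsPath p (l ++ l') q ↔ ∃ r, X.IsPath p l r ∧ X.IsPath r l' q := by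
  induction l generalizing p with
  | nil => simp [IsPath]
  | cons x l ih =>
    simp only [List.cons_append, IsPath, ih]
    constructor
    · rintro ⟨h, r, h1, h2⟩
      exact ⟨r, ⟨h, h1⟩, h2⟩
    · rintro ⟨r, ⟨h, h1⟩, h2⟩
      exact ⟨h, r, h1, h2⟩

theorem IsPath.append {p q r : X.cell 0} {l l' : List (X.cell 1 × Bool)}
    (h : X.IsPath p l q) (h' : X.IsPath q l' r) : X.IsPath p (l ++ l') r :=
  isPath_append.mpr ⟨q, h, h'⟩

/-- the reversed path -/
def rev (l : List (X.cell 1 × Bool)) : List (X.cell 1 × Bool) :=
  (l.map fun x => (x.1, !x.2)).reverse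

theorem rev_cons (x : X.cell 1 × Bool) (l : List (X.cell 1 × Bool)) :
    rev (x :: l) = rev l ++ [(x.1, !x.2)] := by
  simp [rev]

theorem rev_append (l l' : List (X.cell 1 × Bool)) : rev (l ++ l') = rev l' ++ rev l := by
  simp [rev]

theorem rev_rev (l : List (X.cell 1 × Bool)) : rev (rev l) = l := by
  simp [rev, Function.comp_def]

theorem IsPath.rev {p q : X.cell 0} {l : List (X.cell 1 × Bool)} (h : X.IsPath p l q) :
    X.IsPath q (rev l) p := by
  induction l generalizing p with
  | nil => exact Eq.symm h
  | cons x l ih =>
    rw [rev_cons]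
    refine (ih h.2).append ⟨rfl, ?_⟩
    show X.face 0 (!!x.2) x.1 = p
    rw [Bool.not_not]
    exact h.1

theorem Step.append_left {l l' : List (X.cell 1 × Bool)} (a : List (X.cell 1 × Bool))
    (h : X.Step l l') : X.Step (a ++ l) (a ++ l') := by
  cases h with
  | backtrack l₁ l₂ x =>
    rw [← List.append_assoc, ← List.append_assoc]
    exact Step.backtrack _ _ _
  | square l₁ l₂ q =>
    rw [← List.append_assoc, ← List.append_assoc]
    exact Step.square _ _ _

theorem Step.append_right {l l' : List (X.cell 1 × Bool)} (a : List (X.cell 1 × Bool))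
    (h : X.Step l l') : X.Step (l ++ a) (l' ++ a) := by
  cases h with
  | backtrack l₁ l₂ x =>
    rw [List.append_assoc, List.append_assoc]
    exact Step.backtrack _ _ _
  | square l₁ l₂ q =>
    rw [List.append_assoc, List.append_assoc]
    exact Step.square _ _ _

/-- the class of a closed path -/
def cl {p : X.cell 0} (l : List (X.cell 1 × Bool)) (h : X.IsPath p l p) : X.π₁ p :=
  Quot.mk _ ⟨l, h⟩

theorem mk_eq_of_step {p : X.cell 0} {l l' : List (X.cell 1 × Bool)} (h : X.IsPath p l p)
    (h' : X.IsPath p l' p) (hs : X.Step l l') : cl l h = cl l' h' :=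
  Quot.sound hs

theorem π₁_ind {p : X.cell 0} {P : X.π₁ p → Prop}
    (h : ∀ l (hl : X.IsPath p l p), P (cl l hl)) (a : X.π₁ p) : P a := by
  induction a using Quot.ind with
  | mk a => exact h a.1 a.2

instance (p : X.cell 0) : Mul (X.π₁ p) :=
  ⟨Quot.map₂ (fun a b => ⟨a.1 ++ b.1, a.2.append b.2⟩) (fun a _ _ h => h.append_left a.1)
    (fun _ _ b h => h.append_right b.1)⟩

theorem mk_mul_mk {p : X.cell 0} {l l' : List (X.cell 1 × Bool)} (h : X.IsPath p l p)
    (h' : X.IsPath p l' p) : cl l h * cl l' h' = cl (l ++ l') (h.append h') := rfl

instance (p : X.cell 0) : One (X.π₁ p) := ⟨cl [] rfl⟩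

theorem one_def {p : X.cell 0} : (1 : X.π₁ p) = cl [] rfl := rfl

instance (p : X.cell 0) : Monoid (X.π₁ p) where
  mul_assoc a b c := by
    induction a using π₁_ind with | h l hl => ?_
    induction b using π₁_ind with | h m hm => ?_
    induction c using π₁_ind with | h n hn => ?_
    simp only [mk_mul_mk, List.append_assoc]
  one_mul a := by
    induction a using π₁_ind with | h l hl => ?_
    rfl
  mul_one a := by
    induction a using π₁_ind with | h l hl => ?_
    simp only [one_def, mk_mul_mk, List.append_nil]

/-- a path followed by its reverse is homotopic to the trivial path, inside a closed path -/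
theorem mk_cancel {p q r : X.cell 0} {a l b : List (X.cell 1 × Bool)} (ha : X.IsPath p a q)
    (hl : X.IsPath q l r) (hb : X.IsPath q b p) :
    cl (a ++ (l ++ (rev l ++ b))) (ha.append (hl.append (hl.rev.append hb))) =
      cl (a ++ b) (ha.append hb) := by
  induction l generalizing a b q with
  | nil => rfl
  | cons x l ih =>
    have h1 : X.IsPath p (a ++ [x]) (X.face 0 (!x.2) x.1) := ha.append ⟨hl.1, rfl⟩
    have h2 : X.IsPath (X.face 0 (!x.2) x.1) ((x.1, !x.2) :: b) p := by
      refine ⟨rfl, ?_⟩
      show X.IsPath (X.face 0 (!!x.2) x.1) b p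
      rw [Bool.not_not, hl.1]
      exact hb
    have h3 := ih h1 hl.2 h2
    have e1 : a ++ (x :: l ++ (rev (x :: l) ++ b)) =
        (a ++ [x]) ++ (l ++ (rev l ++ (x.1, !x.2) :: b)) := by
      simp [rev_cons]
    have e2 : (a ++ [x]) ++ ((x.1, !x.2) :: b) = a ++ x :: (x.1, !x.2) :: b := by simp
    calc cl (a ++ (x :: l ++ (rev (x :: l) ++ b))) _
        = cl ((a ++ [x]) ++ (l ++ (rev l ++ (x.1, !x.2) :: b)))
            (h1.append (hl.2.append (hl.2.rev.append h2))) := by congr 1
      _ = cl ((a ++ [x]) ++ ((x.1, !x.2) :: b)) (h1.append h2) := h3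
      _ = cl (a ++ b) (ha.append hb) := by
          apply mk_eq_of_step
          rw [e2]
          exact Step.backtrack _ _ _

theorem mk_mul_rev {p : X.cell 0} {l : List (X.cell 1 × Bool)} (h : X.IsPath p l p) :
    cl l h * cl (rev l) h.rev = 1 := by
  have := mk_cancel (a := []) (b := []) (rfl : X.IsPath p [] p) h rfl
  simpa [mk_mul_mk, one_def] using this

theorem mk_rev_mul {p : X.cell 0} {l : List (X.cell 1 × Bool)} (h : X.IsPath p l p) :
    cl (rev l) h.rev * cl l h = 1 := by
  have := mk_mul_rev h.rev
  simpa [rev_rev] using this

instance (p : X.cell 0) : Inv (X.π₁ p) :=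
  ⟨Quot.lift (fun a => cl (rev a.1) a.2.rev) (by
    intro a b h
    have h1 : cl a.1 a.2 = cl b.1 b.2 := Quot.sound h
    calc cl (rev a.1) a.2.rev = cl (rev a.1) a.2.rev * (cl b.1 b.2 * cl (rev b.1) b.2.rev) := by
          rw [mk_mul_rev, mul_one]
      _ = cl (rev a.1) a.2.rev * cl a.1 a.2 * cl (rev b.1) b.2.rev := by
          rw [h1, mul_assoc]
      _ = cl (rev b.1) b.2.rev := by rw [mk_rev_mul, one_mul])⟩

theorem inv_mk {p : X.cell 0} {l : List (X.cell 1 × Bool)} (h : X.IsPath p l p) :
    (cl l h)⁻¹ = cl (rev l) h.rev := rfl

/-- the group structure of the fundamental group: `cl l * cl l' = cl (l ++ l')` -/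
instance (p : X.cell 0) : Group (X.π₁ p) where
  inv_mul_cancel a := by
    induction a using π₁_ind with | h l hl => ?_
    rw [inv_mk, mk_rev_mul]

end CubeComplex

end Pool.Agent.Lib.MP_944c19_al
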