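import Pool.Agent.Lib.MP_944c19_al.Label

/-!
# The explicit cube complex
-/

set_option autoImplicit false

namespace Pool.Agent.Lib.MP_944c19_al

/-- The block of a label: the labels `0`; `1, 2`; `3, 4, 5` are in the blocks `0`, `1`, `2`.
(The labels `6, 7, 8` are the tubes, the label `9` is the central direction.) -/
def lblk : Fin 10 → Fin 3 := ![0, 1, 1, 2, 2, 2, 0, 0, 0, 0]

/-- The labels of the edges issuing from the vertex `p`. -/
def lout (p : Fin 3) (a : Fin 10) : Bool :=
  if a.val < 6 then lblk a == p || lblk a == p + 1 else
    if a.val = 9 then true else a.val == p.val + 6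

/-- The end of the edge labelled `a` issuing from `p`. -/
def lmove (p : Fin 3) (a : Fin 10) : Fin 3 :=
  if 6 ≤ a.val ∧ a.val < 9 then p + 1 else p

/-- Labels of edges which span squares. -/
def lcross (a b : Fin 10) : Bool :=
  a ≠ b && (a.val == 9 || b.val == 9 || (decide (a.val < 6) && decide (b.val < 6)) ||
    (decide (a.val < 6) && b.val == (lblk a + 2).val + 6) ||
    (decide (b.val < 6) && a.val == (lblk b + 2).val + 6))

/-- The labelled graph with three vertices `0, 1, 2`. At the vertex `p` there are loops with the
labels of the blocks `p` and `p + 1` and a loop labelled `9`; the edge from `p` to `p + 1` is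
labelled `p + 6`, it spans squares with the loops of block `p + 1` and with the loop `9`. -/
def theData : LabelData where
  P := Fin 3
  L := Fin 10
  out p a := lout p a
  move := lmove
  cross a b := lcross a b
  cross_symm := by decide
  cross_irrefl := by decide
  move_inj := by decide
  sq_oo := by decide
  sq_io := by decide
  sq_ii := by decide

end Pool.Agent.Lib.MP_944c19_al
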