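import Pool.Agent.Lib.MP_944c19_al.Support

/-!
# Graph products of finite groups: growth of powers and centralisers
-/

set_option autoImplicit false

namespace Pool.Agent.Lib.MP_944c19_al

open Monoid Function

universe u v

namespace GraphProduct

variable {V : Type u} {Γ : SimpleGraph V} {G : V → Type v} [∀ x, Group (G x)]

theorem finite_par [∀ x, Finite (G x)] {Y : Set V} (hY : Y.Finite)
    (hcl : ∀ x ∈ Y, ∀ y ∈ Y, x ≠ y → Γ.Adj x y) :
    ((par Y : Subgroup (GraphProduct Γ G)) : Set (GraphProduct Γ G)).Finite := by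
  induction Y, hY using Set.Finite.induction_on with
  | empty =>
    apply (Set.finite_singleton (1 : GraphProduct Γ G)).subset
    intro g hg
    exact par_empty hg
  | @insert x Y hxY _ ih =>
    have ih' := ih (fun a ha b hb => hcl a (Set.mem_insert_of_mem _ ha) b
      (Set.mem_insert_of_mem _ hb))
    have h1 : (Set.range (ι x : G x →* GraphProduct Γ G)).Finite := Set.finite_range _
    refine (h1.image2 (· * ·) ih').subset ?_
    intro c hc
    have hc' : c ∈ par ({x} ∪ Y) := hc
    have h2 : ∀ a ∈ ({x} : Set V), ∀ y ∈ Y, Γ.Adj a y := by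
      rintro a rfl y hy
      exact hcl a (Set.mem_insert _ _) y (Set.mem_insert_of_mem _ hy) (by rintro rfl; exact hxY hy)
    have h3 := eq_retr_mul_retr h2 hc'
    obtain ⟨a, ha⟩ := par_singleton (retr_mem {x} c)
    refine ⟨retr {x} c, ⟨a, ha.symm⟩, retr Y c, retr_mem Y c, h3.symm⟩

theorem finite_cone [∀ x, Finite (G x)] {Y : Set V} (hY : Y.Finite) :
    ((par (cone Γ Y) : Subgroup (GraphProduct Γ G)) : Set (GraphProduct Γ G)).Finite := by
  apply finite_par (hY.subset fun x hx => hx.1)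
  intro x hx y hy hxy
  exact hx.2 y hy.1 hxy.symm

/-- every power of an element of infinite order is undistorted -/
theorem exists_growth [∀ x, Finite (G x)] {z : GraphProduct Γ G} (hz : ∀ n : ℕ, 0 < n → z ^ n ≠ 1)
    {S : Set (GraphProduct Γ G)} (hS : S.Finite) :
    ∃ δ : ℝ, 0 < δ ∧ ∀ (n : ℕ) (l : List (GraphProduct Γ G)), (∀ x ∈ l, x ∈ S ∨ x⁻¹ ∈ S) →
      l.prod = z ^ n → δ * n ≤ l.length := by
  obtain ⟨Y, g, hY, hfull⟩ := exists_full z
  -- a vertex outside the cone
  obtain ⟨t, ht, s, hs, hst, hadj⟩ : ∃ t ∈ Y, ∃ s ∈ Y, s ≠ t ∧ ¬ Γ.Adj t s := by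
    by_contra hcon
    push Not at hcon
    have hfin := finite_par (G := G) hY (fun x hx y hy hxy => hcon x hx y hy hxy.symm)
    have hz' : g * z * g⁻¹ ∈ par Y := hfull.1
    have : Finite (par Y : Subgroup (GraphProduct Γ G)) := hfin
    have h1 : IsOfFinOrder (⟨g * z * g⁻¹, hz'⟩ : (par Y : Subgroup (GraphProduct Γ G))) :=
      isOfFinOrder_of_finite _
    obtain ⟨n, hn, hn'⟩ := isOfFinOrder_iff_pow_eq_one.mp h1
    have h2 := congrArg Subtype.val hn'
    simp only [SubmonoidClass.coe_pow, OneMemClass.coe_one, conj_pow] at h2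
    apply hz n hn
    have h3 : z ^ n = g⁻¹ * (g * z ^ n * g⁻¹) * g := by group
    rw [h3, h2]
    group
  have hconj : ∀ u, u * z * u⁻¹ = (u * g⁻¹) * (g * z * g⁻¹) * (u * g⁻¹)⁻¹ := by
    intro u
    group
  obtain ⟨⟨c, hc⟩, -⟩ := hyp_of_not_conj t (z := z)
    (fun u => by rw [hconj]; exact hfull.not_mem ht (by simp) _)
    (fun u => by
      rw [hconj]
      exact hfull.not_mem hs (by
        rintro (h' | h')
        · exact hst h'
        · exact hadj h') _)
  obtain ⟨M, hM⟩ : ∃ M : ℕ, ∀ x ∈ S, lenv Γ G t x ≤ M := by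
    obtain ⟨M, hM⟩ := (hS.image (lenv Γ G t)).bddAbove
    exact ⟨M, fun x hx => hM ⟨x, hx, rfl⟩⟩
  have hlist : ∀ l : List (GraphProduct Γ G), (∀ x ∈ l, x ∈ S ∨ x⁻¹ ∈ S) →
      lenv Γ G t l.prod ≤ M * l.length := by
    intro l
    induction l with
    | nil => intro _; simp [lenv_one]
    | cons x l ih =>
      intro hl
      have h1 : lenv Γ G t x ≤ M := by
        rcases hl x (by simp) with h | h
        · exact hM x h
        · rw [← lenv_inv]; exact hM _ h
      have h2 := ih (fun y hy => hl y (by simp [hy]))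
      rw [List.prod_cons, List.length_cons]
      have h3 := lenv_mul_le t x l.prod
      nlinarith
  refine ⟨1 / (M + c + 1), by positivity, ?_⟩
  intro n l hl hprod
  have h1 := hlist l hl
  rw [hprod] at h1
  have h2 := hc n
  have hpos : (0 : ℝ) < M + c + 1 := by positivity
  rw [div_mul_eq_mul_div, one_mul, div_le_iff₀ hpos]
  have h3 : n ≤ l.length * (M + c + 1) := by
    by_cases hn : n = 0
    · omega
    have hlen : 1 ≤ l.length := by
      by_contra hcon
      have : l = [] := by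
        rw [← List.length_eq_zero_iff]
        omega
      rw [this] at hprod
      exact hz n (Nat.pos_of_ne_zero hn) hprod.symm
    nlinarith
  exact_mod_cast h3

/-- elements of centralisers detected by homomorphisms to `ℤ` -/
theorem exists_finite_conj [∀ x, Finite (G x)] (z : GraphProduct Γ G)
    (Φ : Subgroup.centralizer {z} →* Multiplicative ℤ) (hΦ : Φ ≠ 1) :
    ∃ r : Subgroup.centralizer {z}, Φ r ≠ 1 ∧
      {x | ∃ c : Subgroup.centralizer {z}, x = c * r * c⁻¹}.Finite := by
  obtain ⟨Y, g, hY, hfull⟩ := exists_full z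
  set z' := g * z * g⁻¹ with hz'
  have hmem : ∀ c : GraphProduct Γ G, Commute c z' → g⁻¹ * c * g ∈ Subgroup.centralizer {z} := by
    intro c hc
    rw [Subgroup.mem_centralizer_singleton_iff]
    have h1 := hc.eq
    rw [hz'] at h1
    calc g⁻¹ * c * g * z = g⁻¹ * (c * (g * z * g⁻¹)) * g := by group
      _ = g⁻¹ * (g * z * g⁻¹ * c) * g := by rw [h1]
      _ = z * (g⁻¹ * c * g) := by group
  have hmem' : ∀ c ∈ Subgroup.centralizer {z}, Commute (g * c * g⁻¹) z' := by
    intro c hc
    rw [Subgroup.mem_centralizer_singleton_iff] at hc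
    rw [Commute, SemiconjBy, hz']
    calc g * c * g⁻¹ * (g * z * g⁻¹) = g * (c * z) * g⁻¹ := by group
      _ = g * (z * c) * g⁻¹ := by rw [hc]
      _ = _ := by group
  have hperp : ∀ w ∈ (par (perp Γ Y) : Subgroup (GraphProduct Γ G)), Commute w z' :=
    fun w hw => (par_comm perp_adj hfull.1 hw).symm
  -- `Φ` vanishes on the part in `par (perp Y)`
  have hzero : ∀ w (hw : w ∈ (par (perp Γ Y) : Subgroup (GraphProduct Γ G))),
      Φ ⟨g⁻¹ * w * g, hmem w (hperp w hw)⟩ = 1 := by
    let f : (par (perp Γ Y) : Subgroup (GraphProduct Γ G)) →* Subgroup.centralizer {z} :=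
      { toFun := fun w => ⟨g⁻¹ * w * g, hmem w (hperp w w.2)⟩
        map_one' := by apply Subtype.ext; simp
        map_mul' := by
          intro a b
          apply Subtype.ext
          simp only [Subgroup.coe_mul]
          group }
    have h1 : (par (perp Γ Y) : Subgroup (GraphProduct Γ G)) ≤
        ((Φ.comp f).ker).map (par (perp Γ Y)).subtype := by
      apply par_le
      intro x hx a
      rw [Subgroup.mem_map]
      refine ⟨⟨ι x a, ι_mem_par hx a⟩, ?_, rfl⟩
      rw [MonoidHom.mem_ker]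
      obtain ⟨n, hn, hn'⟩ := isOfFinOrder_iff_pow_eq_one.mp (isOfFinOrder_of_finite a)
      have h2 : ((Φ.comp f) ⟨ι x a, ι_mem_par hx a⟩) ^ n = 1 := by
        rw [← map_pow]
        have : (⟨ι x a, ι_mem_par hx a⟩ : (par (perp Γ Y) : Subgroup (GraphProduct Γ G))) ^ n
            = 1 := by
          apply Subtype.ext
          simp only [SubmonoidClass.coe_pow, OneMemClass.coe_one]
          rw [← map_pow, hn', map_one]
        rw [this, map_one]
      have h3 := congrArg Multiplicative.toAdd h2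
      rw [toAdd_pow, toAdd_one, smul_eq_zero] at h3
      rcases h3 with h3 | h3
      · omega
      · exact Multiplicative.toAdd.injective h3
    intro w hw
    obtain ⟨y, hy, hyw⟩ := Subgroup.mem_map.mp (h1 hw)
    have : y = ⟨w, hw⟩ := Subtype.ext hyw
    subst this
    exact hy
  -- decomposition
  have hdec : ∀ c : Subgroup.centralizer {z}, ∃ (a b : GraphProduct Γ G) (ha : Commute a z')
      (hb : b ∈ par (perp Γ Y)), a ∈ par Y ∧
      c = ⟨g⁻¹ * a * g, hmem a ha⟩ * ⟨g⁻¹ * b * g, hmem b (hperp b hb)⟩ := by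
    intro c
    have h1 := hmem' c c.2
    have h2 := eq_retr_mul_retr perp_adj (hfull.mem_of_commute h1)
    obtain ⟨c, hc⟩ := c
    refine ⟨retr Y (g * c * g⁻¹), retr (perp Γ Y) (g * c * g⁻¹), retr_commute hfull.1 h1,
      retr_mem _ _, retr_mem _ _, ?_⟩
    apply Subtype.ext
    rw [Subgroup.coe_mul]
    calc c = g⁻¹ * (g * c * g⁻¹) * g := by group
      _ = g⁻¹ * (retr Y (g * c * g⁻¹) * retr (perp Γ Y) (g * c * g⁻¹)) * g := by rw [← h2]
      _ = _ := by group
  obtain ⟨c, hc⟩ : ∃ c, Φ c ≠ 1 := by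
    by_contra hcon
    push Not at hcon
    exact hΦ (MonoidHom.ext hcon)
  obtain ⟨r, b, hr, hb, hrY, hcr⟩ := hdec c
  refine ⟨⟨g⁻¹ * r * g, hmem r hr⟩, ?_, ?_⟩
  · rw [hcr, map_mul, hzero b hb, mul_one] at hc
    exact hc
  · have hfin := finite_cone (G := G) (Γ := Γ) hY
    have hfin2 : ((fun p : GraphProduct Γ G => g⁻¹ * (p * r) * g) ''
        ((par (cone Γ Y) : Subgroup (GraphProduct Γ G)) : Set (GraphProduct Γ G))).Finite :=
      hfin.image _
    refine (hfin2.preimage (f := Subtype.val) Subtype.val_injective.injOn).subset ?_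
    rintro _ ⟨d, rfl⟩
    obtain ⟨a', b', ha', hb', haY', hd⟩ := hdec d
    rw [Set.mem_preimage]
    refine ⟨a' * r * a'⁻¹ * r⁻¹, hfull.commutator_mem hY haY' hrY ha' hr, ?_⟩
    have h3 : b' * r = r * b' := (par_comm perp_adj hrY hb').symm
    rw [hd]
    simp only [Subgroup.coe_mul, Subgroup.coe_inv, mul_inv_rev]
    calc g⁻¹ * (a' * r * a'⁻¹ * r⁻¹ * r) * g = g⁻¹ * a' * (r * b') * b'⁻¹ * a'⁻¹ * g := by group
      _ = g⁻¹ * a' * (b' * r) * b'⁻¹ * a'⁻¹ * g := by rw [h3]
      _ = _ := by group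

end GraphProduct

end Pool.Agent.Lib.MP_944c19_al
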