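import Pool.Agent.Lib.MP_944c19_al.GPDef

/-!
# Graph products of groups
-/

set_option autoImplicit false

namespace Pool.Agent.Lib.MP_944c19_al

open Monoid Function

universe u v w

namespace GraphProduct

variable {V : Type u} {Γ : SimpleGraph V} {G : V → Type v} [∀ x, Group (G x)]

/-- the map of a vertex group into the graph product -/
def ι (x : V) : G x →* GraphProduct Γ G :=
  (QuotientGroup.mk' _).comp CoprodI.of

theorem ι_comm {x y : V} (h : Γ.Adj x y) (a : G x) (b : G y) :
    (ι x a : GraphProduct Γ G) * ι y b = ι y b * ι x a := by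
  have : (ι x a : GraphProduct Γ G) * ι y b * (ι x a)⁻¹ * (ι y b)⁻¹ = 1 := by
    have h1 : CoprodI.of a * CoprodI.of b * (CoprodI.of a)⁻¹ * (CoprodI.of b)⁻¹ ∈
        Subgroup.normalClosure (adjCommutators Γ G) :=
      Subgroup.subset_normalClosure ⟨x, y, a, b, h, rfl⟩
    have h2 := (QuotientGroup.eq_one_iff _).mpr h1
    exact h2
  calc (ι x a : GraphProduct Γ G) * ι y b
      = (ι x a * ι y b * (ι x a)⁻¹ * (ι y b)⁻¹) * (ι y b * ι x a) := by group
    _ = ι y b * ι x a := by rw [this, one_mul]

/-- the universal property -/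
def lift {K : Type w} [Group K] (f : ∀ x, G x →* K)
    (hf : ∀ x y, Γ.Adj x y → ∀ (a : G x) (b : G y), f x a * f y b = f y b * f x a) :
    GraphProduct Γ G →* K :=
  QuotientGroup.lift _ (CoprodI.lift f) (by
    intro g hg
    have : Subgroup.normalClosure (adjCommutators Γ G) ≤ (CoprodI.lift f).ker := by
      apply Subgroup.normalClosure_le_normal
      rintro _ ⟨x, y, a, b, h, rfl⟩
      rw [SetLike.mem_coe, MonoidHom.mem_ker]
      simp only [map_mul, map_inv, CoprodI.lift_of]
      rw [hf x y h a b]
      group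
    exact this hg)

@[simp] theorem lift_ι {K : Type w} [Group K] (f : ∀ x, G x →* K)
    (hf : ∀ x y, Γ.Adj x y → ∀ (a : G x) (b : G y), f x a * f y b = f y b * f x a)
    (x : V) (a : G x) : lift f hf (ι x a) = f x a := by
  have : lift f hf (ι x a) = CoprodI.lift f (CoprodI.of a) := rfl
  rw [this, CoprodI.lift_of]

theorem induction_on {p : GraphProduct Γ G → Prop} (g : GraphProduct Γ G) (one : p 1)
    (of : ∀ x (a : G x), p (ι x a)) (mul : ∀ a b, p a → p b → p (a * b)) : p g := by
  obtain ⟨g, rfl⟩ := QuotientGroup.mk_surjective g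
  induction g using CoprodI.induction_on with
  | one => exact one
  | of x a => exact of x a
  | mul a b ha hb => exact mul _ _ ha hb

theorem hom_ext {K : Type w} [Group K] {f g : GraphProduct Γ G →* K}
    (h : ∀ x (a : G x), f (ι x a) = g (ι x a)) : f = g := by
  ext x
  induction x using induction_on with
  | one => simp
  | of x a => exact h x a
  | mul a b ha hb => rw [map_mul, map_mul, ha, hb]

/-- the standard parabolic subgroup of a set of vertices -/
def par (X : Set V) : Subgroup (GraphProduct Γ G) :=
  Subgroup.closure {g | ∃ x ∈ X, ∃ a : G x, g = ι x a}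

theorem ι_mem_par {X : Set V} {x : V} (hx : x ∈ X) (a : G x) :
    (ι x a : GraphProduct Γ G) ∈ par X :=
  Subgroup.subset_closure ⟨x, hx, a, rfl⟩

theorem par_le {X : Set V} {K : Subgroup (GraphProduct Γ G)}
    (h : ∀ x ∈ X, ∀ a : G x, ι x a ∈ K) : par X ≤ K := by
  rw [par, Subgroup.closure_le]
  rintro _ ⟨x, hx, a, rfl⟩
  exact h x hx a

theorem par_mono {X Y : Set V} (h : X ⊆ Y) : (par X : Subgroup (GraphProduct Γ G)) ≤ par Y :=
  par_le fun _ hx a => ι_mem_par (h hx) a

theorem par_univ : (par Set.univ : Subgroup (GraphProduct Γ G)) = ⊤ := by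
  rw [eq_top_iff]
  intro g _
  induction g using induction_on with
  | one => exact one_mem _
  | of x a => exact ι_mem_par (Set.mem_univ x) a
  | mul a b ha hb => exact mul_mem (ha trivial) (hb trivial)

theorem par_comm {X Y : Set V} (h : ∀ x ∈ X, ∀ y ∈ Y, Γ.Adj x y) {a b : GraphProduct Γ G}
    (ha : a ∈ par X) (hb : b ∈ par Y) : a * b = b * a := by
  have h1 : (par X : Subgroup (GraphProduct Γ G)) ≤
      Subgroup.centralizer ((par Y : Subgroup (GraphProduct Γ G)) : Set (GraphProduct Γ G)) := by
    apply par_le
    intro x hx a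
    rw [Subgroup.mem_centralizer_iff]
    intro b hb
    have h2 : (par Y : Subgroup (GraphProduct Γ G)) ≤
        Subgroup.centralizer {(ι x a : GraphProduct Γ G)} := by
      apply par_le
      intro y hy b
      rw [Subgroup.mem_centralizer_iff]
      rintro _ rfl
      exact ι_comm (h x hx y hy) a b
    have := Subgroup.mem_centralizer_iff.mp (h2 hb) _ rfl
    exact this.symm
  exact (Subgroup.mem_centralizer_iff.mp (h1 ha) b hb).symm

open Classical in
/-- the retraction onto a standard parabolic subgroup -/
noncomputable def retr (X : Set V) : GraphProduct Γ G →* GraphProduct Γ G :=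
  lift (fun x => if x ∈ X then ι x else 1) (by
    intro x y h a b
    split_ifs <;> simp [ι_comm h])

theorem retr_ι_mem {X : Set V} {x : V} (hx : x ∈ X) (a : G x) :
    retr X (ι x a : GraphProduct Γ G) = ι x a := by
  simp [retr, hx]

theorem retr_ι_not_mem {X : Set V} {x : V} (hx : x ∉ X) (a : G x) :
    retr X (ι x a : GraphProduct Γ G) = 1 := by
  simp [retr, hx]

theorem retr_par {X Y : Set V} {g : GraphProduct Γ G} (hg : g ∈ par Y) :
    retr X g ∈ par (Y ∩ X) := by
  have : par Y ≤ (par (Y ∩ X)).comap (retr X : GraphProduct Γ G →* GraphProduct Γ G) := by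
    apply par_le
    intro x hx a
    rw [Subgroup.mem_comap]
    by_cases h : x ∈ X
    · rw [retr_ι_mem h]; exact ι_mem_par (Set.mem_inter hx h) a
    · rw [retr_ι_not_mem h]; exact one_mem _
  exact this hg

theorem retr_mem (X : Set V) (g : GraphProduct Γ G) : retr X g ∈ par X := by
  have : g ∈ (par Set.univ : Subgroup (GraphProduct Γ G)) := by rw [par_univ]; trivial
  have := retr_par (X := X) this
  rwa [Set.univ_inter] at this

theorem retr_of_mem {X : Set V} {g : GraphProduct Γ G} (hg : g ∈ par X) : retr X g = g := by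
  have : par X ≤ (retr X : GraphProduct Γ G →* GraphProduct Γ G).eqLocus (MonoidHom.id _) := by
    apply par_le
    intro x hx a
    exact retr_ι_mem hx a
  exact this hg

theorem par_inter {X Y : Set V} {g : GraphProduct Γ G} (h1 : g ∈ par X) (h2 : g ∈ par Y) :
    g ∈ par (X ∩ Y) := by
  have := retr_par (X := Y) h1
  rwa [retr_of_mem h2] at this

theorem exists_finite (g : GraphProduct Γ G) : ∃ X : Set V, X.Finite ∧ g ∈ par X := by
  induction g using induction_on with
  | one => exact ⟨∅, Set.finite_empty, one_mem _⟩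
  | of x a => exact ⟨{x}, Set.finite_singleton x, ι_mem_par (Set.mem_singleton x) a⟩
  | mul a b ha hb =>
    obtain ⟨X, hX, haX⟩ := ha
    obtain ⟨Y, hY, hbY⟩ := hb
    exact ⟨X ∪ Y, hX.union hY, mul_mem (par_mono Set.subset_union_left haX)
      (par_mono Set.subset_union_right hbY)⟩

theorem par_empty {g : GraphProduct Γ G} (h : g ∈ par (∅ : Set V)) : g = 1 := by
  have : (par (∅ : Set V) : Subgroup (GraphProduct Γ G)) ≤ ⊥ := by
    apply par_le
    intro x hx
    exact absurd hx (Set.notMem_empty x)
  exact this h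

open Classical in
/-- the projection to a vertex group -/
noncomputable def proj (x : V) : GraphProduct Γ G →* G x :=
  lift (fun y => if h : y = x then h ▸ MonoidHom.id (G y) else 1) (by
    intro y z hyz a b
    by_cases h1 : y = x
    · have h2 : z ≠ x := by rintro rfl; exact hyz.ne h1
      simp [h2]
    · simp [h1])

theorem proj_ι (x : V) (a : G x) : proj x (ι x a : GraphProduct Γ G) = a := by
  simp [proj]

theorem proj_ι_ne {x y : V} (h : y ≠ x) (a : G y) : proj x (ι y a : GraphProduct Γ G) = 1 := by
  simp [proj, h]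

theorem ι_injective (x : V) : Injective (ι x : G x →* GraphProduct Γ G) := by
  intro a b h
  have := congrArg (proj x) h
  rwa [proj_ι, proj_ι] at this

end GraphProduct

end Pool.Agent.Lib.MP_944c19_al
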