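import Mathlib

/-!
# Graph products of groups (definition)
-/

set_option autoImplicit false

namespace Pool.Agent.Lib.MP_944c19_al

open Monoid

universe u v

/-- The commutators `a b a⁻¹ b⁻¹` of elements `a`, `b` of vertex groups `G x`, `G y` with `x`, `y`
adjacent, in the free product of the vertex groups. -/
def adjCommutators {V : Type u} (Γ : SimpleGraph V) (G : V → Type v) [∀ x, Group (G x)] :
    Set (CoprodI G) :=
  {g | ∃ (x y : V) (a : G x) (b : G y), Γ.Adj x y ∧
    g = CoprodI.of a * CoprodI.of b * (CoprodI.of a)⁻¹ * (CoprodI.of b)⁻¹}

/-- The graph product of the groups `G x` over the simplicial graph `Γ`: the quotient of the free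
product of the vertex groups by the normal subgroup generated by the commutators of elements of
adjacent vertex groups. -/
def GraphProduct {V : Type u} (Γ : SimpleGraph V) (G : V → Type v) [∀ x, Group (G x)] :
    Type (max u v) :=
  CoprodI G ⧸ Subgroup.normalClosure (adjCommutators Γ G)

namespace GraphProduct

variable {V : Type u} {Γ : SimpleGraph V} {G : V → Type v} [∀ x, Group (G x)]

/-- the group structure of the quotient -/
instance : Group (GraphProduct Γ G) :=
  QuotientGroup.Quotient.group (Subgroup.normalClosure (adjCommutators Γ G))

end GraphProduct

end Pool.Agent.Lib.MP_944c19_al
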