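import Pool.Agent.Lib.MP_944c19_al.RAFacts

/-!
# Heights of elements with a nonabelian centraliser
-/

set_option autoImplicit false

namespace Pool.Agent.Lib.MP_944c19_al

open Monoid Function GraphProduct

/-- the elements of `Big` whose first component is in `RA` -/
def el (κ : RA) (i : Multiplicative ℤ) : Big := (⟨κ, 1⟩, i)

theorem el_mul (κ κ' : RA) (i i' : Multiplicative ℤ) : el κ i * el κ' i' = el (κ * κ') (i * i') := by
  unfold el
  apply Prod.ext
  · apply SemidirectProduct.ext
    · simp
    · simp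
  · simp

theorem el_inv (κ : RA) (i : Multiplicative ℤ) : (el κ i)⁻¹ = el κ⁻¹ i⁻¹ := by
  rw [inv_eq_iff_mul_eq_one, el_mul, mul_inv_cancel, mul_inv_cancel]
  rfl

theorem el_inj {κ κ' : RA} {i i' : Multiplicative ℤ} (h : el κ i = el κ' i') : κ = κ' ∧ i = i' := by
  unfold el at h
  have h1 := (Prod.ext_iff.mp h).1
  have h2 := (Prod.ext_iff.mp h).2
  exact ⟨(SemidirectProduct.ext_iff.mp h1).1, h2⟩

theorem el_one : el 1 1 = 1 := rfl

theorem el_pow (κ : RA) (i : Multiplicative ℤ) (n : ℕ) : (el κ i) ^ n = el (κ ^ n) (i ^ n) := by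
  induction n with
  | zero => simp [el_one]
  | succ n ih => rw [pow_succ, ih, el_mul, ← pow_succ, ← pow_succ]

theorem el_commute {κ κ' : RA} {i i' : Multiplicative ℤ} :
    Commute (el κ i) (el κ' i') ↔ Commute κ κ' := by
  constructor
  · intro h
    have := h.eq
    rw [el_mul, el_mul] at this
    exact (el_inj this).1
  · intro h
    rw [Commute, SemiconjBy, el_mul, el_mul, h.eq, mul_comm i]

/-- elements commuting with an element of `RA` which is not trivial -/
theorem exists_el_of_commute {κ : RA} (hκ : κ ≠ 1) {i : Multiplicative ℤ} {g : Big}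
    (h : Commute g (el κ i)) : ∃ α j, g = el α j ∧ Commute α κ := by
  obtain ⟨⟨α, p⟩, j⟩ := g
  have h1 := (Prod.ext_iff.mp h.eq).1
  have h2 := (SemidirectProduct.ext_iff.mp h1).1
  have h2' : α * shiftHom p.toAdd κ = κ * shiftHom 0 α := h2
  rw [shiftHom_zero, MonoidHom.id_apply] at h2'
  have hp : p = 1 := by
    by_contra hp
    have hp' : p.toAdd ≠ 0 := by
      intro h0
      exact hp (Multiplicative.toAdd.injective h0)
    apply hκ
    apply eq_one_of_conj_shift hp' (κ := α)
    rw [h2', mul_inv_cancel_right]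
  subst hp
  refine ⟨α, j, rfl, ?_⟩
  have : shiftHom (Multiplicative.toAdd (1 : Multiplicative ℤ)) κ = κ := by
    rw [toAdd_one, shiftHom_zero, MonoidHom.id_apply]
  rw [this] at h2'
  exact h2'

/-- `g` has height `k`: it is a conjugate of a nontrivial element of the block `k` times a power of
the central element -/
def Ht (g : Big) (k : ℤ) : Prop :=
  ∃ (x w : RA) (i : Multiplicative ℤ), w ∈ pr (block k) ∧ w ≠ 1 ∧ g = el (x * w * x⁻¹) i

theorem retr_block_conj {k l : ℤ} {x w : RA} (hw : w ∈ pr (block k)) (h : l ≠ k) :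
    retr (block l) (x * w * x⁻¹) = 1 := by
  have h1 := retr_par (X := block l) hw
  have h2 : block k ∩ block l = ∅ := by
    rw [Set.eq_empty_iff_forall_notMem]
    rintro t ⟨h3, h4⟩
    exact h ((h4 : blk t = l).symm.trans h3)
  rw [h2] at h1
  rw [map_mul, map_mul, par_empty h1, mul_one, map_inv, mul_inv_cancel]

theorem retr_block_conj_ne {k : ℤ} {x w : RA} (hw : w ∈ pr (block k)) (h : w ≠ 1) :
    retr (block k) (x * w * x⁻¹) ≠ 1 := by
  intro h1
  rw [map_mul, map_mul, retr_of_mem hw, map_inv] at h1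
  apply h
  have : w = (retr (block k) x)⁻¹ * (retr (block k) x * w * (retr (block k) x)⁻¹) *
    retr (block k) x := by group
  rw [this, h1]
  group

theorem Ht.unique {g : Big} {k l : ℤ} (hk : Ht g k) (hl : Ht g l) : k = l := by
  obtain ⟨x, w, i, hw, hw1, rfl⟩ := hk
  obtain ⟨x', w', i', hw', hw1', h⟩ := hl
  have h1 := (el_inj h).1
  by_contra hkl
  have h2 := retr_block_conj (x := x) hw (l := l) (Ne.symm hkl)
  rw [h1] at h2
  exact retr_block_conj_ne hw' hw1' h2

theorem Ht.commute {g h : Big} {k l : ℤ} (hg : Ht g k) (hh : Ht h l) (hgh : Commute h g) :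
    |l - k| ≤ 1 := by
  obtain ⟨x, w, i, hw, hw1, rfl⟩ := hg
  obtain ⟨x', w', i', hw', hw1', rfl⟩ := hh
  by_contra hcon
  push Not at hcon
  rw [el_commute] at hgh
  have h1 : Commute (x⁻¹ * (x' * w' * x'⁻¹) * x) w := by
    rw [Commute, SemiconjBy]
    calc x⁻¹ * (x' * w' * x'⁻¹) * x * w = x⁻¹ * ((x' * w' * x'⁻¹) * (x * w * x⁻¹)) * x := by group
      _ = x⁻¹ * ((x * w * x⁻¹) * (x' * w' * x'⁻¹)) * x := by rw [hgh.eq]
      _ = _ := by group
  have h2 := retr_eq_one_of_commute hcon hw hw1 h1
  have h3 : x⁻¹ * (x' * w' * x'⁻¹) * x = (x⁻¹ * x') * w' * (x⁻¹ * x')⁻¹ := by group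
  rw [h3] at h2
  exact retr_block_conj_ne hw' hw1' h2

/-- central elements -/
theorem commute_el_one (g : Big) (i : Multiplicative ℤ) : Commute g (el 1 i) := by
  obtain ⟨⟨α, p⟩, j⟩ := g
  rw [Commute, SemiconjBy]
  apply Prod.ext
  · apply SemidirectProduct.ext
    · simp [el]
    · simp [el]
  · simp [el, mul_comm]

/-- conjugation of elements of `RA` by arbitrary elements -/
theorem conj_el (g : Big) (κ : RA) (i : Multiplicative ℤ) :
    g * el κ i * g⁻¹ = el (g.1.left * shiftHom g.1.right.toAdd κ * g.1.left⁻¹) i := by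
  rw [mul_inv_eq_iff_eq_mul]
  obtain ⟨⟨α, p⟩, j⟩ := g
  apply Prod.ext
  · apply SemidirectProduct.ext
    · show α * shiftHom p.toAdd κ = α * shiftHom p.toAdd κ * α⁻¹ * shiftHom 0 α
      rw [shiftHom_zero, MonoidHom.id_apply]
      group
    · show p * 1 = 1 * p
      rw [one_mul, mul_one]
  · show j * i = i * j
    exact mul_comm _ _

theorem Ht.conj {g : Big} {k : ℤ} (h : Ht g k) (c : Big) :
    Ht (c * g * c⁻¹) (k + 3 * c.1.right.toAdd) := by
  obtain ⟨x, w, i, hw, hw1, rfl⟩ := h
  rw [conj_el]
  refine ⟨c.1.left * shiftHom c.1.right.toAdd x, shiftHom c.1.right.toAdd w, i, ?_, ?_, ?_⟩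
  · refine par_mono ?_ (shiftHom_par (k := c.1.right.toAdd) hw)
    intro y hy
    have hy' : blk (y - 6 * c.1.right.toAdd) = k := hy
    show blk y = _
    have := blk_add (y - 6 * c.1.right.toAdd) c.1.right.toAdd
    rw [sub_add_cancel] at this
    rw [this, hy']
  · intro h1
    apply hw1
    have h2 := DFunLike.congr_fun (shiftHom_comp (-c.1.right.toAdd) c.1.right.toAdd) w
    rw [neg_add_cancel, shiftHom_zero, MonoidHom.comp_apply, h1, map_one] at h2
    exact h2.symm
  · rw [map_mul, map_mul, map_inv]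
    congr 1
    group

/-- (F1) an element whose centraliser is not abelian and which is not central has a height -/
theorem exists_ht {g a b d : Big} (ha : Commute a g) (hb : Commute b g) (hab : ¬ Commute a b)
    (hd : ¬ Commute d g) : ∃ k, Ht g k := by
  obtain ⟨⟨κ, m⟩, i⟩ := g
  by_cases hm : m = 1
  · subst hm
    change Commute a (el κ i) at ha
    change Commute b (el κ i) at hb
    change ¬ Commute d (el κ i) at hd
    show ∃ k, Ht (el κ i) k
    have hκ : κ ≠ 1 := by
      rintro rfl
      exact hd (commute_el_one d i)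
    obtain ⟨α, j, rfl, hα⟩ := exists_el_of_commute hκ ha
    obtain ⟨β, j', rfl, hβ⟩ := exists_el_of_commute hκ hb
    rw [el_commute] at hab
    obtain ⟨Y, u, hY, hfull⟩ := exists_full κ
    have hne : Y.Nonempty := by
      rw [Set.nonempty_iff_ne_empty]
      rintro rfl
      have h1 := par_empty hfull.1
      apply hκ
      have : κ = u⁻¹ * (u * κ * u⁻¹) * u := by group
      rw [this, h1]
      group
    have hconj : ∀ γ : RA, Commute γ κ → Commute (u * γ * u⁻¹) (u * κ * u⁻¹) := by
      intro γ hγ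
      rw [Commute, SemiconjBy]
      calc u * γ * u⁻¹ * (u * κ * u⁻¹) = u * (γ * κ) * u⁻¹ := by group
        _ = u * (κ * γ) * u⁻¹ := by rw [hγ.eq]
        _ = _ := by group
    set α' := u * α * u⁻¹ with hα'
    set β' := u * β * u⁻¹ with hβ'
    have hα1 : Commute α' (u * κ * u⁻¹) := hconj α hα
    have hβ1 : Commute β' (u * κ * u⁻¹) := hconj β hβ
    have dα : α' = retr Y α' * retr (perp hub Y) α' :=
      eq_retr_mul_retr perp_adj (hfull.mem_of_commute hα1)
    have dβ : β' = retr Y β' * retr (perp hub Y) β' :=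
      eq_retr_mul_retr perp_adj (hfull.mem_of_commute hβ1)
    have hab' : ¬ Commute α' β' := by
      intro h1
      apply hab
      have h2 := h1.eq
      rw [Commute, SemiconjBy]
      calc α * β = u⁻¹ * (α' * β') * u := by rw [hα', hβ']; group
        _ = u⁻¹ * (β' * α') * u := by rw [h2]
        _ = β * α := by rw [hα', hβ']; group
    -- the components in `par Y` commute
    have hYcomm : Commute (retr Y α') (retr Y β') := by
      have h1 := hfull.commutator_mem hY (retr_mem Y α') (retr_mem Y β')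
        (retr_commute hfull.1 hα1) (retr_commute hfull.1 hβ1)
      have hcl : ∀ x ∈ cone hub Y, ∀ y ∈ cone hub Y, |blk x - blk y| ≤ 1 := by
        intro x hx y hy
        by_cases hxy : y = x
        · subst hxy; simp
        · exact (hx.2 y hy.1 hxy).2
      have h2 := retr_of_mem h1
      rw [map_mul, map_mul, map_mul, map_inv, map_inv] at h2
      have h3 := comm_of_clique hcl (retr_mem (cone hub Y) (retr Y α'))
        (retr_mem (cone hub Y) (retr Y β'))
      rw [h3] at h2
      have h4 : retr Y α' * retr Y β' * (retr Y α')⁻¹ * (retr Y β')⁻¹ = 1 := by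
        rw [← h2]
        group
      have h5 := congrArg (fun t => t * (retr Y β' * retr Y α')) h4
      simp only [one_mul] at h5
      rw [Commute, SemiconjBy, ← h5]
      group
    -- so `perp Y` is not a clique
    obtain ⟨p, hp, q, hq, hpq⟩ : ∃ p ∈ perp hub Y, ∃ q ∈ perp hub Y, ¬ |blk p - blk q| ≤ 1 := by
      by_contra hcon
      push Not at hcon
      have h1 := comm_of_clique hcon (retr_mem (perp hub Y) α') (retr_mem (perp hub Y) β')
      apply hab'
      rw [dα, dβ]
      have c1 : Commute (retr Y α') (retr (perp hub Y) β') :=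
        par_comm perp_adj (retr_mem _ _) (retr_mem _ _)
      have c2 : Commute (retr Y β') (retr (perp hub Y) α') :=
        par_comm perp_adj (retr_mem _ _) (retr_mem _ _)
      have c3 : Commute (retr (perp hub Y) α') (retr (perp hub Y) β') := h1
      exact (hYcomm.mul_right c1).mul_left (c2.symm.mul_right c3)
    obtain ⟨s0, hs0⟩ := hne
    have hall : ∀ s ∈ Y, blk s = blk s0 := by
      intro s hs
      have h1 := (hp.2 s hs).2
      have h2 := (hq.2 s hs).2
      have h3 := (hp.2 s0 hs0).2
      have h4 := (hq.2 s0 hs0).2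
      rw [abs_le] at h1 h2 h3 h4
      rw [not_le, lt_abs] at hpq
      omega
    refine ⟨blk s0, u⁻¹, u * κ * u⁻¹, i, par_mono (fun s hs => hall s hs) hfull.1, ?_, ?_⟩
    · intro h1
      apply hκ
      have : κ = u⁻¹ * (u * κ * u⁻¹) * u := by group
      rw [this, h1]
      group
    · congr 1
      group
  · exfalso
    apply hab
    -- the commutator is in `RA` and commutes with `g`
    have hm' : m.toAdd ≠ 0 := fun h0 => hm (Multiplicative.toAdd.injective h0)
    have hc : Commute (a * b * a⁻¹ * b⁻¹) (((⟨κ, m⟩ : KK), i) : Big) :=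
      ((ha.mul_left hb).mul_left ha.inv_left).mul_left hb.inv_left
    obtain ⟨γ, hγ⟩ : ∃ γ, a * b * a⁻¹ * b⁻¹ = el γ 1 := by
      refine ⟨(a * b * a⁻¹ * b⁻¹).1.left, ?_⟩
      apply Prod.ext
      · apply SemidirectProduct.ext
        · rfl
        · show (a.1 * b.1 * a.1⁻¹ * b.1⁻¹).right = 1
          simp only [SemidirectProduct.mul_right, SemidirectProduct.inv_right]
          rw [mul_comm a.1.right]
          group
      · show a.2 * b.2 * a.2⁻¹ * b.2⁻¹ = 1
        rw [mul_comm a.2]
        group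
    rw [hγ] at hc
    have h1 : (((⟨κ, m⟩ : KK), i) : Big) * el γ 1 * (((⟨κ, m⟩ : KK), i) : Big)⁻¹ = el γ 1 := by
      rw [← hc.eq, mul_inv_cancel_right]
    rw [conj_el] at h1
    have h2 := (el_inj h1).1
    have h3 := eq_one_of_conj_shift hm' h2
    rw [h3, el_one] at hγ
    have h5 := congrArg (fun t => t * (b * a)) hγ
    simp only [one_mul] at h5
    rw [Commute, SemiconjBy, ← h5]
    group

end Pool.Agent.Lib.MP_944c19_al
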