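import Pool.Agent.Lib.MP_944c19_al.Rank

/-!
# The height homomorphism of a group in which `Big` has finite index
-/

set_option autoImplicit false

namespace Pool.Agent.Lib.MP_944c19_al

open Monoid Function GraphProduct

section hub

variable {C : Type*} [Group C] {j : Big →* C} (hj : Injective j) {D : Subgroup Big} {n : ℕ}
  (hn : 0 < n) (hD : ∀ g : Big, g ^ n ∈ D)
  (hact : ∀ (c : C) (b : Big), b ∈ D → ∃ b' ∈ D, j b' = c * j b * c⁻¹)

/-- the generator of the infinite cyclic group -/
def uno : Multiplicative ℤ := Multiplicative.ofAdd 1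

/-- the test elements -/
noncomputable def gy (n : ℕ) (x : RA) (y : ℤ) : Big :=
  el (x * vx y (uno ^ n) * x⁻¹) 1

theorem uno_pow_ne_one {n : ℕ} (hn : 0 < n) : uno ^ n ≠ 1 := by
  intro h1
  have := congrArg Multiplicative.toAdd h1
  rw [uno, toAdd_pow, toAdd_ofAdd, toAdd_one] at this
  simp at this
  omega

include hD in
theorem gy_mem (x : RA) (y : ℤ) : gy n x y ∈ D := by
  have : gy n x y = (el (x * vx y uno * x⁻¹) 1) ^ n := by
    rw [gy, el_pow, conj_pow, ← map_pow (vx y), one_pow]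
  rw [this]
  exact hD _

include hn in
theorem gy_ht (x : RA) (y : ℤ) : Ht (gy n x y) (blk y) := by
  have hmem : y ∈ block (blk y) := rfl
  refine ⟨x, vx y (uno ^ n), 1, vx_mem hmem _, ?_, rfl⟩
  intro h
  exact uno_pow_ne_one hn (vx_injective y (by rw [h, map_one]))

/-- conjugation of commuting relations -/
theorem commute_conj_iff {G : Type*} [Group G] {x a b : G} :
    Commute (x * a * x⁻¹) (x * b * x⁻¹) ↔ Commute a b := by
  constructor
  · intro h
    have h1 := h.eq
    rw [Commute, SemiconjBy]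
    calc a * b = x⁻¹ * (x * a * x⁻¹ * (x * b * x⁻¹)) * x := by group
      _ = x⁻¹ * (x * b * x⁻¹ * (x * a * x⁻¹)) * x := by rw [h1]
      _ = b * a := by group
  · intro h
    rw [Commute, SemiconjBy]
    calc x * a * x⁻¹ * (x * b * x⁻¹) = x * (a * b) * x⁻¹ := by group
      _ = x * (b * a) * x⁻¹ := by rw [h.eq]
      _ = _ := by group

/-- elements with a nonabelian centraliser in `D` which are not central in `D` -/
def InU (D : Subgroup Big) (b : Big) : Prop :=
  (∃ p ∈ D, ∃ q ∈ D, Commute p b ∧ Commute q b ∧ ¬ Commute p q) ∧ ∃ d ∈ D, ¬ Commute d b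

theorem InU.exists_ht {b : Big} (h : InU D b) : ∃ k, Ht b k := by
  obtain ⟨⟨p, _, q, _, h1, h2, h3⟩, d, _, h4⟩ := h
  exact Pool.Agent.Lib.MP_944c19_al.exists_ht h1 h2 h3 h4

include hn hD in
theorem Ht.inU {b : Big} {k : ℤ} (h : Ht b k) : InU D b := by
  obtain ⟨x, w, i, hw, hw1, rfl⟩ := h
  have ha := uno_pow_ne_one hn
  have hcomm : ∀ y, |blk y - k| ≤ 1 → Commute (gy n x y) (el (x * w * x⁻¹) i) := by
    intro y hy
    rw [gy, el_commute, commute_conj_iff]
    apply comm_of_close (X := {y}) (Y := block k) _ (vx_mem (Set.mem_singleton y) _) hw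
    rintro _ rfl z hz
    rw [show blk z = k from hz]
    exact hy
  refine ⟨⟨gy n x (fst (k - 1)), gy_mem hD _ _, gy n x (fst (k + 1)), gy_mem hD _ _,
    hcomm _ (by rw [fst_mem]; simp), hcomm _ (by rw [fst_mem]; simp), ?_⟩,
    gy n x (fst (k + 2)), gy_mem hD _ _, ?_⟩
  · rw [gy, gy, el_commute, commute_conj_iff]
    intro h1
    have h2 := mem_star ha h1
    have h3 := pj_eq_one (y := fst (k - 1)) (by
      show ¬ |blk (fst (k - 1)) - blk (fst (k + 1))| ≤ 1
      rw [fst_mem, fst_mem, abs_le]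
      omega) h2
    rw [pj_vx] at h3
    exact ha h3
  · rw [gy, el_commute, commute_conj_iff]
    intro h1
    have h2 := mem_star ha h1.symm
    have h3 := par_inter hw h2
    have h4 : block k ∩ {s | |blk s - blk (fst (k + 2))| ≤ 1} = ∅ := by
      rw [Set.eq_empty_iff_forall_notMem]
      rintro t ⟨h5, h6⟩
      have h5' : blk t = k := h5
      have h6' : |blk t - blk (fst (k + 2))| ≤ 1 := h6
      rw [h5', fst_mem, abs_le] at h6'
      omega
    rw [h4] at h3
    exact hw1 (par_empty h3)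

include hj hact in
theorem InU.conj {b b' : Big} {c : C} (h : InU D b) (hb' : j b' = c * j b * c⁻¹) : InU D b' := by
  obtain ⟨⟨p, hp, q, hq, h1, h2, h3⟩, d, hd, h4⟩ := h
  obtain ⟨p', hp', hpc⟩ := hact c p hp
  obtain ⟨q', hq', hqc⟩ := hact c q hq
  obtain ⟨d', hd', hdc⟩ := hact c d hd
  have key : ∀ {u v u' v' : Big}, j u' = c * j u * c⁻¹ → j v' = c * j v * c⁻¹ →
      (Commute u' v' ↔ Commute u v) := by
    intro u v u' v' hu hv
    have e1 : Commute u' v' ↔ Commute (j u') (j v') := by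
      constructor
      · intro h; exact h.map j
      · intro h
        apply hj
        rw [map_mul, map_mul]
        exact h.eq
    have e2 : Commute u v ↔ Commute (j u) (j v) := by
      constructor
      · intro h; exact h.map j
      · intro h
        apply hj
        rw [map_mul, map_mul]
        exact h.eq
    rw [e1, e2, hu, hv, commute_conj_iff]
  exact ⟨⟨p', hp', q', hq', (key hpc hb').mpr h1, (key hqc hb').mpr h2,
    fun h => h3 ((key hpc hqc).mp h)⟩, d', hd', fun h => h4 ((key hdc hb').mp h)⟩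

include hj hact in
theorem Rk.conj {m : ℕ} {b b' : Big} {c : C} (h : Rk D m b) (hb' : j b' = c * j b * c⁻¹) :
    Rk D m b' := by
  obtain ⟨f, hf, hfD⟩ := h
  choose g hg hgj using fun v => hact c (f v) (hfD v).1
  refine ⟨MonoidHom.mk' g ?_, ?_, ?_⟩
  · intro v v'
    apply hj
    rw [map_mul, hgj, hgj, hgj, map_mul, map_mul]
    group
  · intro v v' hvv'
    have h1 : g v = g v' := hvv'
    apply hf
    apply hj
    have h2 := congrArg j h1
    rw [hgj, hgj] at h2
    exact mul_left_cancel (mul_right_cancel h2)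
  · intro v
    refine ⟨hg v, ?_⟩
    intro d hd hdb
    obtain ⟨d', hd', hdj⟩ := hact c⁻¹ d hd
    have h1 : Commute (j d) (j b') := hdb.map j
    have h2 : j d = c * j d' * c⁻¹ := by
      rw [hdj]
      group
    rw [hb', h2, commute_conj_iff] at h1
    have h3 : Commute d' b := by
      apply hj
      rw [map_mul, map_mul]
      exact h1.eq
    have h4 := (hfD v).2 d' hd' h3
    have h5 : Commute (j d) (j (g v)) := by
      rw [h2, hgj, commute_conj_iff]
      exact h4.map j
    apply hj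
    show j (d * g v) = j (g v * d)
    rw [map_mul, map_mul]
    exact h5.eq

include hj hn hD hact in
theorem ht_mod {b b' : Big} {c : C} {k k' : ℤ} (h : Ht b k) (h' : Ht b' k')
    (hb' : j b' = c * j b * c⁻¹) : k % 3 = k' % 3 := by
  have h1 := (h.rk hn hD).conj hj hact hb'
  have h2 := h'.le_of_rk hn hD h1
  have hb : j b = c⁻¹ * j b' * c⁻¹⁻¹ := by
    rw [hb']
    group
  have h3 := (h'.rk hn hD).conj hj hact hb
  have h4 := h.le_of_rk hn hD h3
  unfold sz at h2 h4
  omega

/-- conjugation by `c` raises the height of `b` by `d` -/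
def Sh (j : Big →* C) (c : C) (b : Big) (d : ℤ) : Prop :=
  ∃ (k : ℤ) (b' : Big), Ht b k ∧ j b' = c * j b * c⁻¹ ∧ Ht b' (k + d)

include hj in
theorem Sh.unique {c : C} {b : Big} {d d' : ℤ} (h : Sh j c b d) (h' : Sh j c b d') : d = d' := by
  obtain ⟨k, b1, h1, h2, h3⟩ := h
  obtain ⟨k', b1', h1', h2', h3'⟩ := h'
  have e1 := h1.unique h1'
  have e2 : b1 = b1' := hj (h2.trans h2'.symm)
  subst e2
  have e3 := h3.unique h3'
  omega

include hj hn hD hact in
theorem exists_sh (c : C) {b : Big} {k : ℤ} (hb : b ∈ D) (h : Ht b k) : ∃ d, Sh j c b d := by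
  obtain ⟨b', hb', hbj⟩ := hact c b hb
  obtain ⟨k', hk'⟩ := ((h.inU hn hD).conj hj hact hbj).exists_ht
  exact ⟨k' - k, k, b', h, hbj, by rwa [add_sub_cancel]⟩

include hj hn hD hact in
theorem Sh.of_commute {c : C} {b b₂ : Big} {d k₂ : ℤ} (h : Sh j c b d) (hb₂ : b₂ ∈ D)
    (hcomm : Commute b b₂) (hk₂ : Ht b₂ k₂) : Sh j c b₂ d := by
  obtain ⟨d₂, k2', b₂', h2, h2j, h2h⟩ := exists_sh hj hn hD hact c hb₂ hk₂
  obtain ⟨k, b', h1, h1j, h1h⟩ := h
  have m1 := ht_mod hj hn hD hact h1 h1h h1j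
  have m2 := ht_mod hj hn hD hact h2 h2h h2j
  have c1 := h1.commute h2 hcomm.symm
  have hcomm' : Commute b₂' b' := by
    apply hj
    rw [map_mul, map_mul, h1j, h2j]
    exact (commute_conj_iff.mpr (hcomm.symm.map j)).eq
  have c2 := h1h.commute h2h hcomm'
  rw [abs_le] at c1 c2
  have : d₂ = d := by omega
  subst this
  exact ⟨k2', b₂', h2, h2j, h2h⟩

include hj hn hD hact in
theorem Sh.gy_all {c : C} {x : RA} {y : ℤ} {d : ℤ} (h : Sh j c (gy n x y) d) (y' : ℤ) :
    Sh j c (gy n x y') d := by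
  have step : ∀ y y' : ℤ, |blk y - blk y'| ≤ 1 → Sh j c (gy n x y) d → Sh j c (gy n x y') d := by
    intro y y' hyy' h
    apply h.of_commute hj hn hD hact (gy_mem hD x y') _ (gy_ht hn x y')
    rw [gy, gy, el_commute, commute_conj_iff]
    exact vx_comm hyy' _ _
  have h0 : Sh j c (gy n x (fst (blk y))) d := step _ _ (by rw [fst_mem]; simp) h
  have hall : ∀ k : ℤ, Sh j c (gy n x (fst k)) d := by
    intro k
    induction k using Int.inductionOn' (b := blk y) with
    | zero => exact h0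
    | succ k _ ih => exact step _ _ (by rw [fst_mem, fst_mem]; simp) ih
    | pred k _ ih => exact step _ _ (by rw [fst_mem, fst_mem]; simp) ih
  exact step _ _ (by rw [fst_mem]; simp) (hall (blk y'))

include hj hn hD hact in
theorem Sh.gy_conj {c : C} {d : ℤ} (x x0 : RA) (h : ∀ y, Sh j c (gy n x0 y) d) :
    ∀ y, Sh j c (gy n (x0 * x) y) d := by
  induction x using GraphProduct.induction_on generalizing x0 with
  | one => simpa using h
  | of z b =>
    have h1 : Sh j c (gy n (x0 * vx z b) z) d := by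
      have h2 : gy n (x0 * vx z b) z = gy n x0 z := by
        unfold gy
        congr 1
        have h3 : vx z b * vx z (uno ^ n) * (vx z b)⁻¹ = vx z (uno ^ n) := by
          rw [← map_mul, mul_comm, map_mul, mul_inv_cancel_right]
        calc x0 * vx z b * vx z (uno ^ n) * (x0 * vx z b)⁻¹
            = x0 * (vx z b * vx z (uno ^ n) * (vx z b)⁻¹) * x0⁻¹ := by group
          _ = _ := by rw [h3]
      rw [h2]
      exact h z
    intro y
    exact h1.gy_all hj hn hD hact y
  | mul a b iha ihb =>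
    rw [← mul_assoc]
    exact ihb _ (iha _ h)

include hj hn hD hact in
theorem Sh.all {c : C} {d : ℤ} (h : Sh j c (gy n 1 0) d) {b : Big} {k : ℤ} (hb : b ∈ D)
    (hk : Ht b k) : Sh j c b d := by
  obtain ⟨x, w, i, hw, hw1, rfl⟩ := hk
  have h2 := Sh.gy_conj hj hn hD hact x 1 (h.gy_all hj hn hD hact) (fst k)
  rw [one_mul] at h2
  apply h2.of_commute hj hn hD hact hb _ ⟨x, w, i, hw, hw1, rfl⟩
  rw [gy, el_commute, commute_conj_iff]
  apply comm_of_close (X := {fst k}) (Y := block k) _ (vx_mem (Set.mem_singleton _) _) hw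
  rintro _ rfl z hz
  rw [show blk z = k from hz, fst_mem]
  simp

include hj hn hD hact in
/-- the height homomorphism -/
theorem exists_height_hom : ∃ Φ : C →* Multiplicative ℤ, Φ ≠ 1 ∧
    ∀ r : C, {x | ∃ c : C, x = c * r * c⁻¹}.Finite → Φ r = 1 := by
  have h0 : Ht (gy n 1 0) (blk 0) := gy_ht hn 1 0
  choose φ hφ using fun c => exists_sh hj hn hD hact c (gy_mem hD 1 0) h0
  have hmul : ∀ c c', φ (c * c') = φ c + φ c' := by
    intro c c'
    obtain ⟨k, b', h1, h2, h3⟩ := hφ c'
    obtain ⟨b1, hb1, hb1j⟩ := hact c' _ (gy_mem hD 1 0)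
    have hb' : b' = b1 := hj (h2.trans hb1j.symm)
    have hb'D : b' ∈ D := hb' ▸ hb1
    obtain ⟨k', b'', h4, h5, h6⟩ := (hφ c).all hj hn hD hact hb'D h3
    have e1 := h3.unique h4
    apply Sh.unique hj (hφ (c * c'))
    refine ⟨k, b'', h1, ?_, ?_⟩
    · rw [h5, h2]
      group
    · have : k + (φ c + φ c') = k' + φ c := by omega
      rw [this]
      exact h6
  refine ⟨MonoidHom.mk' (fun c => Multiplicative.ofAdd (φ c)) ?_, ?_, ?_⟩
  · intro c c'
    rw [hmul, ofAdd_add]
  · intro hcon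
    let t : Big := (⟨1, Multiplicative.ofAdd 1⟩, 1)
    have h1 : Sh j (j t) (gy n 1 0) 3 := by
      refine ⟨blk 0, t * gy n 1 0 * t⁻¹, h0, by rw [map_mul, map_mul, map_inv], ?_⟩
      have := h0.conj t
      simpa [t] using this
    have h2 := Sh.unique hj h1 (hφ (j t))
    have h3 := DFunLike.congr_fun hcon (j t)
    have h4 : Multiplicative.ofAdd (φ (j t)) = 1 := h3
    rw [← h2] at h4
    have h5 := congrArg Multiplicative.toAdd h4
    simp at h5
  · intro r hr
    -- a power of the test element commutes with `r`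
    generalize hu : j (gy n 1 0) = u at *
    obtain ⟨s, s', hss', heq⟩ : ∃ s s' : ℕ, s < s' ∧ u ^ s * r * (u ^ s)⁻¹
        = u ^ s' * r * (u ^ s')⁻¹ := by
      have hmem : ∀ s : ℕ, u ^ s * r * (u ^ s)⁻¹ ∈ {x | ∃ c : C, x = c * r * c⁻¹} :=
        fun s => ⟨u ^ s, rfl⟩
      obtain ⟨s, s', hlt, h⟩ := hr.exists_lt_map_eq_of_forall_mem hmem
      exact ⟨s, s', hlt, h⟩
    obtain ⟨e, rfl⟩ := Nat.exists_eq_add_of_lt hss'
    have he : 0 < e + 1 := Nat.succ_pos _
    have hcomm : r * u ^ (e + 1) * r⁻¹ = u ^ (e + 1) := by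
      have h1 : r = u ^ (e + 1) * r * (u ^ (e + 1))⁻¹ := by
        calc r = (u ^ s)⁻¹ * (u ^ s * r * (u ^ s)⁻¹) * u ^ s := by group
          _ = (u ^ s)⁻¹ * (u ^ (s + e + 1) * r * (u ^ (s + e + 1))⁻¹) * u ^ s := by rw [heq]
          _ = _ := by
            rw [show s + e + 1 = s + (e + 1) by ring, pow_add]
            group
      calc r * u ^ (e + 1) * r⁻¹ = (u ^ (e + 1) * r * (u ^ (e + 1))⁻¹) * u ^ (e + 1) * r⁻¹ := by
            rw [← h1]
        _ = u ^ (e + 1) := by group
    have hpow : (gy n 1 0) ^ (e + 1) ∈ D := pow_mem (gy_mem hD 1 0) _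
    have hht : Ht ((gy n 1 0) ^ (e + 1)) (blk 0) := by
      have hmem : (0 : ℤ) ∈ block (blk 0) := rfl
      refine ⟨1, vx 0 ((uno ^ n) ^ (e + 1)), 1, vx_mem hmem _, ?_, ?_⟩
      · intro h
        have h1 := vx_injective 0 (h.trans (map_one _).symm)
        rw [← pow_mul] at h1
        exact uno_pow_ne_one (Nat.mul_pos hn he) h1
      · rw [gy, el_pow, conj_pow, ← map_pow (vx 0), one_pow]
    obtain ⟨k, b', h1, h2, h3⟩ := (hφ r).all hj hn hD hact hpow hht
    have h4 : b' = (gy n 1 0) ^ (e + 1) := by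
      apply hj
      rw [h2, map_pow, hu, hcomm]
    rw [h4] at h3
    have h5 := h1.unique h3
    show Multiplicative.ofAdd (φ r) = 1
    have h6 : φ r = 0 := by omega
    rw [h6, ofAdd_zero]

end hub

/-- if `Big` embeds with finite index in `C`, then `C` has a homomorphism to `ℤ` which vanishes on
all elements with finitely many conjugates, but not everywhere -/
theorem exists_hom_of_finiteIndex {C : Type*} [Group C] (j : Big →* C) (hj : Injective j)
    (hfin : j.range.FiniteIndex) : ∃ Φ : C →* Multiplicative ℤ, Φ ≠ 1 ∧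
    ∀ r : C, {x | ∃ c : C, x = c * r * c⁻¹}.Finite → Φ r = 1 := by
  set N := j.range.normalCore with hN
  have hNfin : N.FiniteIndex := inferInstance
  have hNle : N ≤ j.range := Subgroup.normalCore_le _
  have hNn : N.Normal := inferInstance
  refine exists_height_hom (D := N.comap j) (n := N.index) hj
    (Nat.pos_of_ne_zero hNfin.index_ne_zero) ?_ ?_
  · intro g
    rw [Subgroup.mem_comap, map_pow]
    exact N.pow_index_mem _
  · intro c b hb
    have h1 : c * j b * c⁻¹ ∈ N := hNn.conj_mem _ hb c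
    obtain ⟨b', hb'⟩ := hNle h1
    refine ⟨b', ?_, hb'⟩
    rw [Subgroup.mem_comap, hb']
    exact h1

end Pool.Agent.Lib.MP_944c19_al
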