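import Pool.Agent.Lib.MP_944c19_al.Amalgam

/-!
# Commutators of elements commuting with a hyperbolic element
-/

set_option autoImplicit false

namespace Pool.Agent.Lib.MP_944c19_al

section abstract_len

variable {Γ : Type*} [Group Γ] (L : Γ → ℕ)

/-- a length function satisfying the four point condition -/
structure IsTreeLen : Prop where
  one : L 1 = 0
  inv : ∀ g, L g⁻¹ = L g
  four : ∀ x y u w, L (x * y⁻¹) + L (u * w⁻¹) ≤
      max (L (x * u⁻¹) + L (y * w⁻¹)) (L (x * w⁻¹) + L (y * u⁻¹))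

variable {L}

theorem IsTreeLen.mul_inv_le (h : IsTreeLen L) (x y : Γ) : L (x * y⁻¹) ≤ L x + L y := by
  have := h.four x y 1 1
  simpa [h.one] using this

theorem IsTreeLen.mul_le (h : IsTreeLen L) (x y : Γ) : L (x * y) ≤ L x + L y := by
  have := h.mul_inv_le x y⁻¹
  rwa [inv_inv, h.inv] at this

theorem IsTreeLen.le_mul (h : IsTreeLen L) (x y : Γ) : L y ≤ L x + L (x * y) := by
  have := h.mul_le x⁻¹ (x * y)
  rwa [inv_mul_cancel_left, h.inv] at this

variable {z : Γ} {m : ℕ}

theorem IsTreeLen.symm (h : IsTreeLen L) (x y : Γ) : L (x * y⁻¹) = L (y * x⁻¹) := by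
  rw [← h.inv, mul_inv_rev, inv_inv]

theorem IsTreeLen.step (h : IsTreeLen L) (hm : 1 ≤ m) (hz : ∀ n : ℕ, L (z ^ n) = n * m)
    {c : Γ} {n : ℕ} (hn : L c + 1 ≤ n) : L (c * z ^ (n + 1)) = L (c * z ^ n) + m := by
  have e0 := h.four 1 c (z ^ n)⁻¹ (z ^ (n + 1))⁻¹
  have e1 := h.four 1 (z ^ n)⁻¹ c (z ^ (n + 1))⁻¹
  have e2 := h.four 1 (z ^ (n + 1))⁻¹ c (z ^ n)⁻¹
  have t1 := h.le_mul c (z ^ n)
  have a1 : (z ^ n)⁻¹ * z ^ (n + 1) = z := by rw [pow_succ]; group
  have a2 : (z ^ (n + 1))⁻¹ * z ^ n = z⁻¹ := by rw [pow_succ]; group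
  have hz1 : L z = m := by simpa using hz 1
  have a3 : L ((z ^ n)⁻¹ * c⁻¹) = L (c * z ^ n) := by rw [← mul_inv_rev, h.inv]
  have a4 : L ((z ^ (n + 1))⁻¹ * c⁻¹) = L (c * z ^ (n + 1)) := by rw [← mul_inv_rev, h.inv]
  simp only [one_mul, inv_inv, h.inv, a1, a2, a3, a4, hz1, hz] at e0 e1 e2 t1
  have hn1 : n ≤ n * m := Nat.le_mul_of_pos_right n hm
  have hn2 : (n + 1) * m = n * m + m := by ring
  rw [hn2] at e0 e1 e2
  omega

theorem IsTreeLen.stable (h : IsTreeLen L) (hm : 1 ≤ m) (hz : ∀ n : ℕ, L (z ^ n) = n * m)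
    (c : Γ) (k : ℕ) :
    L (c * z ^ (L c + 1 + k)) = L (c * z ^ (L c + 1)) + k * m := by
  induction k with
  | zero => simp
  | succ k ih =>
    have := h.step hm hz (c := c) (n := L c + 1 + k) (by omega)
    rw [← add_assoc, this, ih]; ring

/-- the translation number -/
def tau (L : Γ → ℕ) (z : Γ) (m : ℕ) (c : Γ) : ℤ :=
  (L (c * z ^ (L c + 1)) : ℤ) - ((L c + 1 : ℕ) : ℤ) * m

theorem IsTreeLen.tau_eq (h : IsTreeLen L) (hm : 1 ≤ m) (hz : ∀ n : ℕ, L (z ^ n) = n * m)
    {c : Γ} {n : ℕ} (hn : L c + 1 ≤ n) :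
    (L (c * z ^ n) : ℤ) = tau L z m c + n * m := by
  obtain ⟨k, rfl⟩ := Nat.exists_eq_add_of_le hn
  rw [h.stable hm hz, tau]
  push_cast
  ring

theorem IsTreeLen.tau_mul (h : IsTreeLen L) (hm : 1 ≤ m) (hz : ∀ n : ℕ, L (z ^ n) = n * m)
    {c k : Γ} (hk : Commute k z) :
    tau L z m (c * k) = tau L z m c + tau L z m k := by
  set n := L c + L k + 1 with hn
  have hck := h.mul_le c k
  have b1 := h.tau_eq hm hz (c := c * k) (n := n) (by omega)
  have b2 := h.tau_eq hm hz (c := c) (n := n) (by omega)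
  have b3 := h.tau_eq hm hz (c := k) (n := n) (by omega)
  set P := k⁻¹ * (z ^ n)⁻¹ with hP
  set Q := (z ^ n)⁻¹ with hQ
  have e0 := h.four c 1 P Q
  have e1 := h.four c P 1 Q
  have e2 := h.four c Q 1 P
  have a1 : L (P * Q⁻¹) = L k := by rw [hP, mul_inv_cancel_right, h.inv]
  have a1' : L (Q * P⁻¹) = L k := by rw [h.symm, a1]
  have a3 : P⁻¹ = k * z ^ n := by
    rw [hP, hQ, mul_inv_rev, inv_inv, inv_inv, (hk.pow_right n).eq.symm]
  have a2 : L (c * P⁻¹) = L (c * k * z ^ n) := by rw [a3, mul_assoc]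
  have a4 : L (c * Q⁻¹) = L (c * z ^ n) := by rw [hQ, inv_inv]
  have a5 : L (1 * Q⁻¹) = n * m := by rw [hQ, inv_inv, one_mul, hz]
  have a6 : L (1 * P⁻¹) = L (k * z ^ n) := by rw [one_mul, a3]
  have a7 : L (P * 1⁻¹) = L (k * z ^ n) := by rw [h.symm, a6]
  have a8 : L (Q * 1⁻¹) = n * m := by rw [h.symm, a5]
  have a9 : L (c * 1⁻¹) = L c := by rw [inv_one, mul_one]
  have t1 := h.le_mul c (z ^ n)
  have t2 := h.le_mul k (z ^ n)
  have t3 := h.le_mul (c * k) (z ^ n)
  rw [a1, a2, a4, a5, a6, a9] at e0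
  rw [a1, a2, a4, a5, a7, a9] at e1
  rw [a1', a2, a4, a6, a8, a9] at e2
  rw [hz] at t1 t2 t3
  have hn1 : n ≤ n * m := Nat.le_mul_of_pos_right n hm
  have hfin : L (c * k * z ^ n) + n * m = L (c * z ^ n) + L (k * z ^ n) := by
    omega
  have : ((L (c * k * z ^ n) : ℤ)) + n * m = L (c * z ^ n) + L (k * z ^ n) := by
    exact_mod_cast hfin
  rw [b1, b2, b3] at this
  linarith

theorem IsTreeLen.tau_one (h : IsTreeLen L) (hz : ∀ n : ℕ, L (z ^ n) = n * m) :
    tau L z m 1 = 0 := by
  have := hz 1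
  simp [tau, h.one] at this ⊢
  omega

theorem IsTreeLen.tau_inv (h : IsTreeLen L) (hm : 1 ≤ m) (hz : ∀ n : ℕ, L (z ^ n) = n * m)
    {c : Γ} (hc : Commute c z) : tau L z m c⁻¹ = - tau L z m c := by
  have := h.tau_mul hm hz (c := c⁻¹) (k := c) hc
  rw [inv_mul_cancel, h.tau_one hz] at this
  linarith

theorem IsTreeLen.len_zero_of_tau (h : IsTreeLen L) (hm : 1 ≤ m)
    (hz : ∀ n : ℕ, L (z ^ n) = n * m) {c : Γ} (hc : Commute c z) (h0 : tau L z m c = 0) :
    L c = 0 := by
  set n := L c + 1 with hn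
  have b1 := h.tau_eq hm hz (c := c) (n := n) le_rfl
  have b2 := h.tau_eq hm hz (c := c⁻¹) (n := n) (by rw [h.inv])
  rw [h.tau_inv hm hz hc, h0, neg_zero, zero_add] at b2
  rw [h0, zero_add] at b1
  have b1' : L (c * z ^ n) = n * m := by exact_mod_cast b1
  have b2' : L (c⁻¹ * z ^ n) = n * m := by exact_mod_cast b2
  have e0 := h.four 1 c (z ^ n) (z ^ n)⁻¹
  have a1 : L (c * (z ^ n)⁻¹) = n * m := by
    rw [← h.inv, mul_inv_rev, inv_inv, (hc.inv_left.pow_right n).eq.symm, b2']
  have a2 : z ^ n * z ^ n = z ^ (2 * n) := by rw [← pow_add]; congr 1; ring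
  simp only [one_mul, inv_inv, h.inv, a1, b1', hz, a2] at e0
  have a3 : 2 * n * m = n * m + n * m := by ring
  omega

theorem IsTreeLen.comm_len_zero (h : IsTreeLen L) (hm : 1 ≤ m)
    (hz : ∀ n : ℕ, L (z ^ n) = n * m) {a b : Γ} (ha : Commute a z) (hb : Commute b z) :
    L (a * b * a⁻¹ * b⁻¹) = 0 := by
  apply h.len_zero_of_tau hm hz
  · exact ((ha.mul_left hb).mul_left ha.inv_left).mul_left hb.inv_left
  · rw [h.tau_mul hm hz hb.inv_left, h.tau_mul hm hz ha.inv_left, h.tau_mul hm hz hb,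
      h.tau_inv hm hz ha, h.tau_inv hm hz hb]
    ring

end abstract_len

open Monoid Monoid.PushoutI Function

variable {ι : Type*} {G : ι → Type*} {H : Type*} [∀ i, Group (G i)] [Group H]
  {φ : ∀ i, H →* G i}

theorem isTreeLen_len (d : NormalWord.Transversal φ) : IsTreeLen (len d) :=
  ⟨len_one d, len_inv d, four_point d⟩

theorem isRed_append' {l m : List (Σ i, G i)} (h1 : IsRed φ l)
    (h2 : IsRed φ m) (h : ∀ a ∈ l.getLast?, ∀ b ∈ m.head?, a.1 ≠ b.1) : IsRed φ (l ++ m) := by
  refine ⟨?_, ?_⟩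
  · rw [List.isChain_append]
    exact ⟨h1.1, h2.1, h⟩
  · intro x hx
    rcases List.mem_append.mp hx with h | h
    · exact h1.2 x h
    · exact h2.2 x h

theorem isRed_replace_first {m : List (Σ i, G i)} {i : ι} {a b : G i}
    (h1 : IsRed φ (⟨i, a⟩ :: m)) (hb : b ∉ (φ i).range) : IsRed φ (⟨i, b⟩ :: m) := by
  have h3 : IsRed φ ([] ++ [(⟨i, b⟩ : Σ i, G i)]) := isRed_singleton (a := ⟨i, b⟩) hb
  exact isRed_merge (l := []) h3 h1 hb

/-- a nonempty normal form with the base element absorbed in the first letter -/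
theorem exists_lprod (d : NormalWord.Transversal φ) (g : PushoutI φ) (hg : 1 ≤ len d g) :
    ∃ l : List (Σ i, G i), IsRed φ l ∧ l.length = len d g ∧ lprod φ l = g := by
  obtain ⟨h1, _, k, h3⟩ := nf_spec d g
  obtain ⟨a, l, hl⟩ : ∃ a l, nf d g = a :: l := by
    cases h : nf d g with
    | nil => simp [len, h] at hg
    | cons a l => exact ⟨a, l, rfl⟩
  obtain ⟨i, a⟩ := a
  rw [hl] at h1 h3
  refine ⟨⟨i, φ i k * a⟩ :: l, isRed_replace_first h1 ?_, ?_, ?_⟩
  · intro hcon
    apply h1.2 ⟨i, a⟩ (by simp)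
    simpa using (φ i).range.mul_mem ((φ i).range.inv_mem ⟨k, rfl⟩) hcon
  · simp [len, hl]
  · rw [h3]; simp [of_apply_eq_base, mul_assoc]

/-- cyclically reduced elements -/
theorem len_pow (d : NormalWord.Transversal φ) (x : PushoutI φ) (h2 : 2 ≤ len d x)
    (hmin : ∀ u, len d x ≤ len d (u * x * u⁻¹)) (n : ℕ) : len d (x ^ n) = n * len d x := by
  obtain ⟨l, hl, hlen, hx⟩ := exists_lprod d x (by omega)
  obtain ⟨a, l', rfl⟩ : ∃ a l', l = a :: l' := by
    cases l with
    | nil => simp at hlen; omega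
    | cons a l' => exact ⟨a, l', rfl⟩
  have hl'ne : l' ≠ [] := by
    rintro rfl; simp at hlen; omega
  obtain ⟨m, b, rfl⟩ : ∃ m b, l' = m ++ [b] :=
    ⟨l'.dropLast, l'.getLast hl'ne, (List.dropLast_append_getLast hl'ne).symm⟩
  have hab : b.1 ≠ a.1 := by
    intro hab
    obtain ⟨i, a⟩ := a
    obtain ⟨j, b⟩ := b
    dsimp only at hab
    subst hab
    have h1 := hmin (of j b)
    have h3 : of j b * x * (of j b)⁻¹ = of j (b * a) * lprod φ m := by
      rw [← hx]
      simp only [lprod_cons, lprod_append, lprod_nil, mul_one, map_mul]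
      group
    rw [h3] at h1
    have h4 := (isTreeLen_len d).mul_le (of j (b * a)) (lprod φ m)
    have h5 := len_of_le d j (b * a)
    have h6 : IsRed φ m := by
      have : IsRed φ ([(⟨j, a⟩ : Σ i, G i)] ++ (m ++ [⟨j, b⟩])) := hl
      exact this.right.left
    rw [len_lprod d h6] at h4
    simp only [List.length_cons, List.length_append, List.length_nil] at hlen
    omega
  have hred : ∀ n : ℕ, IsRed φ (List.replicate n (a :: (m ++ [b]))).flatten := by
    intro n
    induction n with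
    | zero => simpa using isRed_nil
    | succ n ih =>
      rw [List.replicate_succ, List.flatten_cons]
      apply isRed_append' hl ih
      intro x hx y hy
      have hxb : x = b := by
        rw [← List.cons_append, List.getLast?_append] at hx
        simpa using hx.symm
      have hya : y = a := by
        cases n with
        | zero => simp at hy
        | succ n =>
          rw [List.replicate_succ, List.flatten_cons] at hy
          simpa using hy.symm
      rw [hxb, hya]
      exact hab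
  have hprod : ∀ n : ℕ, lprod φ (List.replicate n (a :: (m ++ [b]))).flatten = x ^ n := by
    intro n
    induction n with
    | zero => simp
    | succ n ih =>
      rw [List.replicate_succ, List.flatten_cons, lprod_append, ih, hx, pow_succ']
  rw [← hprod n, len_lprod d (hred n)]
  rw [List.length_flatten, List.map_replicate, List.sum_replicate, smul_eq_mul, hlen]

/-- existence of a cyclically reduced conjugate -/
theorem exists_cyc [Nonempty ι] (d : NormalWord.Transversal φ) (z : PushoutI φ)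
    (hz : ∀ u i, u * z * u⁻¹ ∉ (of (φ := φ) i).range) :
    ∃ (u : PushoutI φ) (m : ℕ), 2 ≤ m ∧ ∀ n : ℕ, len d ((u * z * u⁻¹) ^ n) = n * m := by
  classical
  have hex : ∃ k, ∃ u, len d (u * z * u⁻¹) = k := ⟨_, 1, rfl⟩
  obtain ⟨u, hu⟩ := Nat.find_spec hex
  have hmin : ∀ v, len d (u * z * u⁻¹) ≤ len d (v * (u * z * u⁻¹) * v⁻¹) := by
    intro v
    rw [hu]
    apply Nat.find_min'
    exact ⟨v * u, by simp [mul_assoc]⟩
  have h2 : 2 ≤ len d (u * z * u⁻¹) := by
    by_contra hcon
    obtain ⟨i, hi⟩ := (len_le_one d _).mp (by omega : len d (u * z * u⁻¹) ≤ 1)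
    exact hz u i hi
  exact ⟨u, _, h2, len_pow d _ h2 hmin⟩

/-- centralisers of elements of a factor -/
theorem mem_of_conj_mem (d : NormalWord.Transversal φ) (i : ι) (a : G i)
    (ha : ∀ c : G i, c * a * c⁻¹ ∉ (φ i).range) (x : PushoutI φ)
    (hx : x * of i a * x⁻¹ ∈ (of (φ := φ) i).range) : x ∈ (of (φ := φ) i).range := by
  classical
  obtain ⟨h1, _, k, h3⟩ := nf_spec d x
  -- split off the last letter if it has index `i`
  obtain ⟨l, b, hl, hlast, hxl⟩ : ∃ (l : List (Σ i, G i)) (b : G i), IsRed φ l ∧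
      (∀ y ∈ l.getLast?, y.1 ≠ i) ∧ x = base φ k * lprod φ l * of i b := by
    rcases List.eq_nil_or_concat (nf d x) with h | ⟨l, y, h⟩
    · exact ⟨[], 1, isRed_nil, by simp, by rw [h3, h]; simp⟩
    · rw [List.concat_eq_append] at h
      by_cases hy : y.1 = i
      · obtain ⟨j, y⟩ := y
        dsimp only at hy
        subst hy
        rw [h] at h1 h3
        refine ⟨l, y, h1.left, ?_, by rw [h3]; simp [mul_assoc]⟩
        have := h1.1
        rw [List.isChain_append] at this
        intro w hw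
        exact this.2.2 w hw ⟨j, y⟩ (by simp)
      · refine ⟨nf d x, 1, h1, ?_, by rw [map_one, mul_one]; exact h3⟩
        intro w hw
        rw [h] at hw
        have : w = y := by simpa using hw.symm
        rw [this]; exact hy
  by_cases hnil : l = []
  · subst hnil
    refine ⟨φ i k * b, ?_⟩
    rw [hxl]
    simp [of_apply_eq_base]
  · exfalso
    have hc := ha b
    have hred : IsRed φ (l ++ ([⟨i, b * a * b⁻¹⟩] ++ linv l)) := by
      apply isRed_append' hl
      · apply isRed_append' (isRed_singleton (a := ⟨i, b * a * b⁻¹⟩) hc) hl.linv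
        intro p hp q hq
        simp only [List.getLast?_singleton, Option.mem_def, Option.some.injEq] at hp
        subst hp
        unfold linv at hq
        rw [List.head?_reverse, List.getLast?_map] at hq
        simp only [Option.mem_def, Option.map_eq_some_iff] at hq
        obtain ⟨r, hr, rfl⟩ := hq
        exact (hlast r hr).symm
      · intro p hp q hq
        simp only [List.cons_append, List.head?_cons, Option.mem_def, Option.some.injEq] at hq
        subst hq
        exact hlast p hp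
    have heq : x * of i a * x⁻¹ =
        base φ k * lprod φ (l ++ ([⟨i, b * a * b⁻¹⟩] ++ linv l)) * base φ k⁻¹ := by
      rw [hxl]
      simp only [lprod_append, lprod_cons, lprod_nil, lprod_linv, map_mul, map_inv, mul_one]
      group
    have h5 := len_red d hred k k⁻¹
    rw [← heq] at h5
    obtain ⟨c, hc'⟩ := hx
    rw [← hc'] at h5
    have h6 := len_of_le d i c
    have h7 : 1 ≤ l.length := List.length_pos_iff.mpr hnil
    simp only [List.length_append, List.length_cons, List.length_nil, length_linv] at h5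
    omega

end Pool.Agent.Lib.MP_944c19_al
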