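import Pool.Agent.Lib.MP_944c19_al.Cube

/-!
# Cube complexes from labelled graphs

A finite set `P` of vertices, a set `L` of labels (one for each hyperplane), a crossing relation
on the labels, and for each label a partial injection of `P`.
-/

set_option autoImplicit false

namespace Pool.Agent.Lib.MP_944c19_al

theorem succAbove_comm {n : ℕ} {i j : Fin (n + 1)} (h : i ≤ j) (k : Fin n) :
    j.succ.succAbove (i.succAbove k) = i.castSucc.succAbove (j.succAbove k) := by
  have h' : (i : ℕ) ≤ j := h
  apply Fin.ext
  simp only [Fin.succAbove, Fin.lt_def]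
  split_ifs <;> simp_all <;> omega

/-- Data which determine a special cube complex: vertices `P`, labels `L`; there is an edge
labelled `a` issuing from `p` iff `out p a`, and it ends at `move p a`. -/
structure LabelData where
  P : Type
  L : Type
  [ord : LinearOrder L]
  out : P → L → Prop
  move : P → L → P
  cross : L → L → Prop
  cross_symm : ∀ a b, cross a b → cross b a
  cross_irrefl : ∀ a, ¬ cross a a
  move_inj : ∀ p q a, out p a → out q a → move p a = move q a → p = q
  sq_oo : ∀ p a b, cross a b → out p a → out p b →
    out (move p a) b ∧ move (move p a) b = move (move p b) a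
  sq_io : ∀ p a b, cross a b → out p a → out (move p a) b → out p b
  sq_ii : ∀ p q a b, cross a b → out p a → out q b → move p a = move q b →
    ∃ r, out r a ∧ out r b ∧ move r b = p ∧ move r a = q

namespace LabelData

variable (D : LabelData)

instance : LinearOrder D.L := D.ord

/-- an `n`-cube: a vertex `p` with `n` pairwise crossing labels of edges issuing from `p`, in
increasing order -/
def Cell (n : ℕ) : Type :=
  {x : D.P × (Fin n → D.L) // StrictMono x.2 ∧ (∀ i j, i ≠ j → D.cross (x.2 i) (x.2 j)) ∧
    ∀ i, D.out x.1 (x.2 i)}

variable {D}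

/-- the faces of a cube -/
def faceMap {n : ℕ} (i : Fin (n + 1)) (ε : Bool) (c : D.Cell (n + 1)) : D.Cell n :=
  ⟨(bif ε then D.move c.1.1 (c.1.2 i) else c.1.1, fun j => c.1.2 (i.succAbove j)),
    c.2.1.comp (Fin.strictMono_succAbove i),
    fun j k h => c.2.2.1 _ _ fun h' => h (Fin.succAbove_right_injective h'), by
      intro j
      cases ε with
      | false => exact c.2.2.2 _
      | true =>
        exact (D.sq_oo _ _ _ (c.2.2.1 _ _ (Fin.succAbove_ne i j).symm) (c.2.2.2 _)
          (c.2.2.2 _)).1⟩

variable (D)

/-- the cube complex of the data -/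
def toCube : CubeComplex where
  cell := D.Cell
  face := faceMap
  face_face := by
    intro n i j ε η c hij
    have h1 : j.succ.succAbove i = i.castSucc :=
      Fin.succAbove_of_castSucc_lt _ _ (Fin.castSucc_lt_succ_iff.mpr hij)
    have h2 : i.castSucc.succAbove j = j.succ :=
      Fin.succAbove_of_le_castSucc _ _ (Fin.castSucc_le_castSucc_iff.mpr hij)
    apply Subtype.ext
    apply Prod.ext
    · simp only [faceMap, h1, h2]
      have hne : j.succ ≠ i.castSucc := by
        intro h
        have : i.castSucc < j.succ := Fin.castSucc_lt_succ_iff.mpr hij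
        exact absurd h (ne_of_gt this)
      cases ε <;> cases η <;> simp only [cond_true, cond_false]
      exact (D.sq_oo _ _ _ (c.2.2.1 _ _ hne) (c.2.2.2 _) (c.2.2.2 _)).2
    · funext k
      simp only [faceMap]
      exact congrArg _ (succAbove_comm hij k)

end LabelData

end Pool.Agent.Lib.MP_944c19_al
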