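import Pool.Agent.Lib.MP_944c19_al.Data

/-!
# The cube complex of label data is nonpositively curved and special
-/

set_option autoImplicit false

namespace Pool.Agent.Lib.MP_944c19_al

namespace CubeComplex

variable {X : CubeComplex}

/-- a half edge of a corner of a cube issues from that corner -/
theorem face_edge : ∀ {n : ℕ} (c : X.cell n) (ε : Fin n → Bool) (i : Fin n),
    X.face 0 (ε i) (X.edge c ε i) = X.corner c ε
  | 0, _, _, i => i.elim0
  | 1, c, ε, i => by
    obtain rfl : i = 0 := Subsingleton.elim _ _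
    rfl
  | n + 2, c, ε, i => by
    by_cases h : i = 0
    · subst h
      have h1 : X.edge c ε 0 = X.edge (X.face 1 (ε 1) c) (fun j => ε (Fin.succAbove 1 j)) 0 := by
        simp [CubeComplex.edge]
      rw [h1]
      have h2 := face_edge (X.face 1 (ε 1) c) (fun j => ε (Fin.succAbove 1 j)) 0
      have h3 : (Fin.succAbove 1 (0 : Fin (n + 1)) : Fin (n + 2)) = 0 := rfl
      simp only [h3] at h2
      rw [h2]
      show X.corner (X.face 0 (ε (Fin.succAbove 1 0)) (X.face 1 (ε 1) c))
          (fun j => ε (Fin.succAbove 1 j.succ)) =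
        X.corner (X.face 0 (ε (Fin.succ 0)) (X.face 0 (ε 0) c)) (fun j => ε j.succ.succ)
      have h4 := X.face_face (0 : Fin (n + 1)) 0 (ε 0) (ε 1) c le_rfl
      have h5 : ∀ j : Fin n, (Fin.succAbove 1 j.succ : Fin (n + 2)) = j.succ.succ := by
        intro j
        exact Fin.succAbove_of_le_castSucc _ _ (by simp [Fin.le_def])
      simp only [h3, h5]
      exact congrArg (fun z => X.corner z fun j => ε j.succ.succ) h4
    · have h1 : X.edge c ε i = X.edge (X.face 0 (ε 0) c) (fun j => ε j.succ) (i.pred h) := by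
        simp [CubeComplex.edge, h]
      rw [h1]
      have h2 := face_edge (X.face 0 (ε 0) c) (fun j => ε j.succ) (i.pred h)
      simp only [Fin.succ_pred] at h2
      rw [h2]
      rfl

end CubeComplex

namespace LabelData

variable {D : LabelData}

/-- the label of an edge -/
def elb (e : D.Cell 1) : D.L := e.1.2 0

theorem face_vertex {n : ℕ} (i : Fin (n + 1)) (ε : Bool) (c : D.Cell (n + 1)) :
    (D.toCube.face i ε c : D.Cell n).1.1 = bif ε then D.move c.1.1 (c.1.2 i) else c.1.1 := rfl

theorem face_labels {n : ℕ} (i : Fin (n + 1)) (ε : Bool) (c : D.Cell (n + 1)) (j : Fin n) :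
    (D.toCube.face i ε c : D.Cell n).1.2 j = c.1.2 (i.succAbove j) := rfl

theorem cell0_ext {c c' : D.Cell 0} (h : c.1.1 = c'.1.1) : c = c' :=
  Subtype.ext (Prod.ext h (funext fun i => i.elim0))

theorem cell_ext {n : ℕ} {c c' : D.Cell n} (h : c.1.1 = c'.1.1) (h' : c.1.2 = c'.1.2) : c = c' :=
  Subtype.ext (Prod.ext h h')

/-- the label of the edge of a cube in direction `i` -/
theorem elb_edge : ∀ {n : ℕ} (c : D.Cell n) (ε : Fin n → Bool) (i : Fin n),
    elb (D.toCube.edge c ε i : D.Cell 1) = c.1.2 i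
  | 0, _, _, i => i.elim0
  | 1, c, ε, i => by
    obtain rfl : i = 0 := Subsingleton.elim _ _
    rfl
  | n + 2, c, ε, i => by
    by_cases h : i = 0
    · subst h
      have h1 : D.toCube.edge c ε 0 =
          D.toCube.edge (D.toCube.face 1 (ε 1) c) (fun j => ε (Fin.succAbove 1 j)) 0 := by
        simp [CubeComplex.edge]
      rw [h1]
      exact elb_edge (D.toCube.face 1 (ε 1) c : D.Cell (n + 1)) _ 0
    · have h1 : D.toCube.edge c ε i =
          D.toCube.edge (D.toCube.face 0 (ε 0) c) (fun j => ε j.succ) (i.pred h) := by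
        simp [CubeComplex.edge, h]
      rw [h1]
      have h2 := elb_edge (D.toCube.face 0 (ε 0) c : D.Cell (n + 1)) (fun j => ε j.succ)
        (i.pred h)
      rw [h2, face_labels]
      show c.1.2 ((i.pred h).succ) = c.1.2 i
      rw [Fin.succ_pred]

/-- a half edge is determined by its label, its sign and the vertex from which it issues -/
theorem halfEdge_ext {h h' : D.Cell 1 × Bool} (h1 : elb h.1 = elb h'.1) (h2 : h.2 = h'.2)
    (h3 : D.toCube.face 0 h.2 h.1 = D.toCube.face 0 h'.2 h'.1) : h = h' := by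
  obtain ⟨e, b⟩ := h
  obtain ⟨e', b'⟩ := h'
  simp only at h1 h2 h3
  subst h2
  have h4 : e.1.2 = e'.1.2 := funext fun i => by
    obtain rfl : i = 0 := Subsingleton.elim _ _
    exact h1
  have h5 : (D.toCube.face 0 b e : D.Cell 0).1.1 = (D.toCube.face 0 b e' : D.Cell 0).1.1 :=
    congrArg (fun z : D.Cell 0 => z.1.1) h3
  rw [face_vertex, face_vertex] at h5
  refine Prod.ext (cell_ext ?_ h4) rfl
  cases b with
  | false => exact h5
  | true =>
    simp only [cond_true] at h5
    refine D.move_inj _ _ (e.1.2 0) (e.2.2.2 0) ?_ ?_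
    · rw [h4]; exact e'.2.2.2 0
    · rw [h5, h4]

/-- the vertex of the corner `ε` of the cube at `p` with labels `f` -/
def cv : ∀ {n : ℕ}, D.P → (Fin n → D.L) → (Fin n → Bool) → D.P
  | 0, p, _, _ => p
  | _ + 1, p, f, ε =>
    cv (bif ε 0 then D.move p (f 0) else p) (fun i => f i.succ) fun i => ε i.succ

theorem corner_vertex : ∀ {n : ℕ} (c : D.Cell n) (ε : Fin n → Bool),
    (D.toCube.corner c ε : D.Cell 0).1.1 = cv c.1.1 c.1.2 ε
  | 0, _, _ => rfl
  | n + 1, c, ε => by
    have h := corner_vertex (D.toCube.face 0 (ε 0) c : D.Cell n) (fun i => ε i.succ)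
    exact h

theorem corner_inj : ∀ {n : ℕ} (c c' : D.Cell n) (ε : Fin n → Bool), c.1.2 = c'.1.2 →
    D.toCube.corner c ε = D.toCube.corner c' ε → c = c'
  | 0, _, _, _, _, h => h
  | n + 1, c, c', ε, hf, h => by
    have h1 : (D.toCube.face 0 (ε 0) c : D.Cell n).1.2 =
        (D.toCube.face 0 (ε 0) c' : D.Cell n).1.2 := by
      funext j
      rw [face_labels, face_labels, hf]
    have h2 := corner_inj _ _ (fun i => ε i.succ) h1 h
    have h3 : (D.toCube.face 0 (ε 0) c : D.Cell n).1.1 =
        (D.toCube.face 0 (ε 0) c' : D.Cell n).1.1 := congrArg (fun z : D.Cell n => z.1.1) h2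
    rw [face_vertex, face_vertex] at h3
    refine cell_ext ?_ hf
    cases hε : ε 0 with
    | false => rw [hε] at h3; exact h3
    | true =>
      rw [hε] at h3
      simp only [cond_true] at h3
      refine D.move_inj _ _ (c.1.2 0) (c.2.2.2 0) ?_ ?_
      · rw [hf]; exact c'.2.2.2 0
      · rw [h3, hf]

theorem halfEdges_injective {n : ℕ} (c : D.Cell n) (ε : Fin n → Bool) :
    Function.Injective (D.toCube.halfEdges c ε) := by
  intro i j h
  have h1 := congrArg (fun z : D.Cell 1 × Bool => elb z.1) h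
  simp only [CubeComplex.halfEdges] at h1
  rw [elb_edge, elb_edge] at h1
  exact c.2.1.injective h1

/-- there is an edge labelled `a` issuing from `v` (`b = false`) or ending at `v` (`b = true`) -/
def Avail (v : D.P) (a : D.L) (b : Bool) : Prop :=
  bif b then ∃ u, D.out u a ∧ D.move u a = v else D.out v a

theorem avail_of_cv : ∀ {n : ℕ} (p : D.P) (f : Fin n → D.L) (ε : Fin n → Bool) (a : D.L)
    (b : Bool), (∀ i j, i ≠ j → D.cross (f i) (f j)) → (∀ i, D.out p (f i)) →
    (∀ i, D.cross (f i) a) → Avail (cv p f ε) a b → Avail p a b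
  | 0, _, _, _, _, _, _, _, _, h => h
  | n + 1, p, f, ε, a, b, hc, ho, ha, h => by
    have ho' : ∀ i : Fin n, D.out (bif ε 0 then D.move p (f 0) else p) (f i.succ) := by
      intro i
      cases ε 0 with
      | false => exact ho _
      | true => exact (D.sq_oo _ _ _ (hc _ _ (Fin.succ_ne_zero i).symm) (ho _) (ho _)).1
    have h1 := avail_of_cv (bif ε 0 then D.move p (f 0) else p) (fun i => f i.succ)
      (fun i => ε i.succ) a b (fun i j hij => hc _ _ fun h' => hij (Fin.succ_injective _ h'))
      ho' (fun i => ha _) h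
    cases hε : ε 0 with
    | false => rw [hε] at h1; exact h1
    | true =>
      rw [hε] at h1
      simp only [cond_true] at h1
      cases b with
      | false =>
        simp only [Avail, cond_false] at h1 ⊢
        exact D.sq_io _ _ _ (ha 0) (ho 0) h1
      | true =>
        simp only [Avail, cond_true] at h1 ⊢
        obtain ⟨u, hu, hu'⟩ := h1
        obtain ⟨r, _, hr2, hr3, _⟩ := D.sq_ii p u (f 0) a (ha 0) (ho 0) hu hu'.symm
        exact ⟨r, hr2, hr3⟩

theorem exists_cube : ∀ {n : ℕ} (v : D.P) (f : Fin n → D.L) (ε : Fin n → Bool),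
    (∀ i j, i ≠ j → D.cross (f i) (f j)) → (∀ i, Avail v (f i) (ε i)) →
    ∃ p, (∀ i, D.out p (f i)) ∧ cv p f ε = v
  | 0, v, _, _, _, _ => ⟨v, fun i => i.elim0, rfl⟩
  | n + 1, v, f, ε, hc, ha => by
    obtain ⟨p', hp', hv⟩ := exists_cube v (fun i => f i.succ) (fun i => ε i.succ)
      (fun i j hij => hc _ _ fun h' => hij (Fin.succ_injective _ h')) (fun i => ha _)
    have h1 : Avail p' (f 0) (ε 0) := by
      refine avail_of_cv p' (fun i => f i.succ) (fun i => ε i.succ) (f 0) (ε 0)
        (fun i j hij => hc _ _ fun h' => hij (Fin.succ_injective _ h')) hp'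
        (fun i => hc _ _ (Fin.succ_ne_zero i)) ?_
      rw [hv]
      exact ha 0
    cases hε : ε 0 with
    | false =>
      rw [hε] at h1
      simp only [Avail, cond_false] at h1
      refine ⟨p', ?_, ?_⟩
      · intro i
        induction i using Fin.cases with
        | zero => exact h1
        | succ i => exact hp' i
      · simp only [cv, hε, cond_false]
        exact hv
    | true =>
      rw [hε] at h1
      simp only [Avail, cond_true] at h1
      obtain ⟨u, hu, hu'⟩ := h1
      refine ⟨u, ?_, ?_⟩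
      · intro i
        induction i using Fin.cases with
        | zero => exact hu
        | succ i =>
          refine D.sq_io u (f 0) (f i.succ) (hc _ _ (Fin.succ_ne_zero i).symm) hu ?_
          rw [hu']
          exact hp' i
      · simp only [cv, hε, cond_true]
        rw [hu']
        exact hv

theorem avail_of_halfEdge {v : D.Cell 0} {h : D.Cell 1 × Bool}
    (hv : D.toCube.face 0 h.2 h.1 = v) : Avail v.1.1 (elb h.1) h.2 := by
  obtain ⟨e, b⟩ := h
  simp only at hv ⊢
  subst hv
  rw [face_vertex]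
  cases b with
  | false => exact e.2.2.2 0
  | true => exact ⟨e.1.1, e.2.2.2 0, rfl⟩

/-- half edges at a vertex with pairwise crossing increasing labels span a cube -/
theorem exists_cube_of_halfEdges {n : ℕ} (v : D.Cell 0) (g : Fin n → D.Cell 1 × Bool)
    (hv : ∀ i, D.toCube.face 0 (g i).2 (g i).1 = v) (hm : StrictMono fun i => elb (g i).1)
    (hc : ∀ i j, i ≠ j → D.cross (elb (g i).1) (elb (g j).1)) :
    ∃ c : D.Cell n, D.toCube.corner c (fun i => (g i).2) = v ∧
      D.toCube.halfEdges c (fun i => (g i).2) = g := by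
  obtain ⟨p, hp, hpv⟩ := exists_cube v.1.1 (fun i => elb (g i).1) (fun i => (g i).2) hc
    fun i => avail_of_halfEdge (hv i)
  have h1 : D.toCube.corner (⟨(p, fun i => elb (g i).1), hm, hc, hp⟩ : D.Cell n)
      (fun i => (g i).2) = v := by
    refine cell0_ext ?_
    rw [corner_vertex]
    exact hpv
  refine ⟨⟨(p, fun i => elb (g i).1), hm, hc, hp⟩, h1, ?_⟩
  funext i
  refine halfEdge_ext ?_ rfl ?_
  · simp only [CubeComplex.halfEdges]
    rw [elb_edge]
  · have h2 := CubeComplex.face_edge (X := D.toCube)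
      (⟨(p, fun i => elb (g i).1), hm, hc, hp⟩ : D.Cell n) (fun i => (g i).2) i
    simp only [CubeComplex.halfEdges]
    rw [h2, h1, hv]

theorem cross_of_square {v : D.Cell 0} {h h' : D.Cell 1 × Bool} (hs : D.toCube.Square v h h') :
    D.cross (elb h.1) (elb h'.1) := by
  obtain ⟨q, ε, _, hr⟩ := hs
  have h0 : D.toCube.halfEdges q ε 0 ∈ ({h, h'} : Set (D.Cell 1 × Bool)) := hr ▸ ⟨0, rfl⟩
  have h1 : D.toCube.halfEdges q ε 1 ∈ ({h, h'} : Set (D.Cell 1 × Bool)) := hr ▸ ⟨1, rfl⟩
  have hne : D.toCube.halfEdges q ε 0 ≠ D.toCube.halfEdges q ε 1 :=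
    fun h => absurd (halfEdges_injective q ε h) (by simp)
  have hc : D.cross ((q : D.Cell 2).1.2 0) ((q : D.Cell 2).1.2 1) := q.2.2.1 0 1 (by simp)
  have e0 : elb (D.toCube.halfEdges q ε 0).1 = (q : D.Cell 2).1.2 0 := elb_edge q ε 0
  have e1 : elb (D.toCube.halfEdges q ε 1).1 = (q : D.Cell 2).1.2 1 := elb_edge q ε 1
  rcases h0 with h0 | h0 <;> rcases h1 with h1 | h1
  · exact absurd (h0.trans h1.symm) hne
  · rw [← h0, ← h1, e0, e1]; exact hc
  · rw [← h0, ← h1, e0, e1]; exact D.cross_symm _ _ hc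
  · exact absurd (h0.trans h1.symm) hne

theorem square_of_cross {v : D.Cell 0} {h h' : D.Cell 1 × Bool}
    (hv : D.toCube.face 0 h.2 h.1 = v) (hv' : D.toCube.face 0 h'.2 h'.1 = v)
    (hc : D.cross (elb h.1) (elb h'.1)) : D.toCube.Square v h h' := by
  have key : ∀ h h' : D.Cell 1 × Bool, D.toCube.face 0 h.2 h.1 = v →
      D.toCube.face 0 h'.2 h'.1 = v → D.cross (elb h.1) (elb h'.1) →
      elb h.1 < elb h'.1 → D.toCube.Square v h h' := by
    intro h h' hv hv' hc hlt
    obtain ⟨c, hc1, hc2⟩ := exists_cube_of_halfEdges v ![h, h'] (by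
        intro i
        fin_cases i
        · exact hv
        · exact hv')
      (by
        intro i j hij
        fin_cases i <;> fin_cases j
        · exact absurd hij (lt_irrefl _)
        · exact hlt
        · exact absurd hij (by decide)
        · exact absurd hij (lt_irrefl _))
      (by
        intro i j hij
        fin_cases i <;> fin_cases j
        · exact absurd rfl hij
        · exact hc
        · exact D.cross_symm _ _ hc
        · exact absurd rfl hij)
    refine ⟨c, _, hc1, ?_⟩
    rw [hc2]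
    apply Set.ext
    intro x
    constructor
    · rintro ⟨i, rfl⟩
      fin_cases i
      · exact Or.inl rfl
      · exact Or.inr rfl
    · rintro (rfl | rfl)
      · exact ⟨0, rfl⟩
      · exact ⟨1, rfl⟩
  rcases lt_trichotomy (elb h.1) (elb h'.1) with hlt | heq | hgt
  · exact key h h' hv hv' hc hlt
  · rw [heq] at hc
    exact absurd hc (D.cross_irrefl _)
  · obtain ⟨q, ε, h1, h2⟩ := key h' h hv' hv (D.cross_symm _ _ hc) hgt
    exact ⟨q, ε, h1, by rw [h2]; exact Set.pair_comm _ _⟩

theorem flag (v : D.Cell 0) (T : Finset (D.Cell 1 × Bool))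
    (hT : ∀ h ∈ T, D.toCube.face 0 h.2 h.1 = v)
    (hsq : ∀ h ∈ T, ∀ h' ∈ T, h ≠ h' → D.toCube.Square v h h') :
    ∃ (n : ℕ) (c : D.Cell n) (ε : Fin n → Bool),
      D.toCube.corner c ε = v ∧
        Set.range (α := D.Cell 1 × Bool) (D.toCube.halfEdges c ε) =
          (T : Set (D.Cell 1 × Bool)) := by
  classical
  have hinj : Set.InjOn (fun z : D.Cell 1 × Bool => elb z.1) (T : Set (D.Cell 1 × Bool)) := by
    intro x hx y hy hxy
    by_contra hne
    have := cross_of_square (hsq x hx y hy hne)
    simp only at hxy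
    rw [hxy] at this
    exact D.cross_irrefl _ this
  let S : Finset D.L := T.image fun z : D.Cell 1 × Bool => elb z.1
  have hex : ∀ i : Fin S.card, ∃ x ∈ T, elb x.1 = S.orderEmbOfFin rfl i := by
    intro i
    have := S.orderEmbOfFin_mem rfl i
    obtain ⟨x, hx, hx'⟩ := Finset.mem_image.mp this
    exact ⟨x, hx, hx'⟩
  choose g hg hg' using hex
  have hgi : Function.Injective g := by
    intro i j hij
    have h1 : S.orderEmbOfFin rfl i = S.orderEmbOfFin rfl j := by rw [← hg', ← hg', hij]
    exact (S.orderEmbOfFin rfl).injective h1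
  obtain ⟨c, hc1, hc2⟩ := exists_cube_of_halfEdges v g (fun i => hT _ (hg i))
    (by
      intro i j hij
      simp only [hg']
      exact (S.orderEmbOfFin rfl).strictMono hij)
    (fun i j hij => cross_of_square (hsq _ (hg i) _ (hg j) fun h => hij (hgi h)))
  refine ⟨S.card, c, _, hc1, ?_⟩
  rw [hc2]
  ext x
  simp only [Set.mem_range, Finset.mem_coe]
  constructor
  · rintro ⟨i, rfl⟩
    exact hg i
  · intro hx
    have hxS : elb x.1 ∈ S := Finset.mem_image.mpr ⟨x, hx, rfl⟩
    have : elb x.1 ∈ Set.range (S.orderEmbOfFin rfl) := by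
      rw [Finset.range_orderEmbOfFin]
      exact hxS
    obtain ⟨i, hi⟩ := this
    refine ⟨i, hinj (hg i) hx ?_⟩
    simp only
    rw [hg', hi]

theorem toCube_isNPC (D : LabelData) : D.toCube.IsNPC := by
  refine ⟨fun n c ε => halfEdges_injective c ε, ?_, ?_⟩
  · intro n c c' ε ε' hcor hr
    have hlab : ∀ i, ∃ j, D.toCube.halfEdges c' ε' j = D.toCube.halfEdges c ε i := by
      intro i
      have : D.toCube.halfEdges c ε i ∈ Set.range (D.toCube.halfEdges c' ε') := hr ▸ ⟨i, rfl⟩
      exact this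
    have hf : (c : D.Cell n).1.2 = (c' : D.Cell n).1.2 := by
      refine (StrictMono.range_inj c.2.1 c'.2.1).mp ?_
      have e1 : ∀ (c : D.Cell n) (ε : Fin n → Bool),
          Set.range c.1.2 = (fun z : D.Cell 1 × Bool => elb z.1) ''
            Set.range (D.toCube.halfEdges c ε) := by
        intro c ε
        rw [← Set.range_comp]
        congr 1
        funext i
        exact (elb_edge c ε i).symm
      exact (e1 c ε).trans ((congrArg (fun s : Set (D.Cell 1 × Bool) =>
        (fun z : D.Cell 1 × Bool => elb z.1) '' s) hr).trans (e1 c' ε').symm)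
    have hε : ε = ε' := by
      funext i
      obtain ⟨j, hj⟩ := hlab i
      have h1 : (c' : D.Cell n).1.2 j = (c : D.Cell n).1.2 i := by
        rw [← elb_edge c' ε' j, ← elb_edge c ε i]
        exact congrArg (fun z : D.Cell 1 × Bool => elb z.1) hj
      rw [hf] at h1
      have h2 : j = i := c'.2.1.injective h1
      subst h2
      exact (congrArg (fun z : D.Cell 1 × Bool => z.2) hj).symm
    subst hε
    exact ⟨corner_inj c c' ε hf hcor, rfl⟩
  · intro v T hT hsq
    exact flag v T hT hsq

theorem elb_parallel {e e' : D.Cell 1} (h : D.toCube.Parallel e e') : elb e = elb e' := by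
  induction h with
  | rel x y h =>
    obtain ⟨q, i, rfl, rfl⟩ := h
    rfl
  | refl x => rfl
  | symm x y _ ih => exact ih.symm
  | trans x y z _ _ ih1 ih2 => exact ih1.trans ih2

theorem toCube_special (D : LabelData) : D.toCube.HyperplanesSpecial := by
  refine ⟨?_, ?_, ?_⟩
  · intro q h
    have h1 := elb_parallel h
    have h2 : (q : D.Cell 2).1.2 1 = (q : D.Cell 2).1.2 0 := h1
    exact absurd (q.2.1.injective h2) (by simp)
  · intro e e' h ε hf
    exact congrArg Prod.fst (halfEdge_ext (h := (e, ε)) (h' := (e', ε)) (elb_parallel h) rfl hf)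
  · intro q h h' h1 h2 h3
    have e1 : (q : D.Cell 2).1.2 1 = elb h.1 := elb_parallel h1
    have e2 : (q : D.Cell 2).1.2 0 = elb h'.1 := elb_parallel h2
    refine square_of_cross rfl h3.symm ?_
    rw [← e1, ← e2]
    exact q.2.2.1 1 0 (by simp)

theorem toCube_isCompact (D : LabelData) [Finite D.P] [Finite D.L] : D.toCube.IsCompact := by
  have hn : ∀ (n : ℕ) (_ : D.Cell n), n < Nat.card D.L + 1 := by
    intro n c
    have := Nat.card_le_card_of_injective _ c.2.1.injective
    rw [Nat.card_fin] at this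
    omega
  let F : (Σ n, D.Cell n) → Σ n : Fin (Nat.card D.L + 1), D.P × (Fin n → D.L) :=
    fun x => ⟨⟨x.1, hn x.1 x.2⟩, x.2.1⟩
  have hF : Function.Injective F := by
    rintro ⟨n, c⟩ ⟨m, c'⟩ h
    simp only [F, Sigma.mk.injEq, Fin.mk.injEq] at h
    obtain ⟨h1, h2⟩ := h
    subst h1
    simp only [heq_eq_eq] at h2
    have : c = c' := Subtype.ext h2
    rw [this]
  exact Finite.of_injective F hF

end LabelData

/-- the vertex `p` of the explicit complex -/
def dvert (p : Fin 3) : theData.toCube.cell 0 :=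
  ⟨((p : Fin 3), Fin.elim0), fun i => i.elim0, fun i => i.elim0, fun i => i.elim0⟩

theorem exists_path_succ (p : Fin 3) : ∃ l, theData.toCube.IsPath (dvert p) l (dvert (p + 1)) := by
  have ho : ∀ p : Fin 3, lout p ((![6, 7, 8] : Fin 3 → Fin 10) p) = true := by decide
  have hm : ∀ p : Fin 3, lmove p ((![6, 7, 8] : Fin 3 → Fin 10) p) = p + 1 := by decide
  let e : theData.Cell 1 := ⟨(p, fun _ => (![6, 7, 8] : Fin 3 → Fin 10) p),
    Subsingleton.strictMono _, fun i j h => absurd (Subsingleton.elim i j) h, fun _ => ho p⟩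
  refine ⟨[(e, false)], LabelData.cell0_ext rfl, LabelData.cell0_ext ?_⟩
  exact hm p

theorem theData_connected : theData.toCube.IsConnected := by
  refine ⟨⟨dvert 0⟩, ?_⟩
  have h : ∀ p q : Fin 3, ∃ l, theData.toCube.IsPath (dvert p) l (dvert q) := by
    obtain ⟨l0, h0⟩ := exists_path_succ 0
    obtain ⟨l1, h1⟩ := exists_path_succ 1
    obtain ⟨l2, h2⟩ := exists_path_succ 2
    have e0 : ((0 : Fin 3) + 1) = 1 := rfl
    have e1 : ((1 : Fin 3) + 1) = 2 := rfl
    have e2 : ((2 : Fin 3) + 1) = 0 := rfl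
    rw [e0] at h0
    rw [e1] at h1
    rw [e2] at h2
    intro p q
    fin_cases p <;> fin_cases q
    · exact ⟨[], rfl⟩
    · exact ⟨_, h0⟩
    · exact ⟨_, h0.append h1⟩
    · exact ⟨_, h1.append h2⟩
    · exact ⟨[], rfl⟩
    · exact ⟨_, h1⟩
    · exact ⟨_, h2⟩
    · exact ⟨_, h2.append h0⟩
    · exact ⟨[], rfl⟩
  have hs : ∀ p : theData.toCube.cell 0, ∃ a : Fin 3, p = dvert a :=
    fun p => ⟨(p : theData.Cell 0).1.1, LabelData.cell0_ext rfl⟩
  intro p q
  obtain ⟨a, rfl⟩ := hs p
  obtain ⟨b, rfl⟩ := hs q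
  exact h a b

end Pool.Agent.Lib.MP_944c19_al
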