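import Pool.Agent.Lib.MP_944c19_al.MorseDefs
set_option autoImplicit false
namespace Pool.Agent.Lib.MP_944c19_al

section WordMetric

variable {H : Type*} [Group H] {S : Set H}

theorem wd_le (g : H) (l : List H) (hl : ∀ x ∈ l, x ∈ S ∨ x⁻¹ ∈ S) :
    wordDist S g (g * l.prod) ≤ l.length :=
  Nat.sInf_le ⟨l, rfl, hl, rfl⟩

theorem wd_exists_list (hgen : Subgroup.closure S = ⊤) (u : H) :
    ∃ l : List H, (∀ x ∈ l, x ∈ S ∨ x⁻¹ ∈ S) ∧ l.prod = u := by
  have hu : u ∈ Subgroup.closure S := by rw [hgen]; exact Subgroup.mem_top u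
  induction hu using Subgroup.closure_induction with
  | mem x hx => exact ⟨[x], by simp [hx], by simp⟩
  | one => exact ⟨[], by simp, by simp⟩
  | mul x y _ _ hx hy =>
    obtain ⟨l, h1, h2⟩ := hx
    obtain ⟨m, h3, h4⟩ := hy
    refine ⟨l ++ m, ?_, by simp [h2, h4]⟩
    intro w hw
    rcases List.mem_append.1 hw with h | h
    · exact h1 w h
    · exact h3 w h
  | inv x _ hx =>
    obtain ⟨l, h1, h2⟩ := hx
    refine ⟨(l.map (fun w => w⁻¹)).reverse, ?_, by rw [← List.prod_inv_reverse, h2]⟩
    intro w hw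
    simp only [List.mem_reverse, List.mem_map] at hw
    obtain ⟨v, hv, rfl⟩ := hw
    rcases h1 v hv with h | h
    · right; simpa using h
    · left; exact h

theorem wd_attained (hgen : Subgroup.closure S = ⊤) (g h : H) :
    ∃ l : List H, l.length = wordDist S g h ∧ (∀ x ∈ l, x ∈ S ∨ x⁻¹ ∈ S) ∧ g * l.prod = h := by
  have hne : {n | ∃ l : List H, l.length = n ∧ (∀ x ∈ l, x ∈ S ∨ x⁻¹ ∈ S) ∧
      g * l.prod = h}.Nonempty := by
    obtain ⟨l, h1, h2⟩ := wd_exists_list hgen (g⁻¹ * h)
    exact ⟨l.length, l, rfl, h1, by rw [h2]; group⟩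
  exact Nat.sInf_mem hne

theorem wd_self (g : H) : wordDist S g g = 0 := by
  have := wd_le (S := S) g [] (by simp)
  simpa using this

theorem wd_mul_left (k g h : H) : wordDist S (k * g) (k * h) = wordDist S g h := by
  unfold wordDist
  congr 1
  ext n
  constructor
  · rintro ⟨l, h1, h2, h3⟩
    refine ⟨l, h1, h2, ?_⟩
    rw [mul_assoc] at h3
    exact mul_left_cancel h3
  · rintro ⟨l, h1, h2, h3⟩
    exact ⟨l, h1, h2, by rw [mul_assoc, h3]⟩

theorem wd_symm_le (hgen : Subgroup.closure S = ⊤) (g h : H) :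
    wordDist S h g ≤ wordDist S g h := by
  obtain ⟨l, h1, h2, h3⟩ := wd_attained hgen g h
  rw [← h1]
  refine Nat.sInf_le ⟨(l.map (fun w => w⁻¹)).reverse, by simp, ?_, ?_⟩
  · intro w hw
    simp only [List.mem_reverse, List.mem_map] at hw
    obtain ⟨v, hv, rfl⟩ := hw
    rcases h2 v hv with h | h
    · right; simpa using h
    · left; exact h
  · rw [← List.prod_inv_reverse, ← h3]; group

theorem wd_symm (hgen : Subgroup.closure S = ⊤) (g h : H) :
    wordDist S h g = wordDist S g h :=
  le_antisymm (wd_symm_le hgen g h) (wd_symm_le hgen h g)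

theorem wd_triangle (hgen : Subgroup.closure S = ⊤) (g h k : H) :
    wordDist S g k ≤ wordDist S g h + wordDist S h k := by
  obtain ⟨l, h1, h2, h3⟩ := wd_attained hgen g h
  obtain ⟨m, h4, h5, h6⟩ := wd_attained hgen h k
  rw [← h1, ← h4, ← List.length_append]
  refine Nat.sInf_le ⟨l ++ m, rfl, ?_, by rw [List.prod_append, ← mul_assoc, h3, h6]⟩
  intro w hw
  rcases List.mem_append.1 hw with h | h
  · exact h2 w h
  · exact h5 w h

/-- balls are finite -/
theorem wd_ball_finite (hS : S.Finite) (hgen : Subgroup.closure S = ⊤) (M : ℕ) :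
    {u : H | wordDist S 1 u ≤ M}.Finite := by
  have hT : {x : H | x ∈ S ∨ x⁻¹ ∈ S}.Finite := by
    have h2 : {x : H | x⁻¹ ∈ S}.Finite := hS.preimage (inv_injective.injOn)
    exact (hS.union h2).subset (fun x hx => hx)
  have hL : {l : List H | l.length ≤ M ∧ ∀ x ∈ l, x ∈ {x : H | x ∈ S ∨ x⁻¹ ∈ S}}.Finite := by
    have hfin : Finite {x : H | x ∈ S ∨ x⁻¹ ∈ S} := hT.to_subtype
    have h3 := List.finite_length_le {x : H | x ∈ S ∨ x⁻¹ ∈ S} M
    refine (h3.image (fun l => l.map Subtype.val)).subset ?_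
    rintro l ⟨h4, h5⟩
    refine ⟨l.attach.map (fun x => ⟨x.1, h5 x.1 x.2⟩), ?_, ?_⟩
    · simpa using h4
    · simp [List.map_map, Function.comp_def]
  refine (hL.image List.prod).subset ?_
  intro u hu
  obtain ⟨l, h1, h2, h3⟩ := wd_attained hgen 1 u
  refine ⟨l, ⟨?_, h2⟩, by simpa using h3⟩
  rw [h1]; exact hu

/-- geodesics from `1` -/
theorem wd_geodesic (hgen : Subgroup.closure S = ⊤) (c : H) :
    ∃ p : ℕ → H, p 0 = 1 ∧ p (wordDist S 1 c) = c ∧
      (∀ i ≤ wordDist S 1 c, wordDist S 1 (p i) = i) ∧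
      ∀ i j, i ≤ j → j ≤ wordDist S 1 c → wordDist S (p i) (p j) = j - i := by
  obtain ⟨l, h1, h2, h3⟩ := wd_attained hgen 1 c
  have hle : ∀ i j, i ≤ j → j ≤ wordDist S 1 c →
      wordDist S ((l.take i).prod) ((l.take j).prod) ≤ j - i := by
    intro i j hij hj
    have h4 : l.take j = l.take i ++ (l.drop i).take (j - i) := by
      conv_lhs => rw [show j = i + (j - i) by omega]
      rw [List.take_add]
    have h5 : (l.take j).prod = (l.take i).prod * ((l.drop i).take (j - i)).prod := by
      rw [h4, List.prod_append]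
    rw [h5]
    refine (wd_le _ _ ?_).trans ?_
    · intro x hx
      exact h2 x (List.mem_of_mem_drop (List.mem_of_mem_take hx))
    · simp
  have hN : (l.take (wordDist S 1 c)).prod = c := by
    rw [← h1, List.take_length]; simpa using h3
  have heq : ∀ i j, i ≤ j → j ≤ wordDist S 1 c →
      wordDist S ((l.take i).prod) ((l.take j).prod) = j - i := by
    intro i j hij hj
    refine le_antisymm (hle i j hij hj) ?_
    have h6 := hle 0 i (Nat.zero_le _) (hij.trans hj)
    have h7 := hle j (wordDist S 1 c) hj le_rfl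
    rw [hN] at h7
    have h8 := wd_triangle hgen (l.take 0).prod (l.take i).prod c
    have h9 := wd_triangle hgen (l.take i).prod (l.take j).prod c
    simp only [List.take_zero, List.prod_nil] at h6 h8
    omega
  refine ⟨fun i => (l.take i).prod, by simp, hN, ?_, heq⟩
  intro i hi
  have := heq 0 i (Nat.zero_le _) hi
  simpa using this

end WordMetric

section Detour

variable {H : Type*} [Group H] {S : Set H}

/-- The detour: the geodesic `p` from `1` to `c`, then `c * z ^ k`, then back to `z ^ n`. -/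
def detour (p : ℕ → H) (c z : H) (a n : ℕ) (i : ℕ) : H :=
  if i ≤ a then p i else if i ≤ a + n then c * z ^ (i - a) else z ^ n * p (2 * a + n - i)

theorem detour_one {p : ℕ → H} {c z : H} {a n i : ℕ} (hi : i ≤ a) :
    detour p c z a n i = p i := by
  unfold detour; rw [if_pos hi]

theorem detour_two {p : ℕ → H} {c z : H} {a n i : ℕ} (hp : p a = c) (h1 : a ≤ i)
    (h2 : i ≤ a + n) : detour p c z a n i = c * z ^ (i - a) := by
  unfold detour
  by_cases h : i ≤ a
  · have : i = a := le_antisymm h h1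
    subst this
    simp [hp]
  · rw [if_neg h, if_pos h2]

theorem detour_three {p : ℕ → H} {c z : H} {a n i : ℕ} (hp : p a = c) (hc : c * z = z * c)
    (h1 : a + n ≤ i) : detour p c z a n i = z ^ n * p (2 * a + n - i) := by
  by_cases h : i = a + n
  · subst h
    rw [detour_two hp (by omega) le_rfl]
    have h3 : 2 * a + n - (a + n) = a := by omega
    rw [h3, hp, Nat.add_sub_cancel_left]
    exact ((show Commute c z from hc).pow_right n)
  · unfold detour
    by_cases h' : i ≤ a
    · omega
    · rw [if_neg h', if_neg (by omega)]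

theorem detour_step (hgen : Subgroup.closure S = ⊤) {p : ℕ → H} {c z : H} {a n : ℕ}
    (hp : p a = c) (hc : c * z = z * c)
    (hg : ∀ i j, i ≤ j → j ≤ a → wordDist S (p i) (p j) = j - i) (i : ℕ)
    (hi : i + 1 ≤ 2 * a + n) :
    wordDist S (detour p c z a n i) (detour p c z a n (i + 1)) ≤ max 1 (wordDist S 1 z) := by
  rcases Nat.lt_or_ge i a with h | h
  · rw [detour_one (by omega), detour_one (by omega), hg i (i + 1) (by omega) (by omega)]
    refine le_trans ?_ (le_max_left _ _)
    omega
  · rcases Nat.lt_or_ge i (a + n) with h' | h'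
    · rw [detour_two hp (by omega) (by omega), detour_two hp (by omega) (by omega)]
      have h3 : i + 1 - a = (i - a) + 1 := by omega
      have h4 : wordDist S (c * z ^ (i - a)) (c * z ^ (i - a) * z) = wordDist S 1 z := by
        have := wd_mul_left (S := S) (c * z ^ (i - a)) 1 z
        simpa using this
      rw [h3, pow_succ, ← mul_assoc, h4]
      exact le_max_right _ _
    · rw [detour_three hp hc (by omega), detour_three hp hc (by omega), wd_mul_left]
      have h5 : wordDist S (p (2 * a + n - i)) (p (2 * a + n - (i + 1))) = 1 := by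
        rw [wd_symm hgen, hg _ _ (by omega) (by omega)]
        omega
      rw [h5]
      exact le_max_left _ _

theorem detour_upper (hgen : Subgroup.closure S = ⊤) {p : ℕ → H} {c z : H} {a n : ℕ}
    (hp : p a = c) (hc : c * z = z * c)
    (hg : ∀ i j, i ≤ j → j ≤ a → wordDist S (p i) (p j) = j - i) (i m : ℕ)
    (hi : i + m ≤ 2 * a + n) :
    wordDist S (detour p c z a n i) (detour p c z a n (i + m)) ≤
      max 1 (wordDist S 1 z) * m := by
  induction m with
  | zero => simp [wd_self]
  | succ m ih =>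
    have h1 := ih (by omega)
    have h2 := detour_step hgen hp hc hg (i + m) (by omega) (n := n)
    have h3 := wd_triangle hgen (detour p c z a n i) (detour p c z a n (i + m))
      (detour p c z a n (i + (m + 1)))
    rw [← add_assoc] at h3 ⊢
    calc _ ≤ _ := h3
      _ ≤ max 1 (wordDist S 1 z) * m + max 1 (wordDist S 1 z) := add_le_add h1 h2
      _ = _ := by ring

theorem detour_lower (hgen : Subgroup.closure S = ⊤) {p : ℕ → H} {c z : H} {a n : ℕ} {δ : ℝ}
    (hδ : 0 < δ) (hδ1 : δ ≤ 1)
    (hp0 : p 0 = 1) (hp : p a = c) (hc : c * z = z * c)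
    (hg : ∀ i j, i ≤ j → j ≤ a → wordDist S (p i) (p j) = j - i)
    (hmin : ∀ k : ℤ, a ≤ wordDist S 1 (c * z ^ k))
    (hgrow : ∀ n : ℕ, δ * n ≤ wordDist S 1 (z ^ n))
    (hn : 4 * (a : ℝ) ≤ δ * n) (i j : ℕ) (hij : i ≤ j)
    (hj : j ≤ 2 * a + n) :
    δ / 4 * ((j : ℝ) - i) ≤ wordDist S (detour p c z a n i) (detour p c z a n j) := by
  have hone : ∀ i ≤ a, wordDist S 1 (p i) = i := by
    intro i hi
    have := hg 0 i (Nat.zero_le _) hi
    rw [hp0] at this
    simpa using this
  have hpc : ∀ i ≤ a, wordDist S (p i) c = a - i := by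
    intro i hi
    have := hg i a hi le_rfl
    rwa [hp] at this
  have hji : (i : ℝ) ≤ j := by exact_mod_cast hij
  rcases Nat.lt_or_ge a j with h | h
  · rcases Nat.lt_or_ge (a + n) j with h' | h'
    · -- j in the third part
      obtain ⟨m, rfl⟩ : ∃ m, j = a + n + m := ⟨j - (a + n), by omega⟩
      have hma : m ≤ a := by omega
      have hsub : 2 * a + n - (a + n + m) = a - m := by omega
      rw [detour_three (i := a + n + m) hp hc (by omega), hsub]
      rcases Nat.lt_or_ge i a with hi | hi
      · -- i in the first part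
        rw [detour_one hi.le]
        have t1 := wd_triangle hgen 1 (p i) (z ^ n)
        have t2 := wd_triangle hgen (p i) (z ^ n * p (a - m)) (z ^ n)
        have t3 : wordDist S (z ^ n * p (a - m)) (z ^ n) = a - m := by
          have := wd_mul_left (S := S) (z ^ n) (p (a - m)) 1
          rw [mul_one] at this
          rw [this, wd_symm hgen, hone _ (by omega)]
        rw [hone i hi.le] at t1
        rw [t3] at t2
        have t4 := hgrow n
        have t5 : (wordDist S 1 (z ^ n) : ℝ) ≤ i + (wordDist S (p i) (z ^ n * p (a - m)) : ℝ)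
            + ((a - m : ℕ) : ℝ) := by
          have : wordDist S 1 (z ^ n) ≤ i + wordDist S (p i) (z ^ n * p (a - m)) + (a - m) := by
            omega
          exact_mod_cast this
        have t6 : ((a - m : ℕ) : ℝ) ≤ a := by exact_mod_cast Nat.sub_le _ _
        have t7 : (i : ℝ) ≤ a := by exact_mod_cast hi.le
        have t8 : (m : ℝ) ≤ a := by exact_mod_cast hma
        have hnn : (0 : ℝ) ≤ n := Nat.cast_nonneg n
        have haa : (0 : ℝ) ≤ a := Nat.cast_nonneg a
        have hii : (0 : ℝ) ≤ i := Nat.cast_nonneg i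
        push_cast
        nlinarith
      · rcases Nat.lt_or_ge (a + n) i with hi' | hi'
        · -- i in the third part
          obtain ⟨k, rfl⟩ : ∃ k, i = a + n + k := ⟨i - (a + n), by omega⟩
          have hsub' : 2 * a + n - (a + n + k) = a - k := by omega
          rw [detour_three hp hc (by omega), hsub', wd_mul_left, wd_symm hgen,
            hg _ _ (by omega) (by omega)]
          have : (a - k) - (a - m) = m - k := by omega
          rw [this, Nat.cast_sub (by omega)]
          have hkm : (k : ℝ) ≤ m := by exact_mod_cast (by omega : k ≤ m)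
          push_cast
          nlinarith
        · -- i in the second part
          obtain ⟨k, rfl⟩ : ∃ k, i = a + k := ⟨i - a, by omega⟩
          have hkn : k ≤ n := by omega
          rw [detour_two hp (by omega) (by omega), Nat.add_sub_cancel_left]
          -- translate by z ^ (-n)
          have hcz : Commute c z := hc
          have e1 : wordDist S (c * z ^ k) (z ^ n * p (a - m)) =
              wordDist S (c * z ^ (-((n - k : ℕ) : ℤ))) (p (a - m)) := by
            have e2 : c * z ^ k = z ^ n * (c * z ^ (-((n - k : ℕ) : ℤ))) := by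
              have e3 : z ^ n * (c * z ^ (-((n - k : ℕ) : ℤ))) =
                  c * (z ^ n * z ^ (-((n - k : ℕ) : ℤ))) := by
                rw [← mul_assoc, ← (hcz.pow_right n).eq, mul_assoc]
              rw [e3, ← zpow_natCast z n, ← zpow_add, ← zpow_natCast z k]
              congr 2
              push_cast [Nat.cast_sub hkn]
              ring
            rw [e2, wd_mul_left]
          rw [e1]
          set w := c * z ^ (-((n - k : ℕ) : ℤ)) with hw
          have t1 := wd_triangle hgen 1 (p (a - m)) w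
          have t2 := wd_triangle hgen c (p (a - m)) w
          have t3 : wordDist S c w = wordDist S 1 (z ^ (n - k)) := by
            have e5 := wd_mul_left (S := S) c 1 (z ^ (-((n - k : ℕ) : ℤ)))
            rw [mul_one] at e5
            rw [hw, e5]
            have e6 := wd_mul_left (S := S) (z ^ (n - k)) 1 (z ^ (-((n - k : ℕ) : ℤ)))
            rw [mul_one, zpow_neg, zpow_natCast, mul_inv_cancel] at e6
            rw [zpow_neg, zpow_natCast, ← e6, wd_symm hgen]
          have t4 := hmin (-((n - k : ℕ) : ℤ))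
          rw [← hw] at t4
          have t5 := hgrow (n - k)
          rw [hone _ (by omega)] at t1
          have t6 : wordDist S c (p (a - m)) = m := by
            rw [wd_symm hgen, hpc _ (by omega)]; omega
          rw [t6, t3] at t2
          rw [wd_symm hgen (p (a - m)) w]
          have u1 : m ≤ wordDist S (p (a - m)) w := by omega
          have u2 : (m : ℝ) ≤ wordDist S (p (a - m)) w := by exact_mod_cast u1
          have u3 : (wordDist S 1 (z ^ (n - k)) : ℝ) ≤ m + wordDist S (p (a - m)) w := by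
            exact_mod_cast t2
          have u4 : ((n - k : ℕ) : ℝ) = n - k := by rw [Nat.cast_sub hkn]
          rw [u4] at t5
          have hmm : (0 : ℝ) ≤ m := Nat.cast_nonneg m
          push_cast
          nlinarith
    · -- j in the second part
      obtain ⟨l, rfl⟩ : ∃ l, j = a + l := ⟨j - a, by omega⟩
      rw [detour_two hp (by omega) (by omega) (i := a + l), Nat.add_sub_cancel_left]
      rcases Nat.lt_or_ge i a with hi | hi
      · -- i in the first part
        rw [detour_one hi.le]
        have t1 := wd_triangle hgen 1 (p i) (c * z ^ l)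
        have t2 := wd_triangle hgen c (p i) (c * z ^ l)
        have t3 : wordDist S c (c * z ^ l) = wordDist S 1 (z ^ l) := by
          have := wd_mul_left (S := S) c 1 (z ^ l)
          rwa [mul_one] at this
        have t4 := hmin l
        rw [zpow_natCast] at t4
        have t5 := hgrow l
        rw [hone i hi.le] at t1
        rw [t3, wd_symm hgen (p i) c, hpc i hi.le] at t2
        have u1 : (a : ℝ) ≤ i + wordDist S (p i) (c * z ^ l) := by
          exact_mod_cast t4.trans t1
        have u2 : (wordDist S 1 (z ^ l) : ℝ) ≤ ((a : ℝ) - i) + wordDist S (p i) (c * z ^ l) := by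
          rw [← Nat.cast_sub hi.le]
          exact_mod_cast t2
        have hia : (i : ℝ) ≤ a := by exact_mod_cast hi.le
        push_cast
        nlinarith
      · obtain ⟨k, rfl⟩ : ∃ k, i = a + k := ⟨i - a, by omega⟩
        rw [detour_two hp (by omega) (by omega), Nat.add_sub_cancel_left]
        have e1 : wordDist S (c * z ^ k) (c * z ^ l) = wordDist S 1 (z ^ (l - k)) := by
          have := wd_mul_left (S := S) (c * z ^ k) 1 (z ^ (l - k))
          rw [mul_one, mul_assoc, ← pow_add, show k + (l - k) = l by omega] at this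
          exact this
        rw [e1]
        have t5 := hgrow (l - k)
        rw [Nat.cast_sub (by omega)] at t5
        have hkl : (k : ℝ) ≤ l := by exact_mod_cast (by omega : k ≤ l)
        push_cast
        nlinarith
  · rw [detour_one h, detour_one (hij.trans h), hg i j hij h, Nat.cast_sub hij]
    nlinarith

end Detour

theorem relIndex_ne_zero_of_isMorse {H : Type*} [Group H] {S : Set H} (hS : S.Finite)
    (hgen : Subgroup.closure S = ⊤) {K : Subgroup H} (hK : IsMorse S K) {z : H} (hz : z ∈ K)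
    (hcomm : ∀ k ∈ K, k * z = z * k) {δ : ℝ} (hδ : 0 < δ)
    (hgrow : ∀ n : ℕ, δ * n ≤ wordDist S 1 (z ^ n)) :
    K.relIndex (Subgroup.centralizer {z}) ≠ 0 := by
  classical
  -- replace `δ` by `ε ≤ 1`
  set ε : ℝ := min δ 1 with hε
  have hε0 : 0 < ε := lt_min hδ one_pos
  have hε1 : ε ≤ 1 := min_le_right _ _
  have hgrow' : ∀ n : ℕ, ε * n ≤ wordDist S 1 (z ^ n) := fun n =>
    (mul_le_mul_of_nonneg_right (min_le_left _ _) (Nat.cast_nonneg n)).trans (hgrow n)
  set B : ℕ := max 1 (wordDist S 1 z) with hB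
  set lam : ℝ := max (B : ℝ) (4 / ε) with hlam
  have hlamB : (B : ℝ) ≤ lam := le_max_left _ _
  have hB1 : (1 : ℝ) ≤ B := by exact_mod_cast le_max_left _ _
  have hlam1 : 1 ≤ lam := hB1.trans hlamB
  have hlamε : 4 / ε ≤ lam := le_max_right _ _
  obtain ⟨M, hM⟩ := hK lam lam hlam1 (by linarith)
  -- the key claim
  have key : ∀ c : H, c * z = z * c → (∀ k : ℤ, wordDist S 1 c ≤ wordDist S 1 (c * z ^ k)) →
      ∃ k ∈ K, (wordDist S c k : ℝ) ≤ M := by
    intro c hc hmin
    obtain ⟨p, hp0, hp, hone, hg⟩ := wd_geodesic hgen c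
    set a := wordDist S 1 c with ha
    obtain ⟨n, hn⟩ : ∃ n : ℕ, 4 * (a : ℝ) / ε ≤ n := exists_nat_ge _
    have hn' : 4 * (a : ℝ) ≤ ε * n := by
      rw [div_le_iff₀ hε0] at hn
      linarith
    set q := detour p c z a n with hq
    have hlow : ∀ i j : ℕ, i ≤ j → j ≤ 2 * a + n →
        ε / 4 * ((j : ℝ) - i) ≤ wordDist S (q i) (q j) := fun i j hij hj =>
      detour_lower hgen hε0 hε1 hp0 hp hc hg hmin hgrow' hn' i j hij hj
    have hup : ∀ i j : ℕ, i ≤ j → j ≤ 2 * a + n →
        (wordDist S (q i) (q j) : ℝ) ≤ B * ((j : ℝ) - i) := by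
      intro i j hij hj
      obtain ⟨m, rfl⟩ := Nat.exists_eq_add_of_le hij
      have := detour_upper hgen hp hc hg i m hj
      have h2 : (wordDist S (q i) (q (i + m)) : ℝ) ≤ B * m := by exact_mod_cast this
      push_cast
      linarith
    set L : ℝ := ((2 * a + n : ℕ) : ℝ) with hL
    set f : ℝ → H := fun t => q ⌊t⌋₊ with hf
    have hwlog : ∀ s t : ℝ, 0 ≤ s → s ≤ t → t ≤ L →
        (t - s) / lam - lam ≤ wordDist S (f s) (f t) ∧
        (wordDist S (f s) (f t) : ℝ) ≤ lam * (t - s) + lam := by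
      intro s t hs hst htL
      have hfl : ⌊s⌋₊ ≤ ⌊t⌋₊ := Nat.floor_le_floor hst
      have hfL : ⌊t⌋₊ ≤ 2 * a + n := by
        rw [← Nat.floor_natCast (R := ℝ) (2 * a + n)]
        exact Nat.floor_le_floor htL
      have h1 := hlow _ _ hfl hfL
      have h2 := hup _ _ hfl hfL
      have b1 := Nat.floor_le hs
      have b2 := Nat.lt_floor_add_one s
      have b3 := Nat.floor_le (hs.trans hst)
      have b4 := Nat.lt_floor_add_one t
      have hd0 : (0 : ℝ) ≤ wordDist S (f s) (f t) := Nat.cast_nonneg _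
      have hfl' : ((⌊s⌋₊ : ℕ) : ℝ) ≤ (⌊t⌋₊ : ℕ) := by exact_mod_cast hfl
      constructor
      · -- lower bound
        have hinv : 1 / lam ≤ ε / 4 := by
          rw [div_le_iff₀ (by linarith)]
          rw [div_le_iff₀ hε0] at hlamε
          nlinarith
        have hinv0 : 0 ≤ 1 / lam := by positivity
        have hinv1 : 1 / lam ≤ 1 := by
          rw [div_le_one (by linarith)]; exact hlam1
        have h3 : (1 / lam) * (((⌊t⌋₊ : ℕ) : ℝ) - (⌊s⌋₊ : ℕ)) ≤
            wordDist S (q ⌊s⌋₊) (q ⌊t⌋₊) :=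
          (mul_le_mul_of_nonneg_right hinv (by linarith)).trans h1
        have h4 : (t - s) / lam = (1 / lam) * (t - s) := by ring
        rw [h4]
        have h5 : (1 / lam) * (t - s) ≤
            (1 / lam) * ((((⌊t⌋₊ : ℕ) : ℝ) - (⌊s⌋₊ : ℕ)) + 1) :=
          mul_le_mul_of_nonneg_left (by linarith) hinv0
        have h6 : (1 / lam) * (t - s) - lam ≤ wordDist S (q ⌊s⌋₊) (q ⌊t⌋₊) := by
          linarith [mul_add (1 / lam) (((⌊t⌋₊ : ℕ) : ℝ) - (⌊s⌋₊ : ℕ)) 1]
        exact h6
      · have h3 : (wordDist S (q ⌊s⌋₊) (q ⌊t⌋₊) : ℝ) ≤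
            lam * ((((⌊t⌋₊ : ℕ) : ℝ) - (⌊s⌋₊ : ℕ))) :=
          h2.trans (mul_le_mul_of_nonneg_right hlamB (by linarith))
        have h4 : lam * ((((⌊t⌋₊ : ℕ) : ℝ) - (⌊s⌋₊ : ℕ))) ≤ lam * ((t - s) + 1) :=
          mul_le_mul_of_nonneg_left (by linarith) (by linarith)
        have h5 : (wordDist S (q ⌊s⌋₊) (q ⌊t⌋₊) : ℝ) ≤ lam * (t - s) + lam := by
          linarith [mul_add lam (t - s) 1]
        exact h5
    have hqg : IsQuasiGeodesic S lam lam L f := by
      intro s hs t ht
      rcases le_total s t with h | h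
      · have := hwlog s t hs.1 h ht.2
        rw [abs_sub_comm, abs_of_nonneg (by linarith)]
        exact this
      · have := hwlog t s ht.1 h hs.2
        rw [abs_of_nonneg (by linarith), wd_symm hgen]
        exact this
    have h0 : f 0 ∈ K := by
      simp only [hf, hq, Nat.floor_zero]
      rw [detour_one (Nat.zero_le _), hp0]
      exact K.one_mem
    have hLK : f L ∈ K := by
      simp only [hf, hq, hL, Nat.floor_natCast]
      rw [detour_three hp hc (by omega)]
      have : 2 * a + n - (2 * a + n) = 0 := by omega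
      rw [this, hp0, mul_one]
      exact K.pow_mem hz n
    have ha' : (a : ℝ) ∈ Set.Icc 0 L := by
      refine ⟨Nat.cast_nonneg a, ?_⟩
      rw [hL]
      exact_mod_cast (by omega : a ≤ 2 * a + n)
    obtain ⟨k, hk, hkM⟩ := hM L f (Nat.cast_nonneg _) hqg h0 hLK a ha'
    have hfa : f a = c := by
      simp only [hf, hq, Nat.floor_natCast]
      rw [detour_one le_rfl, hp]
    rw [hfa] at hkM
    exact ⟨k, hk, hkM⟩
  -- every element of the centralizer lies in `u * K` with `u` in a finite ball
  have hcov : ∀ c ∈ Subgroup.centralizer {z}, ∃ u : H, wordDist S 1 u ≤ ⌊M⌋₊ ∧ u⁻¹ * c ∈ K := by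
    intro c hc
    have hcz : c⁻¹ * z = z * c⁻¹ := by
      have h1 : z * c = c * z := Subgroup.mem_centralizer_iff.1 hc z rfl
      exact ((show Commute z c from h1).inv_right.eq).symm
    -- the shortest element in `c⁻¹ * z ^ j`
    obtain ⟨j, hj⟩ : ∃ j : ℤ, ∀ k : ℤ, wordDist S 1 (c⁻¹ * z ^ j) ≤ wordDist S 1 (c⁻¹ * z ^ k) := by
      have hne : (Set.range fun k : ℤ => wordDist S 1 (c⁻¹ * z ^ k)).Nonempty := ⟨_, 0, rfl⟩
      obtain ⟨j, hj⟩ := Nat.sInf_mem hne
      refine ⟨j, fun k => ?_⟩
      have h2 : sInf (Set.range fun k : ℤ => wordDist S 1 (c⁻¹ * z ^ k)) ≤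
          wordDist S 1 (c⁻¹ * z ^ k) := Nat.sInf_le ⟨k, rfl⟩
      simp only at hj
      rw [hj]; exact h2
    have hcomm' : Commute c⁻¹ z := hcz
    have hc' : (c⁻¹ * z ^ j) * z = z * (c⁻¹ * z ^ j) :=
      (Commute.mul_left hcomm' ((Commute.refl z).zpow_left j)).eq
    obtain ⟨k, hk, hkM⟩ := key (c⁻¹ * z ^ j) hc' (by
      intro k
      rw [mul_assoc, ← zpow_add]
      exact hj _)
    refine ⟨(k⁻¹ * (c⁻¹ * z ^ j))⁻¹, ?_, ?_⟩
    · have h3 : wordDist S 1 (k⁻¹ * (c⁻¹ * z ^ j))⁻¹ = wordDist S (c⁻¹ * z ^ j) k := by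
        have e1 := wd_mul_left (S := S) (k⁻¹ * (c⁻¹ * z ^ j)) 1 (k⁻¹ * (c⁻¹ * z ^ j))⁻¹
        rw [mul_one, mul_inv_cancel] at e1
        have e2 := wd_mul_left (S := S) k⁻¹ (c⁻¹ * z ^ j) k
        rw [inv_mul_cancel] at e2
        rw [← e1, e2]
      rw [h3]
      exact Nat.le_floor hkM
    · have h4 : (k⁻¹ * (c⁻¹ * z ^ j))⁻¹⁻¹ * c = k⁻¹ * z ^ j := by
        have h5 : c⁻¹ * z ^ j = z ^ j * c⁻¹ := (hcomm'.zpow_right j).eq
        rw [inv_inv, h5]
        group
      rw [h4]
      exact K.mul_mem (K.inv_mem hk) (K.zpow_mem hz j)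
  have hball := wd_ball_finite (S := S) hS hgen ⌊M⌋₊
  have hfin : Finite {u : H | wordDist S 1 u ≤ ⌊M⌋₊} := hball.to_subtype
  have hquot : Finite (Subgroup.centralizer {z} ⧸ K.subgroupOf (Subgroup.centralizer {z})) := by
    have hex : ∀ x : Subgroup.centralizer {z} ⧸ K.subgroupOf (Subgroup.centralizer {z}),
        ∃ u : {u : H | wordDist S 1 u ≤ ⌊M⌋₊}, ∃ c : Subgroup.centralizer {z},
          (QuotientGroup.mk c : Subgroup.centralizer {z} ⧸
            K.subgroupOf (Subgroup.centralizer {z})) = x ∧ (u : H)⁻¹ * c ∈ K := by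
      intro x
      obtain ⟨c, rfl⟩ := QuotientGroup.mk_surjective x
      obtain ⟨u, hu, huc⟩ := hcov c c.2
      exact ⟨⟨u, hu⟩, c, rfl, huc⟩
    choose g hg using hex
    refine Finite.of_injective g ?_
    intro x y hxy
    obtain ⟨c, hc1, hc2⟩ := hg x
    obtain ⟨d, hd1, hd2⟩ := hg y
    rw [← hc1, ← hd1, QuotientGroup.eq, Subgroup.mem_subgroupOf]
    rw [hxy] at hc2
    have h6 := K.mul_mem (K.inv_mem hc2) hd2
    have h7 : ((g y : H)⁻¹ * (c : H))⁻¹ * ((g y : H)⁻¹ * (d : H)) = (c : H)⁻¹ * d := by group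
    rw [h7] at h6
    simpa using h6
  have : (K.subgroupOf (Subgroup.centralizer {z})).index ≠ 0 :=
    Subgroup.index_ne_zero_of_finite
  exact this

end Pool.Agent.Lib.MP_944c19_al
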