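import Pool.Agent.Lib.MP_944c19_al.Data
import Pool.Agent.Lib.MP_944c19_al.Big

/-!
# The edge path group of the explicit cube complex
-/

set_option autoImplicit false

namespace Pool.Agent.Lib.MP_944c19_al

open CubeComplex

namespace Pi1

/-! ### General facts on edge path groups -/

section General

variable {X : CubeComplex} {H : Type*} [Group H]

/-- the value of a path -/
def ev (w : X.cell 1 → H) (l : List (X.cell 1 × Bool)) : H :=
  (l.map fun x => bif x.2 then (w x.1)⁻¹ else w x.1).prod

theorem ev_nil (w : X.cell 1 → H) : ev w [] = 1 := rfl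

theorem ev_cons (w : X.cell 1 → H) (x : X.cell 1 × Bool) (l : List (X.cell 1 × Bool)) :
    ev w (x :: l) = (bif x.2 then (w x.1)⁻¹ else w x.1) * ev w l := by
  simp [ev]

theorem ev_append (w : X.cell 1 → H) (l l' : List (X.cell 1 × Bool)) :
    ev w (l ++ l') = ev w l * ev w l' := by
  simp [ev]

theorem ev_rev (w : X.cell 1 → H) (l : List (X.cell 1 × Bool)) :
    ev w (CubeComplex.rev l) = (ev w l)⁻¹ := by
  induction l with
  | nil => simp [CubeComplex.rev, ev]
  | cons x l ih =>
    rw [rev_cons, ev_append, ih, ev_cons, ev_cons, ev_nil]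
    cases x.2 <;> simp

/-- the square relations -/
def SqRel (w : X.cell 1 → H) : Prop :=
  ∀ q : X.cell 2, w (X.face 1 false q) * w (X.face 0 true q) =
    w (X.face 0 false q) * w (X.face 1 true q)

theorem ev_step {w : X.cell 1 → H} (hw : SqRel w) {l l' : List (X.cell 1 × Bool)}
    (h : X.Step l l') : ev w l = ev w l' := by
  cases h with
  | backtrack l₁ l₂ x =>
    rw [ev_append, ev_append, ev_cons, ev_cons]
    cases x.2 <;> simp
  | square l₁ l₂ q =>
    rw [ev_append, ev_append, ev_cons, ev_cons, ev_cons, ev_cons]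
    have := hw q
    simp only [cond_false]
    rw [← mul_assoc (w _) (w _), this, mul_assoc]

/-- the homomorphism from the edge path group -/
def evHom (p : X.cell 0) (w : X.cell 1 → H) (hw : SqRel w) : X.π₁ p →* H where
  toFun := Quot.lift (fun a => ev w a.1) (fun _ _ h => ev_step hw h)
  map_one' := rfl
  map_mul' a b := by
    induction a using π₁_ind with | h l hl => ?_
    induction b using π₁_ind with | h m hm => ?_
    exact ev_append w l m

theorem evHom_cl (p : X.cell 0) (w : X.cell 1 → H) (hw : SqRel w) (l : List (X.cell 1 × Bool))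
    (h : X.IsPath p l p) : evHom p w hw (cl l h) = ev w l := rfl

theorem cl_congr {p : X.cell 0} {l l' : List (X.cell 1 × Bool)} (h : X.IsPath p l p)
    (e : l = l') : cl l h = cl l' (e ▸ h) := by
  subst e; rfl

variable {b : X.cell 0} {g : X.cell 0 → List (X.cell 1 × Bool)} (hg : ∀ x, X.IsPath b (g x) x)

/-- the class of the closed path obtained from a path -/
def bc {p q : X.cell 0} {l : List (X.cell 1 × Bool)} (h : X.IsPath p l q) : X.π₁ b :=
  cl (g p ++ (l ++ CubeComplex.rev (g q))) ((hg p).append (h.append (hg q).rev))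

theorem bc_mul {p q r : X.cell 0} {l l' : List (X.cell 1 × Bool)} (h : X.IsPath p l q)
    (h' : X.IsPath q l' r) : bc hg h * bc hg h' = bc hg (h.append h') := by
  have h1 : X.IsPath b (g p ++ l) q := (hg p).append h
  have h2 : X.IsPath q (l' ++ CubeComplex.rev (g r)) b := h'.append (hg r).rev
  have h3 := mk_cancel h1 (hg q).rev h2
  unfold bc
  rw [mk_mul_mk]
  calc cl ((g p ++ (l ++ CubeComplex.rev (g q))) ++ (g q ++ (l' ++ CubeComplex.rev (g r)))) _
      = cl ((g p ++ l) ++ (CubeComplex.rev (g q) ++ (CubeComplex.rev (CubeComplex.rev (g q)) ++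
          (l' ++ CubeComplex.rev (g r))))) (h1.append ((hg q).rev.append ((hg q).rev.rev.append h2))) := by
        congr 1
        simp [rev_rev]
    _ = cl ((g p ++ l) ++ (l' ++ CubeComplex.rev (g r))) (h1.append h2) := h3
    _ = _ := by
        congr 1
        simp

theorem bc_nil (p : X.cell 0) (h : X.IsPath p [] p) : bc hg h = 1 := by
  unfold bc
  have h3 := mk_cancel (a := []) (b := []) (rfl : X.IsPath b [] b) (hg p) rfl
  simpa [one_def] using h3

theorem bc_step {p q : X.cell 0} {l l' : List (X.cell 1 × Bool)} (h : X.IsPath p l q)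
    (h' : X.IsPath p l' q) (hs : X.Step l l') : bc hg h = bc hg h' :=
  mk_eq_of_step _ _ ((hs.append_right _).append_left _)

/-- the class of an edge -/
def ec (e : X.cell 1) : X.π₁ b :=
  bc hg (p := X.face 0 false e) (q := X.face 0 true e) (l := [(e, false)]) ⟨rfl, rfl⟩

theorem ec_inv (e : X.cell 1) : bc hg (p := X.face 0 true e) (q := X.face 0 false e)
    (l := [(e, true)]) ⟨rfl, rfl⟩ = (ec hg e)⁻¹ := by
  rw [eq_inv_iff_mul_eq_one, ec, bc_mul, ← bc_nil hg (X.face 0 true e) rfl]
  exact bc_step hg _ _ (Step.backtrack [] [] (e, true))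

theorem ec_sq : SqRel (ec hg) := by
  intro q
  have f1 : X.face 0 true (X.face 1 false q) = X.face 0 false (X.face 0 true q) :=
    (X.face_face 0 0 true false q le_rfl)
  have f2 : X.face 0 true (X.face 0 false q) = X.face 0 false (X.face 1 true q) :=
    (X.face_face 0 0 false true q le_rfl).symm
  have f3 : X.face 0 false (X.face 1 false q) = X.face 0 false (X.face 0 false q) :=
    (X.face_face 0 0 false false q le_rfl)
  have f4 : X.face 0 true (X.face 1 true q) = X.face 0 true (X.face 0 true q) :=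
    (X.face_face 0 0 true true q le_rfl)
  have g1 : X.IsPath (X.face 0 false (X.face 1 false q)) [(X.face 1 false q, false)]
      (X.face 0 false (X.face 0 true q)) := ⟨rfl, f1⟩
  have g2 : X.IsPath (X.face 0 false (X.face 0 true q)) [(X.face 0 true q, false)]
      (X.face 0 true (X.face 0 true q)) := ⟨rfl, rfl⟩
  have g3 : X.IsPath (X.face 0 false (X.face 1 false q)) [(X.face 0 false q, false)]
      (X.face 0 false (X.face 1 true q)) := ⟨f3.symm, f2⟩
  have g4 : X.IsPath (X.face 0 false (X.face 1 true q)) [(X.face 1 true q, false)]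
      (X.face 0 true (X.face 0 true q)) := ⟨rfl, f4⟩
  have e1 : ec hg (X.face 1 false q) = bc hg g1 := by
    unfold ec
    congr 1
  have e3 : ec hg (X.face 0 false q) = bc hg g3 := by
    unfold ec
    congr 1
    exact f3.symm
  have e2 : ec hg (X.face 0 true q) = bc hg g2 := rfl
  have e4 : ec hg (X.face 1 true q) = bc hg g4 := by
    unfold ec
    congr 1
  rw [e1, e2, e3, e4, bc_mul, bc_mul]
  exact bc_step hg _ _ (Step.square [] [] q)

include hg in
/-- homomorphisms from the edge path group which agree on the classes of the edges are equal -/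
theorem hom_ext {f f' : X.π₁ b →* H} (hb : g b = [])
    (h : ∀ e, f (ec hg e) = f' (ec hg e)) : f = f' := by
  have key : ∀ (l : List (X.cell 1 × Bool)) (p q : X.cell 0) (hl : X.IsPath p l q),
      f (bc hg hl) = f' (bc hg hl) := by
    intro l
    induction l with
    | nil =>
      rintro p q (rfl : p = q)
      rw [bc_nil hg p, map_one, map_one]
    | cons x l ih =>
      intro p q hl
      obtain ⟨e, ε⟩ := x
      have h1 : X.IsPath p [(e, ε)] (X.face 0 (!ε) e) := ⟨hl.1, rfl⟩
      have h2 : bc hg hl = bc hg h1 * bc hg hl.2 := by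
        rw [bc_mul]
      rw [h2, map_mul, map_mul, ih]
      congr 1
      obtain ⟨rfl, h3⟩ := h1
      cases ε with
      | false => exact h e
      | true =>
        have := ec_inv hg e
        have h4 : bc hg (p := X.face 0 true e) (q := X.face 0 (!true) e)
          (l := [(e, true)]) ⟨rfl, h3⟩ = (ec hg e)⁻¹ := this
        rw [h4, map_inv, map_inv, h e]
  ext a
  induction a using π₁_ind with | h l hl => ?_
  have h1 := key l b b hl
  have h2 : bc hg hl = cl l hl := by
    unfold bc
    congr 1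
    rw [hb]
    simp [CubeComplex.rev]
  rwa [h2] at h1

theorem evHom_ec (w : X.cell 1 → H) (hw : SqRel w) (h1 : ∀ x, ev w (g x) = 1) (e : X.cell 1) :
    evHom b w hw (ec hg e) = w e := by
  unfold ec bc
  rw [evHom_cl, ev_append, ev_append, ev_rev, h1, h1, ev_cons, ev_nil]
  simp

end General

/-! ### The explicit complex -/

theorem vext {x y : theData.toCube.cell 0} (h : x.1.1 = y.1.1) : x = y :=
  Subtype.ext (Prod.ext h (funext fun i => i.elim0))

/-- the vertices -/
def vtx (p : Fin 3) : theData.toCube.cell 0 :=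
  ⟨(p, Fin.elim0), fun i => i.elim0, fun i => i.elim0, fun i => i.elim0⟩

/-- the edges -/
def ed (p : Fin 3) (a : Fin 10) (h : lout p a = true) : theData.toCube.cell 1 :=
  ⟨(p, fun _ => a), fun i j h => absurd (Subsingleton.elim i j) h.ne,
    fun i j h => absurd (Subsingleton.elim i j) h, fun _ => h⟩

/-- the squares -/
def sqr (p : Fin 3) (a b : Fin 10) (h : a < b) (hc : lcross a b = true) (ha : lout p a = true)
    (hb : lout p b = true) : theData.toCube.cell 2 :=
  ⟨(p, ![a, b]), by
    refine Fin.strictMono_iff_lt_succ.mpr ?_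
    intro i
    obtain rfl : i = 0 := Subsingleton.elim _ _
    exact h, by
    intro i j hij
    fin_cases i <;> fin_cases j
    · exact absurd rfl hij
    · exact hc
    · exact theData.cross_symm _ _ hc
    · exact absurd rfl hij, by
    intro i
    fin_cases i
    · exact ha
    · exact hb⟩

theorem face_false_ed (p : Fin 3) (a : Fin 10) (h : lout p a = true) :
    theData.toCube.face 0 false (ed p a h) = vtx p := vext rfl

theorem face_true_ed (p : Fin 3) (a : Fin 10) (h : lout p a = true) :
    theData.toCube.face 0 true (ed p a h) = vtx (lmove p a) := vext rfl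

theorem eq_ed (e : theData.toCube.cell 1) : e = ed e.1.1 (e.1.2 0) (e.2.2.2 0) :=
  Subtype.ext (Prod.ext rfl (funext fun i => by
    obtain rfl : i = 0 := Subsingleton.elim _ _
    rfl))

/-- paths from the base vertex along the tubes `6`, `7` -/
def gp : Fin 3 → List (theData.toCube.cell 1 × Bool) :=
  ![[], [(ed 0 6 rfl, false)], [(ed 0 6 rfl, false), (ed 1 7 rfl, false)]]

/-- paths from the base vertex -/
def gg (x : theData.toCube.cell 0) : List (theData.toCube.cell 1 × Bool) := gp x.1.1

theorem gp_isPath (p : Fin 3) : theData.toCube.IsPath (vtx 0) (gp p) (vtx p) := by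
  fin_cases p
  · rfl
  · exact ⟨vext rfl, vext rfl⟩
  · exact ⟨vext rfl, vext rfl, vext rfl⟩

theorem gg_isPath (x : theData.toCube.cell 0) : theData.toCube.IsPath (vtx 0) (gg x) x := by
  have : x = vtx x.1.1 := vext rfl
  have h := gp_isPath x.1.1
  rw [← this] at h
  exact h

/-- the relations between the values of the edges -/
structure Rel {H : Type*} [Group H] (w : Fin 3 → Fin 10 → H) : Prop where
  sq : ∀ p a b, lcross a b = true → lout p a = true → lout p b = true →
    w p a * w (lmove p a) b = w p b * w (lmove p b) a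
  t6 : w 0 6 = 1
  t7 : w 1 7 = 1

/-- a family of values of the edges -/
def wc {H : Type*} (w : Fin 3 → Fin 10 → H) (e : theData.toCube.cell 1) : H := w e.1.1 (e.1.2 0)

theorem Rel.sqRel {H : Type*} [Group H] {w : Fin 3 → Fin 10 → H} (hw : Rel w) :
    SqRel (wc w) := by
  intro q
  exact hw.sq q.1.1 (q.1.2 0) (q.1.2 1) (q.2.2.1 0 1 (by decide)) (q.2.2.2 0) (q.2.2.2 1)

/-- the classes of the edges -/
def EE (p : Fin 3) (a : Fin 10) : theData.toCube.π₁ (vtx 0) :=
  if h : lout p a = true then ec gg_isPath (ed p a h) else 1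

theorem EE_of {p : Fin 3} {a : Fin 10} (h : lout p a = true) :
    EE p a = ec gg_isPath (ed p a h) := dif_pos h

theorem ec_eq (e : theData.toCube.cell 1) : ec gg_isPath e = wc EE e := by
  have h := eq_ed e
  rw [wc, EE_of (e.2.2.2 0)]
  exact congrArg _ h

theorem cross_lt_or (a b : Fin 10) (h : lcross a b = true) : a < b ∨ b < a := by
  rcases lt_trichotomy a b with h1 | h1 | h1
  · exact Or.inl h1
  · subst h1
    exact absurd h (theData.cross_irrefl a)
  · exact Or.inr h1

theorem EE_rel : Rel EE := by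
  have sq0 : ∀ p a b, a < b → lcross a b = true → lout p a = true → lout p b = true →
      EE p a * EE (lmove p a) b = EE p b * EE (lmove p b) a := by
    intro p a b hlt h ha hb
    have h1 := ec_sq gg_isPath (sqr p a b hlt h ha hb)
    rw [ec_eq, ec_eq, ec_eq, ec_eq] at h1
    exact h1
  refine ⟨?_, ?_, ?_⟩
  · intro p a b h ha hb
    rcases cross_lt_or a b h with h1 | h1
    · exact sq0 p a b h1 h ha hb
    · exact (sq0 p b a h1 (theData.cross_symm _ _ h) hb ha).symm
  · rw [EE_of (rfl : lout 0 6 = true)]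
    have h1 : ec gg_isPath (ed 0 6 rfl) = cl ([] ++ ([(ed 0 6 rfl, false)] ++
        CubeComplex.rev [(ed 0 6 rfl, false)])) (by
          exact ⟨vext rfl, vext rfl, vext rfl⟩) := rfl
    rw [h1]
    exact mk_eq_of_step _ _ (Step.backtrack [] [] (ed 0 6 rfl, false))
  · rw [EE_of (rfl : lout 1 7 = true)]
    have h1 : ec gg_isPath (ed 1 7 rfl) = cl ([(ed 0 6 rfl, false)] ++ ([(ed 1 7 rfl, false)] ++
        CubeComplex.rev [(ed 0 6 rfl, false), (ed 1 7 rfl, false)])) (by
          exact ⟨vext rfl, vext rfl, vext rfl, vext rfl, vext rfl⟩) := rfl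
    rw [h1]
    have h2 : theData.toCube.Step ([(ed 0 6 rfl, false)] ++ ([(ed 1 7 rfl, false)] ++
        CubeComplex.rev [(ed 0 6 rfl, false), (ed 1 7 rfl, false)]))
        ([(ed 0 6 rfl, false), (ed 0 6 rfl, true)]) :=
      Step.backtrack [(ed 0 6 rfl, false)] [(ed 0 6 rfl, true)] (ed 1 7 rfl, false)
    have h3 : theData.toCube.Step ([(ed 0 6 rfl, false), (ed 0 6 rfl, true)]) [] :=
      Step.backtrack [] [] (ed 0 6 rfl, false)
    have h4 : theData.toCube.IsPath (vtx 0) [(ed 0 6 rfl, false), (ed 0 6 rfl, true)] (vtx 0) :=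
      ⟨vext rfl, vext rfl, vext rfl⟩
    exact (mk_eq_of_step _ h4 h2).trans (mk_eq_of_step _ _ h3)

/-- the universal property of the edge path group, existence -/
theorem exists_hom {H : Type*} [Group H] {w : Fin 3 → Fin 10 → H} (hw : Rel w) :
    ∃ f : theData.toCube.π₁ (vtx 0) →* H, ∀ p a, lout p a = true → f (EE p a) = w p a := by
  refine ⟨evHom (vtx 0) (wc w) hw.sqRel, ?_⟩
  intro p a h
  rw [EE_of h, evHom_ec]
  · rfl
  · intro x
    have : ∀ p, ev (wc w) (gp p) = 1 := by
      intro p
      fin_cases p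
      · rfl
      · show w 0 6 * 1 = 1
        rw [hw.t6, mul_one]
      · show w 0 6 * (w 1 7 * 1) = 1
        rw [hw.t6, hw.t7, mul_one, mul_one]
    exact this x.1.1

/-- the universal property of the edge path group, uniqueness -/
theorem pi1_hom_ext {H : Type*} [Group H] {f f' : theData.toCube.π₁ (vtx 0) →* H}
    (h : ∀ p a, lout p a = true → f (EE p a) = f' (EE p a)) : f = f' := by
  apply hom_ext gg_isPath rfl
  intro e
  rw [ec_eq]
  exact h _ _ (e.2.2.2 0)

/-! ### The group `Big` -/

/-- the index of the loop labelled `a` at the vertex `p` -/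
def idx (p : Fin 3) (a : Fin 10) : ℤ := if p = 2 ∧ a = 0 then 6 else a.val

/-- the central generator -/
def bigC : Big := (1, Multiplicative.ofAdd 1)

/-- the stable letter -/
def bigT : Big := (SemidirectProduct.inr (Multiplicative.ofAdd 1), 1)

/-- the vertex generators -/
def bigV (x : ℤ) : Big := (SemidirectProduct.inl (vx x (Multiplicative.ofAdd 1)), 1)

/-- the values in `Big` of the edges -/
def val (p : Fin 3) (a : Fin 10) : Big :=
  if a.val < 6 then bigV (idx p a) else if a.val = 9 then bigC else if a.val = 8 then bigT else 1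

theorem bigV_comm {x y : ℤ} (h : |blk x - blk y| ≤ 1) : bigV x * bigV y = bigV y * bigV x := by
  unfold bigV
  rw [Prod.mk_mul_mk, Prod.mk_mul_mk, ← map_mul, ← map_mul, vx_comm h]

theorem bigC_comm (x : Big) : bigC * x = x * bigC := by
  unfold bigC
  apply Prod.ext
  · simp
  · exact mul_comm _ _

theorem bigT_bigV (x : ℤ) : bigT * bigV x = bigV (x + 6) * bigT := by
  have h := SemidirectProduct.inl_aut (φ := shift) (Multiplicative.ofAdd 1)
    (vx x (Multiplicative.ofAdd 1))
  rw [shift_apply, shiftHom_vx] at h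
  have h2 : x + 6 * (Multiplicative.toAdd (Multiplicative.ofAdd (1 : ℤ))) = x + 6 := by simp
  rw [h2] at h
  unfold bigT bigV
  rw [Prod.mk_mul_mk, Prod.mk_mul_mk, h, map_inv, inv_mul_cancel_right]

theorem val_rel : Rel val := by
  refine ⟨?_, rfl, rfl⟩
  intro p a b h ha hb
  by_cases ha9 : a.val = 9
  · have h1 : ∀ q, val q a = bigC := by
      intro q
      simp [val, ha9]
    have h2 : lmove p a = p := by simp [lmove, ha9]
    rw [h1, h1, h2, bigC_comm]
  by_cases hb9 : b.val = 9
  · have h1 : ∀ q, val q b = bigC := by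
      intro q
      simp [val, hb9]
    have h2 : lmove p b = p := by simp [lmove, hb9]
    rw [h1, h1, h2, bigC_comm]
  by_cases ha6 : a.val < 6
  · by_cases hb6 : b.val < 6
    · have h1 : lmove p a = p := by
        rw [lmove, if_neg]
        omega
      have h2 : lmove p b = p := by
        rw [lmove, if_neg]
        omega
      rw [h1, h2]
      have h3 : ∀ p : Fin 3, ∀ a b : Fin 10, a.val < 6 → b.val < 6 → lout p a = true →
          lout p b = true → |blk (idx p a) - blk (idx p b)| ≤ 1 := by decide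
      simp only [val, if_pos ha6, if_pos hb6]
      exact bigV_comm (h3 p a b ha6 hb6 ha hb)
    · have h1 : ∀ p : Fin 3, ∀ a b : Fin 10, lcross a b = true → a.val < 6 → ¬ b.val < 6 →
        ¬ b.val = 9 → lout p a = true → lout p b = true →
          (b.val = 8 ∧ lmove p a = p ∧ idx p a = idx (lmove p b) a + 6) ∨
          (b.val ≠ 8 ∧ lmove p a = p ∧ idx p a = idx (lmove p b) a) := by decide
      rcases h1 p a b h ha6 hb6 hb9 ha hb with ⟨h2, h3, h4⟩ | ⟨h2, h3, h4⟩
      · simp only [val, if_pos ha6, if_neg hb6, if_neg hb9, if_pos h2, h3, h4]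
        exact (bigT_bigV _).symm
      · simp only [val, if_pos ha6, if_neg hb6, if_neg hb9, if_neg h2, h3, h4]
        rw [mul_one, one_mul]
  · by_cases hb6 : b.val < 6
    · have h1 : ∀ p : Fin 3, ∀ a b : Fin 10, lcross b a = true → a.val < 6 → ¬ b.val < 6 →
        ¬ b.val = 9 → lout p a = true → lout p b = true →
          (b.val = 8 ∧ lmove p a = p ∧ idx p a = idx (lmove p b) a + 6) ∨
          (b.val ≠ 8 ∧ lmove p a = p ∧ idx p a = idx (lmove p b) a) := by decide
      rcases h1 p b a h hb6 ha6 ha9 hb ha with ⟨h2, h3, h4⟩ | ⟨h2, h3, h4⟩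
      · simp only [val, if_pos hb6, if_neg ha6, if_neg ha9, if_pos h2, h3, h4]
        exact (bigT_bigV _)
      · simp only [val, if_pos hb6, if_neg ha6, if_neg ha9, if_neg h2, h3, h4]
        rw [mul_one, one_mul]
    · have h1 : ∀ p : Fin 3, ∀ a b : Fin 10, lcross a b = true → ¬ a.val < 6 → ¬ b.val < 6 →
        ¬ a.val = 9 → ¬ b.val = 9 → ¬ (lout p a = true ∧ lout p b = true) := by decide
      exact absurd ⟨ha, hb⟩ (h1 p a b h ha6 hb6 ha9 hb9)

section Lift

variable {H : Type*} [Group H] {w : Fin 3 → Fin 10 → H}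

theorem Rel.move_eq (hw : Rel w) {a : Fin 10} (ha : a.val < 6) {p : Fin 3} (hp : lblk a = p)
    (h0 : a ≠ 0) {q : Fin 3} (hq : lout q a = true) : w q a = w p a := by
  have h1 : ∀ (a : Fin 10), a.val < 6 → a ≠ 0 → ∀ q : Fin 3, lout q a = true →
      q = lblk a ∨ (q = 0 ∧ lblk a = 1) ∨ (q = 1 ∧ lblk a = 2) := by decide
  subst hp
  rcases h1 a ha h0 q hq with h2 | ⟨h2, h3⟩ | ⟨h2, h3⟩
  · rw [h2]
  · have h4 : ∀ a : Fin 10, a.val < 6 → lblk a = 1 → lcross a 6 = true ∧ lout 0 a = true ∧
      lmove 0 a = 0 ∧ lmove 0 6 = 1 := by decide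
    obtain ⟨h5, h6, h7, h8⟩ := h4 a ha h3
    have := hw.sq 0 a 6 h5 h6 rfl
    rw [h7, h8, hw.t6, mul_one, one_mul] at this
    rw [h2, h3, this]
  · have h4 : ∀ a : Fin 10, a.val < 6 → lblk a = 2 → lcross a 7 = true ∧ lout 1 a = true ∧
      lmove 1 a = 1 ∧ lmove 1 7 = 2 := by decide
    obtain ⟨h5, h6, h7, h8⟩ := h4 a ha h3
    have := hw.sq 1 a 7 h5 h6 rfl
    rw [h7, h8, hw.t7, mul_one, one_mul] at this
    rw [h2, h3, this]

theorem Rel.w20 (hw : Rel w) : w 2 0 = w 2 8 * w 0 0 * (w 2 8)⁻¹ := by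
  have := hw.sq 2 0 8 rfl rfl rfl
  have h1 : lmove 2 0 = 2 := rfl
  have h2 : lmove 2 8 = 0 := rfl
  rw [h1, h2] at this
  rw [← this, mul_inv_cancel_right]

theorem Rel.comm_loops (hw : Rel w) {p : Fin 3} {a b : Fin 10} (ha : a.val < 6) (hb : b.val < 6)
    (ha' : lout p a = true) (hb' : lout p b = true) : Commute (w p a) (w p b) := by
  by_cases hab : a = b
  · subst hab; exact Commute.refl _
  have h1 : ∀ a b : Fin 10, a.val < 6 → b.val < 6 → a ≠ b → ∀ p : Fin 3, lcross a b = true ∧
      lmove p a = p ∧ lmove p b = p := by decide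
  obtain ⟨h2, h3, h4⟩ := h1 a b ha hb hab p
  have := hw.sq p a b h2 ha' hb'
  rwa [h3, h4] at this

theorem Rel.w9 (hw : Rel w) (p : Fin 3) : w p 9 = w 0 9 := by
  have h1 : w 0 9 = w 1 9 := by
    have := hw.sq 0 9 6 rfl rfl rfl
    have h1 : lmove 0 9 = 0 := rfl
    have h2 : lmove 0 6 = 1 := rfl
    rwa [h1, h2, hw.t6, mul_one, one_mul] at this
  have h2 : w 1 9 = w 2 9 := by
    have := hw.sq 1 9 7 rfl rfl rfl
    have h1 : lmove 1 9 = 1 := rfl
    have h2 : lmove 1 7 = 2 := rfl
    rwa [h1, h2, hw.t7, mul_one, one_mul] at this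
  fin_cases p
  · rfl
  · exact h1.symm
  · exact (h1.trans h2).symm

theorem Rel.comm9 (hw : Rel w) {p : Fin 3} {a : Fin 10} (ha : lout p a = true) :
    Commute (w 0 9) (w p a) := by
  by_cases h9 : a = 9
  · subst h9
    rw [hw.w9 p]
  have h1 : ∀ (p : Fin 3) (a : Fin 10), a ≠ 9 → lcross 9 a = true ∧ lout p 9 = true ∧
    lmove p 9 = p := by decide
  obtain ⟨h2, h3, h4⟩ := h1 p a h9
  have := hw.sq p 9 a h2 h3 ha
  rw [h4, hw.w9 p, hw.w9 (lmove p a)] at this
  exact this

/-- the residue modulo `6` as a label -/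
def res (x : ℤ) : Fin 10 := ⟨(x % 6).toNat, by omega⟩

theorem res_lt (x : ℤ) : (res x).val < 6 := by
  simp only [res]; omega

theorem res_val (x : ℤ) : ((res x).val : ℤ) = x % 6 := by
  simp only [res]; omega

/-- the value of the vertex generators -/
def psi (w : Fin 3 → Fin 10 → H) (x : ℤ) : H :=
  (w 2 8) ^ (x / 6) * w (lblk (res x)) (res x) * ((w 2 8) ^ (x / 6))⁻¹

theorem psi_add (w : Fin 3 → Fin 10 → H) (x k : ℤ) :
    psi w (x + 6 * k) = (w 2 8) ^ k * psi w x * ((w 2 8) ^ k)⁻¹ := by
  have h1 : (x + 6 * k) / 6 = x / 6 + k := by omega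
  have h2 : res (x + 6 * k) = res x := by
    apply Fin.ext
    simp only [res]
    omega
  unfold psi
  rw [h1, h2, add_comm (x / 6) k, zpow_add]
  group

theorem psi_idx (hw : Rel w) {p : Fin 3} {a : Fin 10} (ha : a.val < 6) (h : lout p a = true) :
    psi w (idx p a) = w p a := by
  by_cases h0 : a = 0
  · subst h0
    have h1 : ∀ p : Fin 3, lout p 0 = true → p = 0 ∨ p = 2 := by decide
    rcases h1 p h with rfl | rfl
    · have h2 : idx 0 0 = 0 := by decide
      have h3 : res 0 = 0 := by decide
      have h4 : lblk 0 = 0 := rfl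
      rw [h2, psi, h3, h4]
      simp
    · have h2 : idx 2 0 = 0 + 6 * 1 := by decide
      rw [h2, psi_add, hw.w20]
      have h3 : res 0 = 0 := by decide
      have h4 : lblk 0 = 0 := rfl
      rw [psi, h3, h4]
      simp
  · have h1 : idx p a = a.val := by
      rw [idx, if_neg]
      rintro ⟨-, h2⟩
      exact h0 h2
    have h2 : res (a.val : ℤ) = a := by
      apply Fin.ext
      simp only [res]
      omega
    have h3 : ((a.val : ℤ)) / 6 = 0 := by omega
    rw [h1, psi, h2, h3, zpow_zero, one_mul, inv_one, mul_one]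
    exact (hw.move_eq ha rfl h0 h).symm

/-- a common vertex for commuting generators -/
theorem exists_common {x y : ℤ} (h : |blk x - blk y| ≤ 1) :
    ∃ (k : ℤ) (p : Fin 3) (a b : Fin 10), a.val < 6 ∧ b.val < 6 ∧ lout p a = true ∧
      lout p b = true ∧ x = idx p a + 6 * k ∧ y = idx p b + 6 * k := by
  have key : ∀ x y : ℤ, blk x ≤ blk y → |blk x - blk y| ≤ 1 →
      ∃ (k : ℤ) (p : Fin 3) (a b : Fin 10), a.val < 6 ∧ b.val < 6 ∧ lout p a = true ∧
      lout p b = true ∧ x = idx p a + 6 * k ∧ y = idx p b + 6 * k := by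
    intro x y hxy h
    have hx := res_val x
    have hy := res_val y
    have hx' : x = 6 * (x / 6) + (res x).val := by omega
    have hy' : y = 6 * (y / 6) + (res y).val := by omega
    have hbx : blk x = 3 * (x / 6) + (lblk (res x)).val := by
      have : ∀ a : Fin 10, a.val < 6 → ((lblk a).val : ℤ) = if (a.val : ℤ) = 0 then 0 else
        if (a.val : ℤ) ≤ 2 then 1 else 2 := by decide
      rw [this _ (res_lt x), blk, hx]
    have hby : blk y = 3 * (y / 6) + (lblk (res y)).val := by
      have : ∀ a : Fin 10, a.val < 6 → ((lblk a).val : ℤ) = if (a.val : ℤ) = 0 then 0 else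
        if (a.val : ℤ) ≤ 2 then 1 else 2 := by decide
      rw [this _ (res_lt y), blk, hy]
    have h1 := (lblk (res x)).isLt
    have h2 := (lblk (res y)).isLt
    rw [abs_le] at h
    by_cases hk : y / 6 = x / 6
    · refine ⟨x / 6, lblk (res x), res x, res y, res_lt x, res_lt y, ?_, ?_, ?_, ?_⟩
      · have : ∀ a : Fin 10, a.val < 6 → lout (lblk a) a = true := by decide
        exact this _ (res_lt x)
      · have : ∀ a b : Fin 10, a.val < 6 → b.val < 6 → (lblk a).val ≤ (lblk b).val →
          (lblk b).val ≤ (lblk a).val + 1 → lout (lblk a) b = true := by decide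
        apply this _ _ (res_lt x) (res_lt y) <;> omega
      · have : ∀ a : Fin 10, a.val < 6 → idx (lblk a) a = a.val := by decide
        rw [this _ (res_lt x)]
        omega
      · have : ∀ a b : Fin 10, a.val < 6 → b.val < 6 → (lblk a).val ≤ (lblk b).val →
          (lblk b).val ≤ (lblk a).val + 1 → idx (lblk a) b = b.val := by decide
        rw [this _ _ (res_lt x) (res_lt y)]
        · omega
        · omega
        · omega
    · have hk2 : y / 6 = x / 6 + 1 := by omega
      have h3 : (lblk (res x)).val = 2 := by omega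
      have h4 : (lblk (res y)).val = 0 := by omega
      have h5 : res y = 0 := by
        have : ∀ a : Fin 10, a.val < 6 → (lblk a).val = 0 → a = 0 := by decide
        exact this _ (res_lt y) h4
      refine ⟨x / 6, 2, res x, 0, res_lt x, by decide, ?_, rfl, ?_, ?_⟩
      · have : ∀ a : Fin 10, a.val < 6 → (lblk a).val = 2 → lout 2 a = true := by decide
        exact this _ (res_lt x) h3
      · have : ∀ a : Fin 10, a.val < 6 → (lblk a).val = 2 → idx 2 a = a.val := by decide
        rw [this _ (res_lt x) h3]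
        omega
      · have : idx 2 0 = 6 := by decide
        rw [h5] at hy'
        have h6 : ((0 : Fin 10).val : ℤ) = 0 := rfl
        rw [h6] at hy'
        omega
  rcases le_total (blk x) (blk y) with h1 | h1
  · exact key x y h1 h
  · rw [abs_sub_comm] at h
    obtain ⟨k, p, a, b, h2, h3, h4, h5, h6, h7⟩ := key y x h1 h
    exact ⟨k, p, b, a, h3, h2, h5, h4, h7, h6⟩

theorem psi_comm (hw : Rel w) {x y : ℤ} (h : |blk x - blk y| ≤ 1) :
    Commute (psi w x) (psi w y) := by
  obtain ⟨k, p, a, b, h1, h2, h3, h4, rfl, rfl⟩ := exists_common h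
  rw [psi_add, psi_add, psi_idx hw h1 h3, psi_idx hw h2 h4]
  have := hw.comm_loops h1 h2 h3 h4
  have e : ∀ g u v : H, u * v = v * u → g * u * g⁻¹ * (g * v * g⁻¹) =
      g * v * g⁻¹ * (g * u * g⁻¹) := by
    intro g u v huv
    calc g * u * g⁻¹ * (g * v * g⁻¹) = g * (u * v) * g⁻¹ := by group
      _ = g * (v * u) * g⁻¹ := by rw [huv]
      _ = g * v * g⁻¹ * (g * u * g⁻¹) := by group
  exact e _ _ _ this

/-- the homomorphism from `RA` -/
def psiRA (hw : Rel w) : RA →* H :=
  GraphProduct.lift (G := fun _ => Multiplicative ℤ) (fun x => zpowersHom H (psi w x)) (by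
    intro x y h a b
    rw [zpowersHom_apply, zpowersHom_apply]
    exact ((psi_comm hw h.2).zpow_zpow _ _))

theorem psiRA_vx (hw : Rel w) (x : ℤ) (a : Multiplicative ℤ) :
    psiRA hw (vx x a) = psi w x ^ a.toAdd :=
  GraphProduct.lift_ι (Γ := hub) (G := fun _ => Multiplicative ℤ) _ _ _ _

/-- the homomorphism from `KK` -/
def psiKK (hw : Rel w) : KK →* H :=
  SemidirectProduct.lift (psiRA hw) (zpowersHom H (w 2 8)) (by
    intro k
    apply RA_hom_ext
    intro x a
    rw [MonoidHom.comp_apply, MonoidHom.comp_apply]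
    have h1 : (shift k).toMonoidHom (vx x a) = shiftHom k.toAdd (vx x a) := rfl
    rw [h1, shiftHom_vx, psiRA_vx, psi_add, zpowersHom_apply]
    have h2 : (MulAut.conj (w 2 8 ^ Multiplicative.toAdd k)).toMonoidHom (psiRA hw (vx x a)) =
      (w 2 8 ^ Multiplicative.toAdd k) * (psiRA hw (vx x a)) *
        (w 2 8 ^ Multiplicative.toAdd k)⁻¹ := rfl
    rw [h2, psiRA_vx, conj_zpow])

theorem psiKK_inl (hw : Rel w) (g : RA) : psiKK hw (SemidirectProduct.inl g) = psiRA hw g := by
  unfold psiKK
  rw [SemidirectProduct.lift_inl]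

theorem psiKK_inr (hw : Rel w) (g : Multiplicative ℤ) :
    psiKK hw (SemidirectProduct.inr g) = w 2 8 ^ g.toAdd := by
  unfold psiKK
  rw [SemidirectProduct.lift_inr, zpowersHom_apply]

theorem KK_hom_ext {f f' : KK →* H}
    (h1 : ∀ x, f (SemidirectProduct.inl (vx x (Multiplicative.ofAdd 1))) =
      f' (SemidirectProduct.inl (vx x (Multiplicative.ofAdd 1))))
    (h2 : f (SemidirectProduct.inr (Multiplicative.ofAdd 1)) =
      f' (SemidirectProduct.inr (Multiplicative.ofAdd 1))) : f = f' := by
  apply SemidirectProduct.hom_ext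
  · apply RA_hom_ext
    intro x a
    have h3 : vx x a = vx x (Multiplicative.ofAdd 1) ^ a.toAdd := by
      rw [← map_zpow, ← ofAdd_zsmul, smul_eq_mul, mul_one, ofAdd_toAdd]
    rw [h3, map_zpow, map_zpow, MonoidHom.comp_apply, MonoidHom.comp_apply, h1]
  · ext
    exact h2

theorem psiKK_comm (hw : Rel w) (g : KK) : Commute (w 0 9) (psiKK hw g) := by
  have h1 : (MulAut.conj (w 0 9)).toMonoidHom.comp (psiKK hw) = psiKK hw := by
    apply KK_hom_ext
    · intro x
      rw [MonoidHom.comp_apply, psiKK_inl, psiRA_vx, toAdd_ofAdd, zpow_one]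
      have h2 : Commute (w 0 9) (psi w x) := by
        unfold psi
        have h3 : Commute (w 0 9) (w 2 8) := hw.comm9 rfl
        have h4 : Commute (w 0 9) (w (lblk (res x)) (res x)) := by
          apply hw.comm9
          have : ∀ a : Fin 10, a.val < 6 → lout (lblk a) a = true := by decide
          exact this _ (res_lt x)
        exact ((h3.zpow_right _).mul_right h4).mul_right (h3.zpow_right _).inv_right
      show w 0 9 * psi w x * (w 0 9)⁻¹ = psi w x
      rw [h2.eq, mul_inv_cancel_right]
    · rw [MonoidHom.comp_apply, psiKK_inr, toAdd_ofAdd, zpow_one]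
      have h3 : Commute (w 0 9) (w 2 8) := hw.comm9 rfl
      show w 0 9 * w 2 8 * (w 0 9)⁻¹ = w 2 8
      rw [h3.eq, mul_inv_cancel_right]
  have h2 := DFunLike.congr_fun h1 g
  have h3 : w 0 9 * psiKK hw g * (w 0 9)⁻¹ = psiKK hw g := h2
  exact mul_inv_eq_iff_eq_mul.mp h3

/-- the homomorphism from `Big` -/
def psiBig (hw : Rel w) : Big →* H :=
  MonoidHom.noncommCoprod (psiKK hw) (zpowersHom H (w 0 9)) (by
    intro g k
    rw [zpowersHom_apply]
    exact ((psiKK_comm hw g).zpow_left _).symm)

theorem psiBig_val (hw : Rel w) {p : Fin 3} {a : Fin 10} (h : lout p a = true) :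
    psiBig hw (val p a) = w p a := by
  by_cases h6 : a.val < 6
  · simp only [val, if_pos h6, bigV]
    unfold psiBig
    rw [MonoidHom.noncommCoprod_apply]
    simp only [map_one, mul_one]
    rw [psiKK_inl, psiRA_vx, toAdd_ofAdd, zpow_one, psi_idx hw h6 h]
  by_cases h9 : a.val = 9
  · simp only [val, if_neg h6, if_pos h9, bigC]
    unfold psiBig
    rw [MonoidHom.noncommCoprod_apply]
    simp only [map_one, one_mul, zpowersHom_apply, toAdd_ofAdd, zpow_one]
    have : a = 9 := Fin.ext h9
    rw [this, hw.w9 p]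
  by_cases h8 : a.val = 8
  · simp only [val, if_neg h6, if_neg h9, if_pos h8, bigT]
    unfold psiBig
    rw [MonoidHom.noncommCoprod_apply]
    simp only [map_one, mul_one]
    rw [psiKK_inr, toAdd_ofAdd, zpow_one]
    have : a = 8 := Fin.ext h8
    subst this
    have : ∀ p : Fin 3, lout p 8 = true → p = 2 := by decide
    rw [this p h]
  · simp only [val, if_neg h6, if_neg h9, if_neg h8, map_one]
    have : ∀ (p : Fin 3) (a : Fin 10), lout p a = true → ¬ a.val < 6 → a.val ≠ 9 → a.val ≠ 8 →
      (p = 0 ∧ a = 6) ∨ (p = 1 ∧ a = 7) := by decide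
    rcases this p a h h6 h9 h8 with ⟨rfl, rfl⟩ | ⟨rfl, rfl⟩
    · exact hw.t6.symm
    · exact hw.t7.symm

theorem big_hom_ext {f f' : Big →* H} (h : ∀ p a, lout p a = true → f (val p a) = f' (val p a)) :
    f = f' := by
  have hT : f bigT = f' bigT := h 2 8 rfl
  have hC : f bigC = f' bigC := h 0 9 rfl
  have hV0 : ∀ a : Fin 10, a.val < 6 → f (bigV a.val) = f' (bigV a.val) := by
    intro a ha
    have h1 : ∀ a : Fin 10, a.val < 6 → lout (lblk a) a = true ∧ idx (lblk a) a = a.val := by
      decide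
    obtain ⟨h2, h3⟩ := h1 a ha
    have h4 := h (lblk a) a h2
    simp only [val, if_pos ha, h3] at h4
    exact h4
  have hV1 : ∀ (k : ℤ) (x : ℤ), bigV (x + 6 * k) = bigT ^ k * bigV x * (bigT ^ k)⁻¹ := by
    intro k
    induction k using Int.induction_on with
    | zero => intro x; simp
    | succ k ih =>
      intro x
      have h1 : x + 6 * ((k : ℤ) + 1) = (x + 6 * k) + 6 := by ring
      have h2 := bigT_bigV (x + 6 * k)
      rw [h1, ← mul_inv_eq_iff_eq_mul.mpr h2, ih, add_comm (k : ℤ) 1, zpow_add, zpow_one]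
      group
    | pred k ih =>
      intro x
      have h2 := bigT_bigV (x + 6 * (-(k : ℤ) - 1))
      have h1 : x + 6 * (-(k : ℤ) - 1) + 6 = x + 6 * (-(k : ℤ)) := by ring
      rw [h1, ih x] at h2
      have h3 : bigV (x + 6 * (-(k : ℤ) - 1)) = bigT⁻¹ *
          (bigT ^ (-(k : ℤ)) * bigV x * (bigT ^ (-(k : ℤ)))⁻¹ * bigT) := by
        rw [← h2, inv_mul_cancel_left]
      rw [h3, sub_eq_neg_add, zpow_add, zpow_neg_one]
      group
  have hV : ∀ x : ℤ, f (bigV x) = f' (bigV x) := by
    intro x
    have h1 : x = (res x).val + 6 * (x / 6) := by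
      have := res_val x
      omega
    rw [h1, hV1]
    simp only [map_mul, map_zpow, map_inv]
    rw [hV0 _ (res_lt x), hT]
  have e1 : f.comp (MonoidHom.inl KK (Multiplicative ℤ)) =
      f'.comp (MonoidHom.inl KK (Multiplicative ℤ)) := by
    apply KK_hom_ext
    · exact hV
    · exact hT
  have e2 : f.comp (MonoidHom.inr KK (Multiplicative ℤ)) =
      f'.comp (MonoidHom.inr KK (Multiplicative ℤ)) := by
    ext
    exact hC
  apply MonoidHom.ext
  intro g
  have h1 : g = MonoidHom.inl KK (Multiplicative ℤ) g.1 * MonoidHom.inr KK (Multiplicative ℤ) g.2 := by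
    apply Prod.ext <;> simp
  rw [h1, map_mul, map_mul]
  have h2 := DFunLike.congr_fun e1 g.1
  have h3 := DFunLike.congr_fun e2 g.2
  rw [MonoidHom.comp_apply, MonoidHom.comp_apply] at h2 h3
  rw [h2, h3]

end Lift

end Pi1

/-- the base vertex -/
def base : theData.toCube.cell 0 :=
  ⟨((0 : Fin 3), Fin.elim0), fun i => i.elim0, fun i => i.elim0, fun i => i.elim0⟩

open Pi1 in
theorem pi1_equiv' : Nonempty (theData.toCube.π₁ (vtx 0) ≃* Big) := by
  obtain ⟨f, hf⟩ := exists_hom val_rel
  refine ⟨MonoidHom.toMulEquiv f (psiBig EE_rel) ?_ ?_⟩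
  · apply pi1_hom_ext
    intro p a h
    rw [MonoidHom.comp_apply, hf p a h, psiBig_val EE_rel h]
    rfl
  · apply big_hom_ext
    intro p a h
    rw [MonoidHom.comp_apply, psiBig_val EE_rel h, hf p a h]
    rfl

/-- the edge path group of the explicit cube complex -/
theorem pi1_equiv : Nonempty (theData.toCube.π₁ base ≃* Big) := pi1_equiv'

end Pool.Agent.Lib.MP_944c19_al
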