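import Pool.Agent.Lib.MP_944c19_al.FiniteVertex
import Pool.Agent.Lib.MP_944c19_al.HubHom
import Pool.Agent.Lib.MP_944c19_al.Morse
import Pool.Agent.Lib.MP_944c19_al.LabelNPC
import Pool.Agent.Lib.MP_944c19_al.Pi1

/-!
# `Big` is not a Morse subgroup of a graph product of finite groups
-/

set_option autoImplicit false

namespace Pool.Agent.Lib.MP_944c19_al

open Monoid Function GraphProduct

universe u v

theorem not_isMorse_range {V : Type u} {Γ : SimpleGraph V} {G : V → Type v} [∀ x, Group (G x)]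
    [∀ x, Finite (G x)] {S : Set (GraphProduct Γ G)} (hS : S.Finite)
    (hgen : Subgroup.closure S = ⊤) (f : Big →* GraphProduct Γ G) (hf : Injective f) :
    ¬ IsMorse S f.range := by
  intro hM
  set z : GraphProduct Γ G := f (el 1 uno) with hz
  have hcentral : ∀ b : Big, f b ∈ Subgroup.centralizer {z} := by
    intro b
    rw [Subgroup.mem_centralizer_singleton_iff]
    exact ((commute_el_one b uno).map f).eq
  have hinf : ∀ n : ℕ, 0 < n → z ^ n ≠ 1 := by
    intro n hn h
    rw [hz, ← map_pow, el_pow, one_pow] at h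
    have h1 : el 1 (uno ^ n) = el 1 1 := hf (by rw [h, el_one, map_one])
    exact uno_pow_ne_one hn (el_inj h1).2
  obtain ⟨δ, hδ, hgrow⟩ := exists_growth hinf hS
  have hgrow' : ∀ n : ℕ, δ * n ≤ wordDist S 1 (z ^ n) := by
    intro n
    obtain ⟨l, hl, hlS, hprod⟩ := wd_attained hgen 1 (z ^ n)
    rw [one_mul] at hprod
    rw [← hl]
    exact hgrow n l hlS hprod
  have hrel := relIndex_ne_zero_of_isMorse hS hgen hM (z := z) ⟨_, rfl⟩
    (by
      rintro _ ⟨b, rfl⟩
      exact ((commute_el_one b uno).map f).eq) hδ hgrow'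
  let j : Big →* Subgroup.centralizer {z} := f.codRestrict _ hcentral
  have hj : Injective j := by
    intro a b hab
    exact hf (congrArg Subtype.val hab)
  have hrange : j.range = f.range.subgroupOf (Subgroup.centralizer {z}) := by
    ext x
    rw [Subgroup.mem_subgroupOf]
    constructor
    · rintro ⟨b, rfl⟩
      exact ⟨b, rfl⟩
    · rintro ⟨b, hb⟩
      exact ⟨b, Subtype.ext hb⟩
  have hfin : j.range.FiniteIndex := by
    rw [hrange]
    exact ⟨hrel⟩
  obtain ⟨Φ, hΦ, hΦr⟩ := exists_hom_of_finiteIndex j hj hfin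
  obtain ⟨r, hr, hrfin⟩ := exists_finite_conj z Φ hΦ
  exact hr (hΦr r hrfin)

end Pool.Agent.Lib.MP_944c19_al
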