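import Mathlib

/-!
# Morse subgroups
-/

set_option autoImplicit false

namespace Pool.Agent.Lib.MP_944c19_al

/-- The word metric of `S`: the least number of factors from `S` or inverses of elements of `S`
in a product which carries `g` to `h`. -/
noncomputable def wordDist {H : Type*} [Group H] (S : Set H) (g h : H) : ℕ :=
  sInf {n | ∃ l : List H, l.length = n ∧ (∀ x ∈ l, x ∈ S ∨ x⁻¹ ∈ S) ∧ g * l.prod = h}

/-- `f`, restricted to `[0, L]`, is a `(lam, c)`-quasi-geodesic. -/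
def IsQuasiGeodesic {H : Type*} [Group H] (S : Set H) (lam c L : ℝ) (f : ℝ → H) : Prop :=
  ∀ s ∈ Set.Icc 0 L, ∀ t ∈ Set.Icc 0 L,
    |s - t| / lam - c ≤ wordDist S (f s) (f t) ∧ (wordDist S (f s) (f t) : ℝ) ≤ lam * |s - t| + c

/-- `K` is a Morse subgroup (with respect to the word metric of `S`). -/
def IsMorse {H : Type*} [Group H] (S : Set H) (K : Subgroup H) : Prop :=
  ∀ lam c : ℝ, 1 ≤ lam → 0 ≤ c → ∃ M : ℝ, ∀ (L : ℝ) (f : ℝ → H), 0 ≤ L →
    IsQuasiGeodesic S lam c L f → f 0 ∈ K → f L ∈ K →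
      ∀ t ∈ Set.Icc 0 L, ∃ k ∈ K, (wordDist S (f t) k : ℝ) ≤ M

end Pool.Agent.Lib.MP_944c19_al
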