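import Pool.Agent.Lib.MP_944c19_al.Support
import Pool.Agent.Lib.MP_944c19_al.Big

/-!
# Centralisers in the right-angled Artin group of the blocks
-/

set_option autoImplicit false

namespace Pool.Agent.Lib.MP_944c19_al

open Monoid Function GraphProduct

/-- parabolic subgroups of `RA` -/
abbrev pr (Y : Set ℤ) : Subgroup RA := par (Γ := hub) (G := fun _ => Multiplicative ℤ) Y

/-- the vertices of the block `k` -/
def block (k : ℤ) : Set ℤ := {y | blk y = k}

/-- projections of `RA` to the vertex groups -/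
noncomputable def pj (y : ℤ) : RA →* Multiplicative ℤ :=
  proj (Γ := hub) (G := fun _ => Multiplicative ℤ) y

theorem pj_vx (y : ℤ) (a : Multiplicative ℤ) : pj y (vx y a) = a :=
  proj_ι (Γ := hub) (G := fun _ => Multiplicative ℤ) y a

theorem pj_vx_ne {x y : ℤ} (h : y ≠ x) (a : Multiplicative ℤ) : pj x (vx y a) = 1 :=
  proj_ι_ne (Γ := hub) (G := fun _ => Multiplicative ℤ) h a

theorem vx_injective (y : ℤ) : Injective (vx y) := by
  intro a b h
  have := congrArg (pj y) h
  rwa [pj_vx, pj_vx] at this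

theorem vx_mem {Y : Set ℤ} {y : ℤ} (h : y ∈ Y) (a : Multiplicative ℤ) : vx y a ∈ pr Y :=
  ι_mem_par (Γ := hub) (G := fun _ => Multiplicative ℤ) h a

theorem pj_eq_one {Y : Set ℤ} {y : ℤ} (h : y ∉ Y) {g : RA} (hg : g ∈ pr Y) : pj y g = 1 := by
  have : pr Y ≤ (pj y).ker := by
    apply par_le
    intro x hx a
    exact pj_vx_ne (by rintro rfl; exact h hx) a
  exact this hg

theorem comm_of_clique {Y : Set ℤ} (hY : ∀ x ∈ Y, ∀ y ∈ Y, |blk x - blk y| ≤ 1) {a b : RA}
    (ha : a ∈ pr Y) (hb : b ∈ pr Y) : a * b = b * a := by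
  have h1 : pr Y ≤ Subgroup.centralizer ((pr Y : Subgroup RA) : Set RA) := by
    apply par_le
    intro x hx a
    rw [Subgroup.mem_centralizer_iff]
    intro b hb
    have h2 : pr Y ≤ Subgroup.centralizer {vx x a} := by
      apply par_le
      intro y hy b
      rw [Subgroup.mem_centralizer_iff]
      rintro _ rfl
      exact vx_comm (hY x hx y hy) a b
    have := Subgroup.mem_centralizer_iff.mp (h2 hb) _ rfl
    exact this.symm
  exact (Subgroup.mem_centralizer_iff.mp (h1 ha) b hb).symm

theorem block_clique {k : ℤ} : ∀ x ∈ block k, ∀ y ∈ block k, |blk x - blk y| ≤ 1 := by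
  intro x hx y hy
  rw [show blk x = k from hx, show blk y = k from hy]
  simp

theorem eq_one_of_pj {Y : Set ℤ} (hY : Y.Finite)
    (hcl : ∀ x ∈ Y, ∀ y ∈ Y, |blk x - blk y| ≤ 1) {g : RA} (hg : g ∈ pr Y)
    (h : ∀ y ∈ Y, pj y g = 1) : g = 1 := by
  induction Y, hY using Set.Finite.induction_on generalizing g with
  | empty => exact par_empty hg
  | @insert x Y hxY _ ih =>
    have hg' : g ∈ par ({x} ∪ Y) := hg
    have h2 : ∀ a ∈ ({x} : Set ℤ), ∀ y ∈ Y, hub.Adj a y := by
      rintro a rfl y hy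
      exact ⟨by rintro rfl; exact hxY hy,
        hcl a (Set.mem_insert _ _) y (Set.mem_insert_of_mem _ hy)⟩
    have h3 := eq_retr_mul_retr h2 hg'
    obtain ⟨a, ha⟩ := par_singleton (retr_mem {x} g)
    have ha' : retr {x} g = vx x a := ha
    have h4 : pj x g = a := by
      rw [h3, map_mul, ha', pj_vx, pj_eq_one hxY (retr_mem Y g), mul_one]
    rw [h x (Set.mem_insert _ _)] at h4
    rw [h3, ha', ← h4, map_one, one_mul]
    apply ih (fun x hx y hy => hcl x (Set.mem_insert_of_mem _ hx) y (Set.mem_insert_of_mem _ hy))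
      (retr_mem Y g)
    intro y hy
    have h5 : pj y g = pj y (retr {x} g) * pj y (retr Y g) := by rw [← map_mul, ← h3]
    rw [h y (Set.mem_insert_of_mem _ hy), ha', ← h4, map_one, map_one, one_mul] at h5
    exact h5.symm

/-- centralisers of powers of the generators -/
theorem mem_star {y : ℤ} {a : Multiplicative ℤ} (ha : a ≠ 1) {c : RA} (hc : Commute c (vx y a)) :
    c ∈ pr {s | |blk s - blk y| ≤ 1} := by
  have hfull : Full (Γ := hub) (G := fun _ => Multiplicative ℤ) {y} (vx y a) := by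
    refine ⟨vx_mem (Set.mem_singleton y) a, ?_⟩
    intro Y' hY' g hg
    rw [Set.ssubset_singleton_iff] at hY'
    subst hY'
    have h1 := par_empty hg
    have h2 : vx y a = 1 := by
      have : vx y a = g⁻¹ * (g * vx y a * g⁻¹) * g := by group
      rw [this, h1]
      group
    exact ha (vx_injective y (by rw [h2, map_one]))
  refine par_mono ?_ (hfull.mem_of_commute hc)
  rintro s (hs | hs)
  · rw [Set.mem_singleton_iff] at hs
    subst hs
    simp
  · exact (hs.2 y rfl).2

/-- the block is detected by commuting generators -/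
theorem mem_block_of_commute {k y y' : ℤ} (hy : blk y = k - 1) (hy' : blk y' = k + 1)
    {a : Multiplicative ℤ} (ha : a ≠ 1) {c : RA} (hc : Commute c (vx y a))
    (hc' : Commute c (vx y' a)) : c ∈ pr (block k) := by
  refine par_mono ?_ (par_inter (mem_star ha hc) (mem_star ha hc'))
  rintro s ⟨h1, h2⟩
  simp only [Set.mem_ofPred_eq, hy, hy', abs_le] at h1 h2
  show blk s = k
  omega

/-- support of a commuting element -/
theorem retr_eq_one_of_commute {k l : ℤ} (hkl : 1 < |l - k|) {w c : RA} (hw : w ∈ pr (block k))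
    (hw1 : w ≠ 1) (hc : Commute c w) : retr (block l) c = 1 := by
  obtain ⟨Y, u, hY, hfull⟩ := exists_full w
  have hYk : Y ⊆ block k := by
    intro s hs
    by_contra hsk
    refine hfull.not_mem hs hsk u⁻¹ ?_
    have : u⁻¹ * (u * w * u⁻¹) * u⁻¹⁻¹ = w := by group
    rw [this]
    exact hw
  obtain ⟨s, hs⟩ : Y.Nonempty := by
    rw [Set.nonempty_iff_ne_empty]
    rintro rfl
    have h1 := par_empty hfull.1
    apply hw1
    have : w = u⁻¹ * (u * w * u⁻¹) * u := by group
    rw [this, h1]
    group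
  have hcomm : Commute (u * c * u⁻¹) (u * w * u⁻¹) := by
    rw [Commute, SemiconjBy]
    calc u * c * u⁻¹ * (u * w * u⁻¹) = u * (c * w) * u⁻¹ := by group
      _ = u * (w * c) * u⁻¹ := by rw [hc.eq]
      _ = _ := by group
  have h1 := hfull.mem_of_commute hcomm
  have h2 := retr_par (X := block l) h1
  have hempty : (Y ∪ perp hub Y) ∩ block l = ∅ := by
    rw [Set.eq_empty_iff_forall_notMem]
    rintro t ⟨ht, htl⟩
    have htl' : blk t = l := htl
    have hsk : blk s = k := hYk hs
    rcases ht with ht | ht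
    · have : blk t = k := hYk ht
      have hlk : l = k := by rw [← htl', this]
      rw [hlk] at hkl
      simp at hkl
    · have := (ht.2 s hs).2
      rw [htl', hsk] at this
      omega
  rw [hempty] at h2
  have h3 := par_empty h2
  rw [map_mul, map_mul, map_inv] at h3
  have : retr (block l) c = (retr (block l) u)⁻¹ * (retr (block l) u * retr (block l) c *
    (retr (block l) u)⁻¹) * retr (block l) u := by group
  rw [this, h3]
  group

/-! ### translations -/

theorem shiftHom_par {k : ℤ} {Y : Set ℤ} {g : RA} (hg : g ∈ pr Y) :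
    shiftHom k g ∈ pr {x | x - 6 * k ∈ Y} := by
  have : pr Y ≤ (pr {x | x - 6 * k ∈ Y}).comap (shiftHom k) := by
    apply par_le
    intro x hx a
    rw [Subgroup.mem_comap]
    have h1 : shiftHom k (vx x a) = vx (x + 6 * k) a := shiftHom_vx k x a
    have h2 : shiftHom k (ι x a) = vx (x + 6 * k) a := h1
    rw [h2]
    apply vx_mem
    show x + 6 * k - 6 * k ∈ Y
    rw [add_sub_cancel_right]
    exact hx
  exact this hg

/-- a translate of `α ≠ 1` is not conjugate to `α` -/
theorem eq_one_of_conj_shift {m : ℤ} (hm : m ≠ 0) {κ α : RA}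
    (h : κ * shiftHom m α * κ⁻¹ = α) : α = 1 := by
  obtain ⟨Y, u, hY, hfull⟩ := exists_full α
  by_contra hα
  have hne : Y.Nonempty := by
    rw [Set.nonempty_iff_ne_empty]
    rintro rfl
    have h1 := par_empty hfull.1
    apply hα
    have : α = u⁻¹ * (u * α * u⁻¹) * u := by group
    rw [this, h1]
    group
  -- `u α u⁻¹` is conjugate into `par (Y + 6 m)`
  have h1 := shiftHom_par (k := m) hfull.1
  have h2 : ∃ x : RA, x * (u * α * u⁻¹) * x⁻¹ = shiftHom m (u * α * u⁻¹) := by
    refine ⟨shiftHom m u * κ⁻¹ * u⁻¹, ?_⟩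
    calc shiftHom m u * κ⁻¹ * u⁻¹ * (u * α * u⁻¹) * (shiftHom m u * κ⁻¹ * u⁻¹)⁻¹
        = shiftHom m u * (κ⁻¹ * α * κ) * (shiftHom m u)⁻¹ := by group
      _ = shiftHom m u * (κ⁻¹ * (κ * shiftHom m α * κ⁻¹) * κ) * (shiftHom m u)⁻¹ := by rw [h]
      _ = shiftHom m u * shiftHom m α * (shiftHom m u)⁻¹ := by group
      _ = _ := by rw [map_mul, map_mul, map_inv]
  obtain ⟨x, hx⟩ := h2
  rw [← hx] at h1
  have h3 : ∀ s ∈ Y, s - 6 * m ∈ Y := by
    intro s hs
    by_contra hcon
    exact hfull.not_mem hs hcon x h1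
  obtain ⟨s0, hs0, hmin⟩ := Set.exists_min_image Y id hY hne
  obtain ⟨s1, hs1, hmax⟩ := Set.exists_max_image Y id hY hne
  have h4 := hmin _ (h3 s0 hs0)
  have h5 := hmax _ (h3 s1 hs1)
  simp only [id] at h4 h5
  omega

end Pool.Agent.Lib.MP_944c19_al
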