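import Pool.Agent.Lib.MP_944c19_al.Height

/-!
# The size of the block of an element with a height
-/

set_option autoImplicit false

namespace Pool.Agent.Lib.MP_944c19_al

open Monoid Function GraphProduct

theorem comm_of_close {X Y : Set ℤ} (hXY : ∀ x ∈ X, ∀ y ∈ Y, |blk x - blk y| ≤ 1) {a b : RA}
    (ha : a ∈ pr X) (hb : b ∈ pr Y) : a * b = b * a := by
  have h1 : pr X ≤ Subgroup.centralizer ((pr Y : Subgroup RA) : Set RA) := by
    apply par_le
    intro x hx a
    rw [Subgroup.mem_centralizer_iff]
    intro b hb
    have h2 : pr Y ≤ Subgroup.centralizer {vx x a} := by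
      apply par_le
      intro y hy b
      rw [Subgroup.mem_centralizer_iff]
      rintro _ rfl
      exact vx_comm (hXY x hx y hy) a b
    have := Subgroup.mem_centralizer_iff.mp (h2 hb) _ rfl
    exact this.symm
  exact (Subgroup.mem_centralizer_iff.mp (h1 ha) b hb).symm

/-- the first vertex of the block `k` -/
def fst (k : ℤ) : ℤ := 6 * (k / 3) + if k % 3 = 0 then 0 else if k % 3 = 1 then 1 else 3

/-- the size of the block `k` -/
def sz (k : ℤ) : ℕ := (k % 3).toNat + 1

theorem mem_block_iff {k y : ℤ} : y ∈ block k ↔ ∃ s : Fin (sz k), y = fst k + s := by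
  have hk : k % 3 = 0 ∨ k % 3 = 1 ∨ k % 3 = 2 := by omega
  have hy : y % 6 = 0 ∨ y % 6 = 1 ∨ y % 6 = 2 ∨ y % 6 = 3 ∨ y % 6 = 4 ∨ y % 6 = 5 := by omega
  change blk y = k ↔ _
  constructor
  · intro h
    have hlt : (y - fst k).toNat < sz k ∧ fst k ≤ y := by
      unfold sz fst
      unfold blk at h
      rcases hk with hk | hk | hk <;> rcases hy with hy | hy | hy | hy | hy | hy <;>
        simp [hk, hy] at h ⊢ <;> omega
    refine ⟨⟨(y - fst k).toNat, hlt.1⟩, ?_⟩
    simp only [Int.toNat_of_nonneg (sub_nonneg.mpr hlt.2)]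
    ring
  · rintro ⟨s, rfl⟩
    obtain ⟨s, hs⟩ := s
    unfold sz at hs
    simp only
    unfold blk fst
    rcases hk with hk | hk | hk <;> simp [hk] at hs ⊢ <;> split_ifs <;> omega

theorem finite_block (k : ℤ) : (block k).Finite := by
  have : block k = Set.range (fun s : Fin (sz k) => fst k + (s : ℤ)) := by
    ext y
    rw [mem_block_iff]
    constructor
    · rintro ⟨s, rfl⟩; exact ⟨s, rfl⟩
    · rintro ⟨s, rfl⟩; exact ⟨s, rfl⟩
  rw [this]
  exact Set.finite_range _

theorem fst_mem (k : ℤ) : blk (fst k) = k := by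
  have : fst k ∈ block k := mem_block_iff.mpr ⟨⟨0, Nat.succ_pos _⟩, by simp⟩
  exact this

/-- elements of the block groups have full support -/
theorem full_block {k : ℤ} {w : RA} (hw : w ∈ pr (block k)) :
    Full (Γ := hub) (G := fun _ => Multiplicative ℤ) {y | pj y w ≠ 1} w := by
  have hsub : {y | pj y w ≠ 1} ⊆ block k := by
    intro y hy
    by_contra hyk
    exact hy (pj_eq_one hyk hw)
  constructor
  · -- `w` and its retraction have the same projections
    have h1 : retr {y | pj y w ≠ 1} w ∈ pr {y | pj y w ≠ 1} := retr_mem _ _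
    have h2 : w * (retr {y | pj y w ≠ 1} w)⁻¹ = 1 := by
      apply eq_one_of_pj (finite_block k) block_clique
        (mul_mem hw (inv_mem (par_mono hsub h1)))
      intro y hy
      rw [map_mul, map_inv, mul_inv_eq_one]
      by_cases hyw : pj y w = 1
      · rw [hyw, pj_eq_one (Y := {y | pj y w ≠ 1}) (by simpa using hyw) h1]
      · -- retraction preserves the projection
        have : (pj y).comp (retr {y | pj y w ≠ 1}) = pj y := by
          apply RA_hom_ext
          intro x a
          rw [MonoidHom.comp_apply]
          by_cases hx : x ∈ {y | pj y w ≠ 1}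
          · have h3 : retr {y | pj y w ≠ 1} (vx x a) = vx x a :=
              retr_ι_mem (Γ := hub) (G := fun _ => Multiplicative ℤ) hx a
            rw [h3]
          · have h3 : retr {y | pj y w ≠ 1} (vx x a) = 1 :=
              retr_ι_not_mem (Γ := hub) (G := fun _ => Multiplicative ℤ) hx a
            rw [h3, map_one, pj_vx_ne]
            rintro rfl
            exact hx hyw
        exact (DFunLike.congr_fun this w).symm
    rw [mul_inv_eq_one] at h2
    rw [h2]
    convert h1 using 2
    rw [← h2]
  · intro Y' hY' g hg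
    obtain ⟨y, hy, hyY'⟩ := Set.exists_of_ssubset hY'
    apply hy
    have h1 := pj_eq_one hyY' hg
    rw [map_mul, map_mul, map_inv, mul_comm (pj y g), mul_inv_cancel_right] at h1
    exact h1

theorem commute_block {k : ℤ} {w c p : RA} (hw : w ∈ pr (block k)) (hw1 : w ≠ 1)
    (hc : Commute c w) (hp : p ∈ pr (block k)) : Commute c p := by
  have hfull := full_block hw
  obtain ⟨s, hs⟩ : ∃ s ∈ block k, pj s w ≠ 1 := by
    by_contra hcon
    push Not at hcon
    exact hw1 (eq_one_of_pj (finite_block k) block_clique hw hcon)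
  have h1 := hfull.mem_of_commute hc
  refine comm_of_close (Y := block k) ?_ h1 hp
  intro x hx y hy
  have hyk : blk y = k := hy
  rcases hx with hx | hx
  · have hxk : x ∈ block k := by
      by_contra hcon
      exact hx (pj_eq_one hcon hw)
    exact block_clique x hxk y hy
  · have h2 := (hx.2 s hs.2).2
    have h3 : blk s = k := hs.1
    rwa [h3, ← hyk] at h2

/-- `m` is at most the rank of the centre of the centraliser of `g` in `D` -/
def Rk (D : Subgroup Big) (m : ℕ) (g : Big) : Prop :=
  ∃ f : (Fin m → Multiplicative ℤ) →* Big, Injective f ∧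
    ∀ v, f v ∈ D ∧ ∀ c ∈ D, Commute c g → Commute c (f v)

theorem Ht.rk {D : Subgroup Big} {n : ℕ} (hn : 0 < n) (hD : ∀ g : Big, g ^ n ∈ D) {g : Big} {k : ℤ}
    (h : Ht g k) : Rk D (sz k + 1) g := by
  obtain ⟨x, w, i, hw, hw1, rfl⟩ := h
  let ψ : (Fin (sz k) → Multiplicative ℤ) →* RA :=
    MonoidHom.noncommPiCoprod (fun s : Fin (sz k) => vx (fst k + s)) (by
      intro s t _ a b
      exact vx_comm (block_clique _ (mem_block_iff.mpr ⟨s, rfl⟩) _ (mem_block_iff.mpr ⟨t, rfl⟩)) a b)
  have hψ : ∀ v (s : Fin (sz k)), pj (fst k + s) (ψ v) = v s := by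
    intro v s
    have : (pj (fst k + s)).comp ψ = Pi.evalMonoidHom (fun _ => Multiplicative ℤ) s := by
      apply MonoidHom.functions_ext
      intro t a
      rw [MonoidHom.comp_apply, MonoidHom.noncommPiCoprod_mulSingle]
      by_cases hst : t = s
      · subst hst
        rw [pj_vx]
        simp
      · rw [pj_vx_ne]
        · simp [Ne.symm hst]
        · intro h'
          apply hst
          apply Fin.ext
          have : (t : ℤ) = s := by omega
          exact_mod_cast this
    exact DFunLike.congr_fun this v
  have hψmem : ∀ v, ψ v ∈ pr (block k) := by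
    intro v
    have : ψ.range ≤ pr (block k) := by
      rw [MonoidHom.noncommPiCoprod_range]
      apply iSup_le
      rintro s _ ⟨a, rfl⟩
      exact vx_mem (mem_block_iff.mpr ⟨s, rfl⟩) a
    exact this ⟨v, rfl⟩
  let f' : (Fin (sz k + 1) → Multiplicative ℤ) →* Big :=
    { toFun := fun v => el (x * ψ (fun s => v s.castSucc) * x⁻¹) (v (Fin.last _))
      map_one' := by
        have : (fun s : Fin (sz k) => (1 : Fin (sz k + 1) → Multiplicative ℤ) s.castSucc) = 1 := rfl
        rw [this, map_one, mul_one, mul_inv_cancel]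
        rfl
      map_mul' := by
        intro v v'
        rw [el_mul]
        have : (fun s : Fin (sz k) => (v * v') s.castSucc) =
          (fun s => v s.castSucc) * (fun s => v' s.castSucc) := rfl
        rw [this, map_mul]
        congr 1
        group }
  have hf' : Injective f' := by
    rw [injective_iff_map_eq_one]
    intro v hv
    have h1 := el_inj (κ' := 1) (i' := 1) hv
    have h2 : ψ (fun s => v s.castSucc) = 1 := by
      have : ψ (fun s => v s.castSucc) = x⁻¹ * (x * ψ (fun s => v s.castSucc) * x⁻¹) * x := by group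
      rw [this, h1.1]
      group
    funext s
    induction s using Fin.lastCases with
    | last => exact h1.2
    | cast s =>
      have := hψ (fun s => v s.castSucc) s
      rw [h2, map_one] at this
      exact this.symm
  refine ⟨f'.comp (powMonoidHom n), ?_, ?_⟩
  · intro v v' hvv'
    have h1 := hf' hvv'
    funext s
    have h2 := congrFun h1 s
    simp only [powMonoidHom_apply, Pi.pow_apply] at h2
    have h3 := congrArg Multiplicative.toAdd h2
    rw [toAdd_pow, toAdd_pow] at h3
    apply Multiplicative.toAdd.injective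
    exact (mul_right_injective₀ (show (n : ℤ) ≠ 0 by omega)) (by simpa using h3)
  · intro v
    constructor
    · rw [MonoidHom.comp_apply, powMonoidHom_apply, map_pow]
      exact hD _
    · intro c _ hc
      have hκ : x * w * x⁻¹ ≠ 1 := by
        intro h1
        apply hw1
        have : w = x⁻¹ * (x * w * x⁻¹) * x := by group
        rw [this, h1]
        group
      obtain ⟨α, j, rfl, hα⟩ := exists_el_of_commute hκ hc
      have h1 : Commute (x⁻¹ * α * x) w := by
        rw [Commute, SemiconjBy]
        calc x⁻¹ * α * x * w = x⁻¹ * (α * (x * w * x⁻¹)) * x := by group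
          _ = x⁻¹ * ((x * w * x⁻¹) * α) * x := by rw [hα.eq]
          _ = _ := by group
      have h2 := commute_block hw hw1 h1 (hψmem (fun s => (v ^ n) s.castSucc))
      show Commute (el α j) (el _ _)
      rw [el_commute, Commute, SemiconjBy]
      set p := ψ (fun s => (v ^ n) s.castSucc) with hp
      calc α * (x * p * x⁻¹) = x * ((x⁻¹ * α * x) * p) * x⁻¹ := by group
        _ = x * (p * (x⁻¹ * α * x)) * x⁻¹ := by rw [h2.eq]
        _ = x * p * x⁻¹ * α := by group

theorem Ht.le_of_rk {D : Subgroup Big} {n : ℕ} (hn : 0 < n) (hD : ∀ g : Big, g ^ n ∈ D) {g : Big}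
    {k : ℤ} (h : Ht g k) {m : ℕ} (hm : Rk D m g) : m ≤ sz k + 1 := by
  obtain ⟨x, w, i, hw, hw1, rfl⟩ := h
  obtain ⟨f, hf, hfD⟩ := hm
  set a : Multiplicative ℤ := Multiplicative.ofAdd 1 ^ n with ha
  have ha1 : a ≠ 1 := by
    intro h1
    have := congrArg Multiplicative.toAdd h1
    rw [ha, toAdd_pow, toAdd_ofAdd, toAdd_one] at this
    simp at this
    omega
  -- test elements
  have htest : ∀ y, |blk y - k| ≤ 1 → ∀ v, Commute (el (x * vx y a * x⁻¹) 1) (f v) := by
    intro y hy v
    apply (hfD v).2
    · have : el (x * vx y a * x⁻¹) 1 = (el (x * vx y (Multiplicative.ofAdd 1) * x⁻¹) 1) ^ n := by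
        rw [el_pow, conj_pow, ← map_pow, one_pow]
      rw [this]
      exact hD _
    · rw [el_commute, Commute, SemiconjBy]
      have : vx y a * w = w * vx y a := by
        apply comm_of_close (X := {y}) (Y := block k) _ (vx_mem (Set.mem_singleton y) a) hw
        rintro _ rfl z hz
        rw [show blk z = k from hz]
        exact hy
      calc x * vx y a * x⁻¹ * (x * w * x⁻¹) = x * (vx y a * w) * x⁻¹ := by group
        _ = x * (w * vx y a) * x⁻¹ := by rw [this]
        _ = _ := by group
  have hne : ∀ y, x * vx y a * x⁻¹ ≠ 1 := by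
    intro y h1
    apply ha1
    apply vx_injective y
    have : vx y a = x⁻¹ * (x * vx y a * x⁻¹) * x := by group
    rw [this, h1, map_one]
    group
  have hform : ∀ v, ∃ α j, f v = el α j ∧ x⁻¹ * α * x ∈ pr (block k) := by
    intro v
    have h1 := htest (fst (k - 1)) (by rw [fst_mem]; simp) v
    have h2 := htest (fst (k + 1)) (by rw [fst_mem]; simp) v
    obtain ⟨α, j, hα, hα1⟩ := exists_el_of_commute (hne (fst (k - 1))) h1.symm
    refine ⟨α, j, hα, ?_⟩
    rw [hα, el_commute] at h2
    have hconj : ∀ y, Commute α (x * vx y a * x⁻¹) → Commute (x⁻¹ * α * x) (vx y a) := by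
      intro y hy
      rw [Commute, SemiconjBy]
      calc x⁻¹ * α * x * vx y a = x⁻¹ * (α * (x * vx y a * x⁻¹)) * x := by group
        _ = x⁻¹ * ((x * vx y a * x⁻¹) * α) * x := by rw [hy.eq]
        _ = _ := by group
    exact mem_block_of_commute (fst_mem (k - 1)) (fst_mem (k + 1)) ha1 (hconj _ hα1)
      (hconj _ h2.symm)
  choose α j hfv hmem using hform
  have hα : ∀ v v', α (v * v') = α v * α v' := by
    intro v v'
    have := map_mul f v v'
    rw [hfv, hfv, hfv, el_mul] at this
    exact (el_inj this).1
  have hj : ∀ v v', j (v * v') = j v * j v' := by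
    intro v v'
    have := map_mul f v v'
    rw [hfv, hfv, hfv, el_mul] at this
    exact (el_inj this).2
  let L : (Fin m → ℤ) →+ (Fin (sz k) → ℤ) × ℤ := AddMonoidHom.mk'
    (fun v => (fun s => (pj (fst k + s) (α fun t => Multiplicative.ofAdd (v t))).toAdd,
      (j fun t => Multiplicative.ofAdd (v t)).toAdd)) (by
      intro v v'
      have h1 : (fun t => Multiplicative.ofAdd ((v + v') t)) =
        (fun t => Multiplicative.ofAdd (v t)) * (fun t => Multiplicative.ofAdd (v' t)) := rfl
      apply Prod.ext
      · funext s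
        show (pj (fst k + s) (α fun t => Multiplicative.ofAdd ((v + v') t))).toAdd = _
        rw [h1, hα, map_mul, toAdd_mul]
        rfl
      · show (j fun t => Multiplicative.ofAdd ((v + v') t)).toAdd = _
        rw [h1, hj, toAdd_mul]
        rfl)
  have hL : Injective L := by
    rw [injective_iff_map_eq_zero]
    intro v hv
    have h1 := congrFun (Prod.ext_iff.mp hv).1
    have h2 : (j fun t => Multiplicative.ofAdd (v t)).toAdd = 0 := (Prod.ext_iff.mp hv).2
    have h3 : x⁻¹ * α (fun t => Multiplicative.ofAdd (v t)) * x = 1 := by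
      apply eq_one_of_pj (finite_block k) block_clique (hmem _)
      intro y hy
      obtain ⟨s, rfl⟩ := mem_block_iff.mp hy
      have h4 : (pj (fst k + s) (α fun t => Multiplicative.ofAdd (v t))).toAdd = 0 := h1 s
      have h5 : pj (fst k + s) (α fun t => Multiplicative.ofAdd (v t)) = 1 :=
        Multiplicative.toAdd.injective h4
      rw [map_mul, map_mul, h5, mul_one, map_inv, inv_mul_cancel]
    have h4 : α (fun t => Multiplicative.ofAdd (v t)) = 1 := by
      have : α (fun t => Multiplicative.ofAdd (v t)) =
        x * (x⁻¹ * α (fun t => Multiplicative.ofAdd (v t)) * x) * x⁻¹ := by group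
      rw [this, h3]
      group
    have h5 : f (fun t => Multiplicative.ofAdd (v t)) = 1 := by
      rw [hfv, h4]
      have : (j fun t => Multiplicative.ofAdd (v t)) = 1 := Multiplicative.toAdd.injective h2
      rw [this, el_one]
    have h6 : (fun t => Multiplicative.ofAdd (v t)) = (1 : Fin m → Multiplicative ℤ) :=
      hf (by rw [h5, map_one])
    funext t
    exact congrArg Multiplicative.toAdd (congrFun h6 t)
  have hrank := LinearMap.finrank_le_finrank_of_injective (f := L.toIntLinearMap) hL
  simpa using hrank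

end Pool.Agent.Lib.MP_944c19_al
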