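import Pool.Agent.Lib.MP_944c19_al.Tree

/-!
# Supports and centralisers in graph products
-/

set_option autoImplicit false

namespace Pool.Agent.Lib.MP_944c19_al

open Monoid Function

universe u v

namespace GraphProduct

variable {V : Type u} {Γ : SimpleGraph V} {G : V → Type v} [∀ x, Group (G x)]

theorem mem_par_of_forall {Y : Set V} {c : GraphProduct Γ G} (h : ∀ w ∉ Y, c ∈ par {w}ᶜ) :
    c ∈ par Y := by
  obtain ⟨F, hF, hc⟩ := exists_finite c
  have key : ∀ T : Set V, T.Finite → T ⊆ Yᶜ → c ∈ par (F \ T) := by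
    intro T hT
    induction T, hT using Set.Finite.induction_on with
    | empty => intro _; simpa using hc
    | @insert w T _ _ ih =>
      intro hsub
      have h1 := ih ((Set.subset_insert _ _).trans hsub)
      have h2 := par_inter h1 (h w (hsub (Set.mem_insert _ _)))
      refine par_mono ?_ h2
      rintro x ⟨⟨hxF, hxT⟩, hxw⟩
      refine ⟨hxF, ?_⟩
      rintro (rfl | hx)
      · exact hxw rfl
      · exact hxT hx
  have := key (F \ Y) (hF.subset Set.sdiff_subset) (fun x hx => hx.2)
  refine par_mono ?_ this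
  rintro x ⟨hxF, hx⟩
  by_contra hxY
  exact hx ⟨hxF, hxY⟩

/-- `z` has full support `Y`: `z` is in `par Y` and no conjugate of `z` is in `par Y'` for a proper
subset `Y'` of `Y` -/
def Full (Y : Set V) (z : GraphProduct Γ G) : Prop :=
  z ∈ par Y ∧ ∀ Y' ⊂ Y, ∀ g, g * z * g⁻¹ ∉ par Y'

theorem exists_full (z : GraphProduct Γ G) : ∃ (Y : Set V) (g : GraphProduct Γ G), Y.Finite ∧
    Full Y (g * z * g⁻¹) := by
  classical
  have hex : ∃ n : ℕ, ∃ (Y : Finset V) (g : GraphProduct Γ G), g * z * g⁻¹ ∈ par (Y : Set V) ∧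
      Y.card = n := by
    obtain ⟨X, hX, hz⟩ := exists_finite z
    exact ⟨_, hX.toFinset, 1, by simpa using hz, rfl⟩
  obtain ⟨Y, g, hY, hcard⟩ := Nat.find_spec hex
  refine ⟨Y, g, Y.finite_toSet, hY, ?_⟩
  intro Y' hY' h hmem
  have hfin : Y'.Finite := Y.finite_toSet.subset hY'.subset
  have hlt : hfin.toFinset.card < Nat.find hex := by
    rw [← hcard]
    apply Finset.card_lt_card
    rw [← Finset.coe_ssubset, Set.Finite.coe_toFinset]
    exact hY'
  refine Nat.find_min hex hlt ⟨hfin.toFinset, h * g, ?_, rfl⟩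
  rw [Set.Finite.coe_toFinset]
  convert hmem using 1
  group

/-- the vertices outside `Y` adjacent to all vertices of `Y` -/
def perp (Γ : SimpleGraph V) (Y : Set V) : Set V := {w | w ∉ Y ∧ ∀ s ∈ Y, Γ.Adj w s}

/-- the vertices of `Y` adjacent to all other vertices of `Y` -/
def cone (Γ : SimpleGraph V) (Y : Set V) : Set V := {w | w ∈ Y ∧ ∀ s ∈ Y, s ≠ w → Γ.Adj w s}

/-- retractions and conjugates -/
theorem Full.not_mem {Y : Set V} {z : GraphProduct Γ G} (h : Full Y z) {X : Set V}
    {s : V} (hs : s ∈ Y) (hsX : s ∉ X) (g : GraphProduct Γ G) : g * z * g⁻¹ ∉ par X := by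
  intro hmem
  have h1 := retr_par (X := Y) hmem
  rw [map_mul, map_mul, map_inv, retr_of_mem h.1] at h1
  refine h.2 (X ∩ Y) ⟨Set.inter_subset_right, ?_⟩ _ h1
  intro hsub
  exact hsX (hsub hs).1

/-- T3: elements that conjugate an element with full support `Y` into `par Y` -/
theorem Full.mem_of_conj {Y : Set V} {z x : GraphProduct Γ G} (h : Full Y z)
    (hx : x * z * x⁻¹ ∈ par Y) : x ∈ par (Y ∪ perp Γ Y) := by
  apply mem_par_of_forall
  intro w hw
  have hwY : w ∉ Y := fun h' => hw (Or.inl h')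
  obtain ⟨s, hs, hadj⟩ : ∃ s ∈ Y, ¬ Γ.Adj w s := by
    by_contra hcon
    push Not at hcon
    exact hw (Or.inr ⟨hwY, hcon⟩)
  have hsub : Y ⊆ {w}ᶜ := by
    intro y hy
    simp only [Set.mem_compl_iff, Set.mem_singleton_iff]
    rintro rfl
    exact hwY hy
  apply GraphProduct.mem_of_conj w (par_mono hsub h.1)
  · intro a _
    exact h.not_mem hs hadj a
  · exact par_mono hsub hx

theorem Full.mem_of_commute {Y : Set V} {z x : GraphProduct Γ G} (h : Full Y z)
    (hx : Commute x z) : x ∈ par (Y ∪ perp Γ Y) := by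
  apply h.mem_of_conj
  rw [hx.eq, mul_inv_cancel_right]
  exact h.1

theorem eq_retr_mul_retr {X Y : Set V} (hXY : ∀ x ∈ X, ∀ y ∈ Y, Γ.Adj x y)
    {c : GraphProduct Γ G} (hc : c ∈ par (X ∪ Y)) : c = retr X c * retr Y c := by
  rw [par] at hc
  induction hc using Subgroup.closure_induction with
  | mem g hg =>
    obtain ⟨x, hx, a, rfl⟩ := hg
    rcases hx with hx | hx
    · have hxY : x ∉ Y := fun h => Γ.irrefl (hXY x hx x h)
      rw [retr_ι_mem hx, retr_ι_not_mem hxY, mul_one]
    · have hxX : x ∉ X := fun h => Γ.irrefl (hXY x h x hx)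
      rw [retr_ι_mem hx, retr_ι_not_mem hxX, one_mul]
  | one => simp
  | mul c d _ _ hc hd =>
    have h1 : retr Y c * retr X d = retr X d * retr Y c :=
      (par_comm hXY (retr_mem X d) (retr_mem Y c)).symm
    calc c * d = retr X c * retr Y c * (retr X d * retr Y d) := by rw [← hc, ← hd]
      _ = retr X c * (retr Y c * retr X d) * retr Y d := by group
      _ = retr X c * (retr X d * retr Y c) * retr Y d := by rw [h1]
      _ = retr X (c * d) * retr Y (c * d) := by rw [map_mul, map_mul]; group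
  | inv c _ hc =>
    have h1 : retr X c * retr Y c = retr Y c * retr X c :=
      par_comm hXY (retr_mem X c) (retr_mem Y c)
    calc c⁻¹ = (retr X c * retr Y c)⁻¹ := by rw [← hc]
      _ = (retr Y c * retr X c)⁻¹ := by rw [h1]
      _ = retr X c⁻¹ * retr Y c⁻¹ := by rw [map_inv, map_inv]; group

theorem perp_adj {Y : Set V} : ∀ x ∈ Y, ∀ y ∈ perp Γ Y, Γ.Adj x y :=
  fun _ hx _ hy => (hy.2 _ hx).symm

theorem retr_commute {Y : Set V} {z c : GraphProduct Γ G} (hz : z ∈ par Y) (h : Commute c z) :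
    Commute (retr Y c) z := by
  have := congrArg (retr Y) h.eq
  rw [map_mul, map_mul, retr_of_mem hz] at this
  exact this

theorem par_singleton {x : V} {g : GraphProduct Γ G} (hg : g ∈ par {x}) : ∃ a, g = ι x a := by
  have : par {x} ≤ (ι x : G x →* GraphProduct Γ G).range := by
    apply par_le
    rintro y rfl a
    exact ⟨a, rfl⟩
  obtain ⟨a, ha⟩ := this hg
  exact ⟨a, ha.symm⟩

/-- `par (cone Y)` is normalised by `par Y` -/
theorem conj_mem_cone {Y : Set V} {x g : GraphProduct Γ G} (hx : x ∈ par Y)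
    (hg : g ∈ par (cone Γ Y)) : x * g * x⁻¹ ∈ par (cone Γ Y) := by
  have key : ∀ x ∈ (par Y : Subgroup (GraphProduct Γ G)), ∀ g ∈ (par (cone Γ Y) :
      Subgroup (GraphProduct Γ G)), x * g * x⁻¹ ∈ (par (cone Γ Y) :
      Subgroup (GraphProduct Γ G)) := by
    have h1 : (par Y : Subgroup (GraphProduct Γ G)) ≤ Subgroup.normalizer
        ((par (cone Γ Y) : Subgroup (GraphProduct Γ G)) : Set (GraphProduct Γ G)) := by
      apply par_le
      intro y hy b
      have h2 : ∀ (b : G y), ∀ g ∈ (par (cone Γ Y) : Subgroup (GraphProduct Γ G)),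
          ι y b * g * (ι y b)⁻¹ ∈ (par (cone Γ Y) : Subgroup (GraphProduct Γ G)) := by
        intro b
        have h3 : (par (cone Γ Y) : Subgroup (GraphProduct Γ G)) ≤
            (par (cone Γ Y)).comap (MulAut.conj (ι y b : GraphProduct Γ G)).toMonoidHom := by
          apply par_le
          intro w hw a
          rw [Subgroup.mem_comap]
          change ι y b * ι w a * (ι y b)⁻¹ ∈ _
          by_cases hyw : y = w
          · subst hyw
            exact mul_mem (mul_mem (ι_mem_par hw b) (ι_mem_par hw a)) (inv_mem (ι_mem_par hw b))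
          · rw [ι_comm (hw.2 y hy hyw).symm, mul_inv_cancel_right]
            exact ι_mem_par hw a
        exact h3
      rw [Subgroup.mem_normalizer_iff]
      intro g
      constructor
      · exact h2 b g
      · intro hg
        have h4 := h2 b⁻¹ _ hg
        convert h4 using 1
        rw [map_inv]
        group
    intro x hx g hg
    exact (Subgroup.mem_normalizer_iff.mp (h1 hx) g).mp hg
  exact key x hx g hg

/-- T4: commutators in centralisers -/
theorem Full.commutator_mem {Y : Set V} (hY : Y.Finite) {z a b : GraphProduct Γ G} (h : Full Y z)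
    (ha : a ∈ par Y) (hb : b ∈ par Y) (haz : Commute a z) (hbz : Commute b z) :
    a * b * a⁻¹ * b⁻¹ ∈ par (cone Γ Y) := by
  classical
  set l := a * b * a⁻¹ * b⁻¹ with hl
  have hlY : l ∈ par Y := mul_mem (mul_mem (mul_mem ha hb) (inv_mem ha)) (inv_mem hb)
  have hlz : Commute l z := ((haz.mul_left hbz).mul_left haz.inv_left).mul_left hbz.inv_left
  have hex : ∃ n : ℕ, ∃ (T : Finset V) (x : GraphProduct Γ G), x ∈ par Y ∧ (T : Set V) ⊆ Y ∧
      x * l * x⁻¹ ∈ par (T : Set V) ∧ T.card = n :=
    ⟨_, hY.toFinset, 1, one_mem _, by simp, by simpa using hlY, rfl⟩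
  obtain ⟨T, x, hx, hTY, hT, hcard⟩ := Nat.find_spec hex
  have hfull : Full (T : Set V) (x * l * x⁻¹) := by
    refine ⟨hT, ?_⟩
    intro T' hT' g hmem
    have hfin : T'.Finite := T.finite_toSet.subset hT'.subset
    have hlt : hfin.toFinset.card < Nat.find hex := by
      rw [← hcard]
      apply Finset.card_lt_card
      rw [← Finset.coe_ssubset, Set.Finite.coe_toFinset]
      exact hT'
    refine Nat.find_min hex hlt ⟨hfin.toFinset, retr Y g * x, mul_mem (retr_mem Y g) hx, ?_, ?_,
      rfl⟩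
    · rw [Set.Finite.coe_toFinset]
      exact hT'.subset.trans hTY
    · rw [Set.Finite.coe_toFinset]
      have h1 := retr_par (X := Y) hmem
      rw [map_mul, map_mul, map_inv, retr_of_mem (mul_mem (mul_mem hx hlY) (inv_mem hx))] at h1
      have h2 := par_mono (Γ := Γ) (G := G) (Set.inter_subset_left : T' ∩ Y ⊆ T') h1
      convert h2 using 1
      group
  -- `Y ⊆ T ∪ perp T`
  have hYT : ∀ s ∈ Y, s ∈ (T : Set V) ∪ perp Γ (T : Set V) := by
    intro s hs
    by_contra hcon
    have hcomm : Commute (x * z * x⁻¹) (x * l * x⁻¹) := by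
      rw [Commute, SemiconjBy]
      calc x * z * x⁻¹ * (x * l * x⁻¹) = x * (z * l) * x⁻¹ := by group
        _ = x * (l * z) * x⁻¹ := by rw [hlz.eq]
        _ = _ := by group
    exact h.not_mem hs hcon x (hfull.mem_of_commute hcomm)
  have hTcone : (T : Set V) ⊆ cone Γ Y := by
    intro t ht
    refine ⟨hTY ht, ?_⟩
    intro s hs hst
    by_contra hadj
    have h1 : ∀ u, u * z * u⁻¹ ∉ par {t}ᶜ := fun u => h.not_mem (hTY ht) (by simp) u
    have h2 : ∀ u, u * z * u⁻¹ ∉ par (insert t (Γ.neighborSet t)) := fun u =>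
      h.not_mem hs (by
        rintro (h' | h')
        · exact hst h'
        · exact hadj h') u
    obtain ⟨-, u, hu⟩ := hyp_of_not_conj t h1 h2
    have h3 := hu a b haz hbz
    refine hfull.not_mem ht (X := Γ.neighborSet t) (fun h' => Γ.irrefl h') (u * x⁻¹) ?_
    convert h3 using 1
    rw [← hl]
    group
  have h4 : x * l * x⁻¹ ∈ par (cone Γ Y) := par_mono hTcone hT
  have h5 := conj_mem_cone (inv_mem hx) h4
  convert h5 using 1
  group

end GraphProduct

end Pool.Agent.Lib.MP_944c19_al
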