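import Pool.Agent.Lib.MP_944c19_al.Hyp
import Pool.Agent.Lib.MP_944c19_al.GP

/-!
# The splitting of a graph product at a vertex
-/

set_option autoImplicit false

namespace Pool.Agent.Lib.MP_944c19_al

open Monoid Monoid.PushoutI Function

universe u v

namespace GraphProduct

variable {V : Type u} {Γ : SimpleGraph V} {G : V → Type v} [∀ x, Group (G x)]

section split

variable (Γ G) (v : V)

/-- the two factors of the splitting at `v` -/
def fac : Bool → Subgroup (GraphProduct Γ G)
  | true => par {v}ᶜ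
  | false => par (insert v (Γ.neighborSet v))

theorem lk_le_fac (i : Bool) : (par (Γ.neighborSet v) : Subgroup (GraphProduct Γ G)) ≤ fac Γ G v i := by
  cases i
  · exact par_mono (Set.subset_insert _ _)
  · apply par_mono
    intro x hx
    simp only [Set.mem_compl_iff, Set.mem_singleton_iff]
    rintro rfl
    exact Γ.irrefl hx

/-- the inclusions of the edge group -/
def inc (i : Bool) : (par (Γ.neighborSet v) : Subgroup (GraphProduct Γ G)) →* fac Γ G v i :=
  Subgroup.inclusion (lk_le_fac Γ G v i)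

theorem inc_injective (i : Bool) : Injective (inc Γ G v i) :=
  Subgroup.inclusion_injective _

/-- the map from the amalgam to the graph product -/
def toGP : PushoutI (inc Γ G v) →* GraphProduct Γ G :=
  PushoutI.lift (fun i => (fac Γ G v i).subtype) (par (Γ.neighborSet v)).subtype
    (by intro i; rfl)

open Classical in
/-- the images of the vertex groups in the amalgam -/
noncomputable def ofV (x : V) : G x →* PushoutI (inc Γ G v) :=
  if h : x = v then
    (of (φ := inc Γ G v) false).comp
      ((ι x : G x →* GraphProduct Γ G).codRestrict (fac Γ G v false) (fun a => by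
        subst h; exact ι_mem_par (Set.mem_insert _ _) a))
  else
    (of (φ := inc Γ G v) true).comp
      ((ι x : G x →* GraphProduct Γ G).codRestrict (fac Γ G v true) (fun a =>
        ι_mem_par (by simpa using h) a))

theorem ofV_true {x : V} (h : x ≠ v) (a : G x) :
    ofV Γ G v x a = of (φ := inc Γ G v) true ⟨ι x a, ι_mem_par (by simpa using h) a⟩ := by
  simp only [ofV, h, dif_neg, not_false_eq_true]
  rfl

theorem ofV_false {x : V} (h : x ∈ insert v (Γ.neighborSet v)) (a : G x) :
    ofV Γ G v x a = of (φ := inc Γ G v) false ⟨ι x a, ι_mem_par h a⟩ := by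
  by_cases hx : x = v
  · subst hx
    simp only [ofV, dif_pos]
    rfl
  · rw [ofV_true Γ G v hx]
    have hx' : x ∈ Γ.neighborSet v := h.resolve_left hx
    have h1 := of_apply_eq_base (inc Γ G v) true ⟨ι x a, ι_mem_par hx' a⟩
    have h2 := of_apply_eq_base (inc Γ G v) false ⟨ι x a, ι_mem_par hx' a⟩
    exact h1.trans h2.symm

/-- the inverse map -/
noncomputable def fromGP : GraphProduct Γ G →* PushoutI (inc Γ G v) :=
  lift (ofV Γ G v) (by
    intro x y h a b
    by_cases hx : x = v
    · subst hx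
      rw [ofV_false Γ G x (Set.mem_insert _ _), ofV_false Γ G x (Set.mem_insert_of_mem _ h),
        ← map_mul, ← map_mul]
      congr 1
      exact Subtype.ext (ι_comm h a b)
    · by_cases hy : y = v
      · subst hy
        rw [ofV_false Γ G y (Set.mem_insert_of_mem _ h.symm), ofV_false Γ G y (Set.mem_insert _ _),
          ← map_mul, ← map_mul]
        congr 1
        exact Subtype.ext (ι_comm h a b)
      · rw [ofV_true Γ G v hx, ofV_true Γ G v hy, ← map_mul, ← map_mul]
        congr 1
        exact Subtype.ext (ι_comm h a b))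

theorem toGP_fromGP (g : GraphProduct Γ G) : toGP Γ G v (fromGP Γ G v g) = g := by
  have : (toGP Γ G v).comp (fromGP Γ G v) = MonoidHom.id _ := by
    apply hom_ext
    intro x a
    simp only [MonoidHom.comp_apply, fromGP, lift_ι, MonoidHom.id_apply]
    by_cases hx : x = v
    · subst hx
      rw [ofV_false Γ G x (Set.mem_insert _ _)]
      simp [toGP]
    · rw [ofV_true Γ G v hx]
      simp [toGP]
  exact DFunLike.congr_fun this g

theorem fromGP_fac (i : Bool) (x : fac Γ G v i) :
    fromGP Γ G v x = of (φ := inc Γ G v) i x := by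
  have key : ∀ (X : Set V) (S : Subgroup (GraphProduct Γ G)) (hS : par X ≤ S)
      (f : S →* PushoutI (inc Γ G v))
      (hf : ∀ x (hx : x ∈ X) (a : G x), ofV Γ G v x a = f ⟨ι x a, hS (ι_mem_par hx a)⟩)
      (g : GraphProduct Γ G) (hg : g ∈ par X), fromGP Γ G v g = f ⟨g, hS hg⟩ := by
    intro X S hS f hf g hg
    have h1 : par X ≤ (((fromGP Γ G v).comp S.subtype).eqLocus f).map S.subtype := by
      apply par_le
      intro x hx a
      rw [Subgroup.mem_map]
      refine ⟨⟨ι x a, hS (ι_mem_par hx a)⟩, ?_, rfl⟩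
      change fromGP Γ G v (ι x a) = _
      rw [fromGP, lift_ι]
      exact hf x hx a
    obtain ⟨y, hy, hyg⟩ := Subgroup.mem_map.mp (h1 hg)
    have hy' : fromGP Γ G v (y : GraphProduct Γ G) = f y := hy
    have : y = ⟨g, hS hg⟩ := Subtype.ext hyg
    subst this
    exact hy'
  cases i
  · exact key (insert v (Γ.neighborSet v)) (fac Γ G v false) le_rfl (of (φ := inc Γ G v) false)
      (fun x hx a => ofV_false Γ G v hx a) x x.2
  · exact key {v}ᶜ (fac Γ G v true) le_rfl (of (φ := inc Γ G v) true)
      (fun x hx a => ofV_true Γ G v (by simpa using hx) a) x x.2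

theorem fromGP_base (x : (par (Γ.neighborSet v) : Subgroup (GraphProduct Γ G))) :
    fromGP Γ G v x = base (inc Γ G v) x := by
  rw [← of_apply_eq_base (inc Γ G v) true x, ← fromGP_fac]
  rfl

theorem fromGP_mem_fac {i : Bool} {g : GraphProduct Γ G} :
    fromGP Γ G v g ∈ (of (φ := inc Γ G v) i).range ↔ g ∈ fac Γ G v i := by
  constructor
  · rintro ⟨x, hx⟩
    rw [← fromGP_fac] at hx
    have := congrArg (toGP Γ G v) hx
    rw [toGP_fromGP, toGP_fromGP] at this
    rw [← this]
    exact x.2
  · intro h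
    exact ⟨⟨g, h⟩, (fromGP_fac Γ G v i ⟨g, h⟩).symm⟩

theorem fromGP_mem_base {g : GraphProduct Γ G} :
    fromGP Γ G v g ∈ (base (inc Γ G v)).range ↔ g ∈ par (Γ.neighborSet v) := by
  constructor
  · rintro ⟨x, hx⟩
    rw [← fromGP_base] at hx
    have := congrArg (toGP Γ G v) hx
    rw [toGP_fromGP, toGP_fromGP] at this
    rw [← this]
    exact x.2
  · intro h
    exact ⟨⟨g, h⟩, (fromGP_base Γ G v ⟨g, h⟩).symm⟩

theorem fromGP_toGP (x : PushoutI (inc Γ G v)) : fromGP Γ G v (toGP Γ G v x) = x := by
  have : (fromGP Γ G v).comp (toGP Γ G v) = MonoidHom.id _ := by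
    apply PushoutI.hom_ext_nonempty
    intro i
    ext x
    simp only [MonoidHom.comp_apply, toGP, lift_of, MonoidHom.id_apply, Subgroup.coe_subtype]
    exact fromGP_fac Γ G v i x
  exact DFunLike.congr_fun this x

/-- a transversal -/
noncomputable def tr : NormalWord.Transversal (inc Γ G v) :=
  (NormalWord.transversal_nonempty _ (inc_injective Γ G v)).some

/-- number of letters in the normal form with respect to the splitting at `v` -/
noncomputable def lenv (g : GraphProduct Γ G) : ℕ := len (tr Γ G v) (fromGP Γ G v g)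

end split

theorem lenv_mul_le (v : V) (g h : GraphProduct Γ G) :
    lenv Γ G v (g * h) ≤ lenv Γ G v g + lenv Γ G v h := by
  rw [lenv, map_mul]
  exact (isTreeLen_len _).mul_le _ _

theorem lenv_inv (v : V) (g : GraphProduct Γ G) : lenv Γ G v g⁻¹ = lenv Γ G v g := by
  rw [lenv, map_inv]
  exact len_inv _ _

theorem lenv_one (v : V) : lenv Γ G v (1 : GraphProduct Γ G) = 0 := by
  rw [lenv, map_one]
  exact len_one _

/-- T1: centralisers of elements of `par {v}ᶜ` not conjugate into the link -/
theorem mem_of_conj (v : V) {z x : GraphProduct Γ G} (hz : z ∈ par {v}ᶜ)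
    (hz' : ∀ a ∈ par {v}ᶜ, a * z * a⁻¹ ∉ par (Γ.neighborSet v))
    (hx : x * z * x⁻¹ ∈ par {v}ᶜ) : x ∈ par {v}ᶜ := by
  have h1 : fromGP Γ G v x ∈ (of (φ := inc Γ G v) true).range := by
    apply mem_of_conj_mem (tr Γ G v) true (⟨z, hz⟩ : fac Γ G v true)
    · intro c hc
      apply hz' c c.2
      obtain ⟨y, hy⟩ := hc
      have := congrArg (Subtype.val) hy
      change (y : GraphProduct Γ G) = c * z * (c : GraphProduct Γ G)⁻¹ at this
      rw [← this]
      exact y.2
    · rw [← fromGP_fac, ← map_mul, ← map_inv, ← map_mul, fromGP_mem_fac]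
      exact hx
  exact (fromGP_mem_fac Γ G v).mp h1

/-- T2: hyperbolic elements -/
theorem hyp_of_not_conj (v : V) {z : GraphProduct Γ G} (h1 : ∀ u, u * z * u⁻¹ ∉ par {v}ᶜ)
    (h2 : ∀ u, u * z * u⁻¹ ∉ par (insert v (Γ.neighborSet v))) :
    (∃ c : ℕ, ∀ n : ℕ, 2 * n ≤ lenv Γ G v (z ^ n) + c) ∧
    (∃ u : GraphProduct Γ G, ∀ a b, Commute a z → Commute b z →
      u * (a * b * a⁻¹ * b⁻¹) * u⁻¹ ∈ par (Γ.neighborSet v)) := by
  have hyp : ∀ (w : PushoutI (inc Γ G v)) (i : Bool),
      w * fromGP Γ G v z * w⁻¹ ∉ (of (φ := inc Γ G v) i).range := by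
    intro w i hcon
    rw [← fromGP_toGP Γ G v w, ← map_inv, ← map_mul, ← map_mul, fromGP_mem_fac] at hcon
    cases i
    · exact h2 _ hcon
    · exact h1 _ hcon
  obtain ⟨u', m, hm, hu'⟩ := exists_cyc (tr Γ G v) (fromGP Γ G v z) hyp
  set u := toGP Γ G v u' with hu
  have huu : fromGP Γ G v u = u' := fromGP_toGP Γ G v u'
  have hlen : ∀ n : ℕ, lenv Γ G v ((u * z * u⁻¹) ^ n) = n * m := by
    intro n
    rw [lenv, map_pow, map_mul, map_mul, map_inv, huu]
    exact hu' n
  constructor
  · refine ⟨2 * lenv Γ G v u, fun n => ?_⟩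
    have h3 := hlen n
    rw [conj_pow] at h3
    have h4 := lenv_mul_le v (u * z ^ n) u⁻¹
    have h5 := lenv_mul_le v u (z ^ n)
    rw [lenv_inv] at h4
    have : n * 2 ≤ n * m := Nat.mul_le_mul_left n hm
    omega
  · refine ⟨u, fun a b ha hb => ?_⟩
    have h6 := (isTreeLen_len (tr Γ G v)).comm_len_zero (z := u' * fromGP Γ G v z * u'⁻¹) (m := m)
      (by omega) hu' (a := u' * fromGP Γ G v a * u'⁻¹) (b := u' * fromGP Γ G v b * u'⁻¹)
      (by
        have := congrArg (fromGP Γ G v) ha.eq
        rw [map_mul, map_mul] at this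
        rw [Commute, SemiconjBy]
        calc u' * fromGP Γ G v a * u'⁻¹ * (u' * fromGP Γ G v z * u'⁻¹)
            = u' * (fromGP Γ G v a * fromGP Γ G v z) * u'⁻¹ := by group
          _ = u' * (fromGP Γ G v z * fromGP Γ G v a) * u'⁻¹ := by rw [this]
          _ = _ := by group)
      (by
        have := congrArg (fromGP Γ G v) hb.eq
        rw [map_mul, map_mul] at this
        rw [Commute, SemiconjBy]
        calc u' * fromGP Γ G v b * u'⁻¹ * (u' * fromGP Γ G v z * u'⁻¹)
            = u' * (fromGP Γ G v b * fromGP Γ G v z) * u'⁻¹ := by group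
          _ = u' * (fromGP Γ G v z * fromGP Γ G v b) * u'⁻¹ := by rw [this]
          _ = _ := by group)
    rw [len_eq_zero] at h6
    rw [← fromGP_mem_base]
    simp only [map_mul, map_inv, huu]
    convert h6 using 1
    group

theorem lenv_ι_le (v : V) (x : V) (a : G x) : lenv Γ G v (ι x a) ≤ 1 := by
  rw [lenv]
  by_cases hx : x = v
  · subst hx
    have : (ι x a : GraphProduct Γ G) ∈ fac Γ G x false := ι_mem_par (Set.mem_insert _ _) a
    obtain ⟨y, hy⟩ := (fromGP_mem_fac Γ G x).mpr this
    rw [← hy]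
    exact len_of_le _ _ _
  · have : (ι x a : GraphProduct Γ G) ∈ fac Γ G v true := ι_mem_par (by simpa using hx) a
    obtain ⟨y, hy⟩ := (fromGP_mem_fac Γ G v).mpr this
    rw [← hy]
    exact len_of_le _ _ _

end GraphProduct

end Pool.Agent.Lib.MP_944c19_al
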